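import Pool.Agent.Helper82.Circ.SC

/-!
Barycentric subdivision does not change the open cone.
-/

open Topology Set Finset

namespace Pool.Agent.Helper82.Circ

variable {V : Type*}

/-- Barycentric subdivision. -/
def SC.sd (K : SC V) : SC (Finset V) where
  faces := {c | (∀ s ∈ c, s.Nonempty ∧ s ∈ K.faces) ∧ ∀ s ∈ c, ∀ t ∈ c, s ⊆ t ∨ t ⊆ s}
  down := fun hc hd => ⟨fun s hs => hc.1 s (hd hs),
    fun s hs t ht => hc.2 s (hd hs) t (hd ht)⟩

lemma SC.sd_locFin {K : SC V} (hK : K.LocFin) : K.sd.LocFin := by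
  classical
  intro s
  by_cases hs : s.Nonempty
  · obtain ⟨v, hv⟩ := hs
    have hfin : {c : Finset (Finset V) | c ⊆ s.powerset ∪ (hK v).toFinset}.Finite := by
      refine ((s.powerset ∪ (hK v).toFinset).powerset.finite_toSet).subset fun c hc => ?_
      exact Finset.mem_coe.2 (Finset.mem_powerset.2 hc)
    refine hfin.subset fun c hc t ht => ?_
    rw [Finset.mem_union, Finset.mem_powerset, Set.Finite.mem_toFinset]
    rcases hc.1.2 s hc.2 t ht with h | h
    · exact Or.inr ⟨(hc.1.1 t ht).2, h hv⟩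
    · exact Or.inl h
  · refine Set.Finite.subset Set.finite_empty fun c hc => ?_
    exact absurd (hc.1.1 s hc.2).1 hs

variable {K : SC V}

/-- total weight of the faces through a vertex -/
noncomputable def phi (hK : K.LocFin) (X : Finset V → ℝ) (v : V) : ℝ :=
  ∑ s ∈ (hK v).toFinset, X s

lemma continuous_phi (hK : K.LocFin) : Continuous (phi hK) := by
  unfold phi
  fun_prop

open Classical in
lemma phi_eq (hK : K.LocFin) {X : Finset V → ℝ} {c : Finset (Finset V)} (hc : c ∈ K.sd.faces)
    (hX : ∀ s ∉ c, X s = 0) (v : V) : phi hK X v = ∑ s ∈ c with v ∈ s, X s := by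
  unfold phi
  have h1 : ∑ s ∈ (hK v).toFinset, X s = ∑ s ∈ (hK v).toFinset with s ∈ c, X s := by
    rw [Finset.sum_filter]
    refine Finset.sum_congr rfl fun s _ => ?_
    split_ifs with h
    · rfl
    · exact hX s h
  rw [h1]
  refine Finset.sum_congr ?_ fun _ _ => rfl
  ext s
  simp only [Finset.mem_filter, Set.Finite.mem_toFinset, Set.mem_ofPred_eq]
  constructor
  · rintro ⟨⟨_, h2⟩, h3⟩
    exact ⟨h3, h2⟩
  · rintro ⟨h1, h2⟩
    exact ⟨⟨(hc.1 s h1).2, h2⟩, h1⟩

open Classical in
/-- minimum over a finite set -/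
noncomputable def mn (θ : V → ℝ) (s : Finset V) : ℝ := if h : s.Nonempty then s.inf' h θ else 0

open Classical in
/-- maximum over a finite set -/
noncomputable def mx (θ : V → ℝ) (s : Finset V) : ℝ := if h : s.Nonempty then s.sup' h θ else 0

lemma continuous_mn (s : Finset V) : Continuous fun θ : V → ℝ => mn θ s := by
  unfold mn
  by_cases h : s.Nonempty
  · simp only [h, dif_pos]
    exact Continuous.finset_inf'_apply h fun i _ => continuous_apply i
  · simp only [h, dif_neg, not_false_eq_true]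
    exact continuous_const

lemma continuous_mx (s : Finset V) : Continuous fun θ : V → ℝ => mx θ s := by
  unfold mx
  by_cases h : s.Nonempty
  · simp only [h, dif_pos]
    exact Continuous.finset_sup'_apply h fun i _ => continuous_apply i
  · simp only [h, dif_neg, not_false_eq_true]
    exact continuous_const

open Classical in
/-- the vertices of the faces through a chosen vertex of `s` -/
noncomputable def nb (hK : K.LocFin) (s : Finset V) : Finset V :=
  if h : s.Nonempty then (hK h.choose).toFinset.biUnion id else ∅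

open Classical in
/-- the inverse of `phi` -/
noncomputable def psi (hK : K.LocFin) (θ : V → ℝ) (s : Finset V) : ℝ :=
  max 0 (mn θ s - mx θ (nb hK s \ s))

lemma continuous_psi (hK : K.LocFin) : Continuous (psi hK) := by
  refine continuous_pi fun s => ?_
  unfold psi
  exact continuous_const.max ((continuous_mn s).sub (continuous_mx _))

lemma phi_nonneg (hK : K.LocFin) {X : Finset V → ℝ} (h0 : ∀ s, 0 ≤ X s) (v : V) :
    0 ≤ phi hK X v := Finset.sum_nonneg fun s _ => h0 s

open Classical in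
lemma mn_phi (hK : K.LocFin) {X : Finset V → ℝ} (h0 : ∀ s, 0 ≤ X s) {c : Finset (Finset V)}
    (hc : c ∈ K.sd.faces) (hX : ∀ s ∉ c, X s = 0) {s : Finset V} (hs : s.Nonempty) :
    mn (phi hK X) s = ∑ t ∈ c with s ⊆ t, X t := by
  unfold mn
  rw [dif_pos hs]
  refine le_antisymm ?_ ?_
  · -- find a vertex
    obtain ⟨v, hv, hvt⟩ : ∃ v ∈ s, ∀ t ∈ c, v ∈ t → s ⊆ t := by
      by_cases hne : (c.filter (fun t => ¬ s ⊆ t)).Nonempty
      · obtain ⟨t0, ht0, hmax⟩ := Finset.exists_max_image _ (fun t => t.card) hne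
        rw [Finset.mem_filter] at ht0
        obtain ⟨v, hv, hvt0⟩ := Finset.not_subset.1 ht0.2
        refine ⟨v, hv, fun t ht hvt => ?_⟩
        by_contra hst
        have h1 := hmax t (Finset.mem_filter.2 ⟨ht, hst⟩)
        rcases hc.2 t ht t0 ht0.1 with h | h
        · exact hvt0 (h hvt)
        · have := Finset.eq_of_subset_of_card_le h h1
          rw [this] at hvt0
          exact hvt0 hvt
      · obtain ⟨v, hv⟩ := hs
        refine ⟨v, hv, fun t ht _ => ?_⟩
        by_contra hst
        exact hne ⟨t, Finset.mem_filter.2 ⟨ht, hst⟩⟩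
    refine (Finset.inf'_le _ hv).trans ?_
    rw [phi_eq hK hc hX]
    refine Finset.sum_le_sum_of_subset_of_nonneg ?_ fun t _ _ => h0 t
    intro t ht
    rw [Finset.mem_filter] at ht ⊢
    exact ⟨ht.1, hvt t ht.1 ht.2⟩
  · refine Finset.le_inf' _ _ fun v hv => ?_
    rw [phi_eq hK hc hX]
    refine Finset.sum_le_sum_of_subset_of_nonneg ?_ fun t _ _ => h0 t
    intro t ht
    rw [Finset.mem_filter] at ht ⊢
    exact ⟨ht.1, ht.2 hv⟩

open Classical in
lemma mx_phi_le (hK : K.LocFin) {X : Finset V → ℝ} (h0 : ∀ s, 0 ≤ X s) {c : Finset (Finset V)}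
    (hc : c ∈ K.sd.faces) (hX : ∀ s ∉ c, X s = 0) {s b : Finset V} :
    mx (phi hK X) (b \ s) ≤ ∑ t ∈ c with ¬ t ⊆ s, X t := by
  unfold mx
  split_ifs with h
  · refine Finset.sup'_le _ _ fun w hw => ?_
    rw [phi_eq hK hc hX]
    refine Finset.sum_le_sum_of_subset_of_nonneg ?_ fun t _ _ => h0 t
    intro t ht
    rw [Finset.mem_filter] at ht ⊢
    rw [Finset.mem_sdiff] at hw
    exact ⟨ht.1, fun h => hw.2 (h ht.2)⟩
  · exact Finset.sum_nonneg fun t _ => h0 t

lemma mx_nonneg {θ : V → ℝ} (h0 : ∀ v, 0 ≤ θ v) (s : Finset V) : 0 ≤ mx θ s := by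
  unfold mx
  split_ifs with h
  · obtain ⟨v, hv⟩ := h
    exact (h0 v).trans (Finset.le_sup' θ hv)
  · exact le_rfl

open Classical in
lemma mx_phi_ge (hK : K.LocFin) {X : Finset V → ℝ} (h0 : ∀ s, 0 ≤ X s) {c : Finset (Finset V)}
    (hc : c ∈ K.sd.faces) (hX : ∀ s ∉ c, X s = 0) {s : Finset V} (hs : s.Nonempty)
    (hpos : ∃ t ∈ c, s ⊆ t) :
    ∑ t ∈ c with ¬ t ⊆ s, X t ≤ mx (phi hK X) (nb hK s \ s) := by
  by_cases hne : (c.filter (fun t => ¬ t ⊆ s)).Nonempty
  · obtain ⟨t1, ht1, hmin⟩ := Finset.exists_min_image _ (fun t => t.card) hne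
    rw [Finset.mem_filter] at ht1
    obtain ⟨w, hw, hws⟩ := Finset.not_subset.1 ht1.2
    have hsub : ∀ t ∈ c, ¬ t ⊆ s → w ∈ t := by
      intro t ht hts
      have h1 := hmin t (Finset.mem_filter.2 ⟨ht, hts⟩)
      rcases hc.2 t ht t1 ht1.1 with h | h
      · rw [Finset.eq_of_subset_of_card_le h h1]
        exact hw
      · exact h hw
    have hwnb : w ∈ nb hK s := by
      unfold nb
      rw [dif_pos hs, Finset.mem_biUnion]
      obtain ⟨t, ht, hst⟩ := hpos
      have hv : hs.choose ∈ t := hst hs.choose_spec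
      rcases hc.2 t ht t1 ht1.1 with h | h
      · refine ⟨t1, ?_, hw⟩
        rw [Set.Finite.mem_toFinset]
        exact ⟨(hc.1 t1 ht1.1).2, h hv⟩
      · refine ⟨t, ?_, h hw⟩
        rw [Set.Finite.mem_toFinset]
        exact ⟨(hc.1 t ht).2, hv⟩
    have hmem : w ∈ nb hK s \ s := Finset.mem_sdiff.2 ⟨hwnb, hws⟩
    unfold mx
    rw [dif_pos ⟨w, hmem⟩]
    refine le_trans ?_ (Finset.le_sup' _ hmem)
    rw [phi_eq hK hc hX]
    refine Finset.sum_le_sum_of_subset_of_nonneg ?_ fun t _ _ => h0 t
    intro t ht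
    rw [Finset.mem_filter] at ht ⊢
    exact ⟨ht.1, hsub t ht.1 ht.2⟩
  · rw [Finset.not_nonempty_iff_eq_empty] at hne
    rw [hne, Finset.sum_empty]
    exact mx_nonneg (phi_nonneg hK h0) _

open Classical in
lemma psi_phi (hK : K.LocFin) {X : Finset V → ℝ} (h0 : ∀ s, 0 ≤ X s) {c : Finset (Finset V)}
    (hc : c ∈ K.sd.faces) (hX : ∀ s ∉ c, X s = 0) : psi hK (phi hK X) = X := by
  funext s
  unfold psi
  by_cases hs : s.Nonempty
  · rw [mn_phi hK h0 hc hX hs]
    by_cases hsc : s ∈ c
    · have h1 : mx (phi hK X) (nb hK s \ s) = ∑ t ∈ c with ¬ t ⊆ s, X t :=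
        le_antisymm (mx_phi_le hK h0 hc hX) (mx_phi_ge hK h0 hc hX hs ⟨s, hsc, subset_rfl⟩)
      have h2 : c.filter (fun t => s ⊆ t) = insert s (c.filter (fun t => ¬ t ⊆ s)) := by
        ext t
        simp only [Finset.mem_filter, Finset.mem_insert]
        constructor
        · rintro ⟨h3, h4⟩
          by_cases h5 : t = s
          · exact Or.inl h5
          · exact Or.inr ⟨h3, fun h6 => h5 (Finset.Subset.antisymm h6 h4)⟩
        · rintro (rfl | ⟨h3, h4⟩)
          · exact ⟨hsc, subset_rfl⟩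
          · rcases hc.2 s hsc t h3 with h | h
            · exact ⟨h3, h⟩
            · exact absurd h h4
      rw [h1, h2, Finset.sum_insert (by simp), add_sub_cancel_right]
      exact max_eq_right (h0 s)
    · rw [hX s hsc]
      refine max_eq_left ?_
      by_cases hpos : ∃ t ∈ c, s ⊆ t
      · have h1 := mx_phi_ge hK h0 hc hX hs hpos
        have h2 : ∑ t ∈ c with s ⊆ t, X t ≤ ∑ t ∈ c with ¬ t ⊆ s, X t := by
          refine Finset.sum_le_sum_of_subset_of_nonneg ?_ fun t _ _ => h0 t
          intro t ht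
          rw [Finset.mem_filter] at ht ⊢
          refine ⟨ht.1, fun h => hsc ?_⟩
          rw [Finset.Subset.antisymm ht.2 h]
          exact ht.1
        linarith
      · have h2 : c.filter (fun t => s ⊆ t) = ∅ := by
          rw [Finset.filter_eq_empty_iff]
          intro t ht h
          exact hpos ⟨t, ht, h⟩
        rw [h2, Finset.sum_empty]
        have := mx_nonneg (phi_nonneg hK h0) (nb hK s \ s)
        linarith
  · have hsc : s ∉ c := fun h => hs (hc.1 s h).1
    rw [hX s hsc]
    refine max_eq_left ?_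
    have h1 : mn (phi hK X) s = 0 := by
      unfold mn
      rw [dif_neg hs]
    have := mx_nonneg (phi_nonneg hK h0) (nb hK s \ s)
    linarith

open Classical in
lemma exists_phi (hK : K.LocFin) (n : ℕ) : ∀ (θ : V → ℝ) (s₀ : Finset V), (∀ v, 0 ≤ θ v) →
    s₀ ∈ K.faces → (∀ v, θ v ≠ 0 ↔ v ∈ s₀) → s₀.card = n →
    ∃ (X : Finset V → ℝ) (c : Finset (Finset V)), (∀ s, 0 ≤ X s) ∧ c ∈ K.sd.faces ∧
      (∀ s ∉ c, X s = 0) ∧ (∀ s ∈ c, s ⊆ s₀) ∧ phi hK X = θ := by
  induction n using Nat.strong_induction_on with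
  | _ n ih =>
    intro θ s₀ h0 hs₀ hsupp hcard
    rcases s₀.eq_empty_or_nonempty with rfl | hne
    · refine ⟨0, ∅, fun _ => le_rfl, ⟨by simp, by simp⟩, fun _ _ => rfl, by simp, ?_⟩
      funext v
      have : θ v = 0 := by
        by_contra h
        simpa using (hsupp v).1 h
      rw [this]
      simp [phi]
    · obtain ⟨v0, hv0, hmin⟩ := Finset.exists_min_image s₀ θ hne
      have hμ : 0 < θ v0 := lt_of_le_of_ne (h0 v0) (Ne.symm ((hsupp v0).2 hv0))
      set μ := θ v0 with hμdef
      let θ' : V → ℝ := fun v => θ v - if v ∈ s₀ then μ else 0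
      let s₁ : Finset V := s₀.filter (fun v => θ v ≠ μ)
      have hs₁ : s₁ ⊂ s₀ := by
        refine Finset.filter_ssubset.2 ⟨v0, hv0, by simp [μ]⟩
      have hθ' : ∀ v, 0 ≤ θ' v := by
        intro v
        simp only [θ']
        split_ifs with h
        · have := hmin v h
          linarith
        · simpa using h0 v
      have hsupp' : ∀ v, θ' v ≠ 0 ↔ v ∈ s₁ := by
        intro v
        simp only [θ', s₁, Finset.mem_filter]
        constructor
        · intro h
          by_cases hv : v ∈ s₀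
          · rw [if_pos hv] at h
            exact ⟨hv, fun h2 => h (by rw [h2, sub_self])⟩
          · rw [if_neg hv] at h
            exact absurd (by simpa using h) (fun h2 => hv ((hsupp v).1 h2))
        · rintro ⟨h1, h2⟩
          rw [if_pos h1]
          exact sub_ne_zero.2 h2
      obtain ⟨X', c', hX0, hc', hX', hcs, hphi⟩ := ih s₁.card (by
        rw [← hcard]; exact Finset.card_lt_card hs₁) θ' s₁ hθ' (K.down hs₀ hs₁.1) hsupp' rfl
      have hns : s₀ ∉ c' := fun h => hs₁.2 (hcs s₀ h)
      refine ⟨fun s => X' s + if s = s₀ then μ else 0, insert s₀ c', ?_, ⟨?_, ?_⟩, ?_, ?_, ?_⟩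
      · intro s
        have := hX0 s
        simp only
        split_ifs <;> linarith
      · intro s hs
        rcases Finset.mem_insert.1 hs with rfl | hs
        · exact ⟨hne, hs₀⟩
        · exact hc'.1 s hs
      · intro s hs t ht
        rcases Finset.mem_insert.1 hs with hs' | hs' <;>
          rcases Finset.mem_insert.1 ht with ht' | ht'
        · exact Or.inl (by rw [hs', ht'])
        · exact Or.inr (by rw [hs']; exact (hcs t ht').trans hs₁.1)
        · exact Or.inl (by rw [ht']; exact (hcs s hs').trans hs₁.1)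
        · exact hc'.2 s hs' t ht'
      · intro s hs
        rw [Finset.mem_insert, not_or] at hs
        simp only [if_neg hs.1, add_zero]
        exact hX' s hs.2
      · intro s hs
        rcases Finset.mem_insert.1 hs with rfl | hs
        · exact subset_rfl
        · exact (hcs s hs).trans hs₁.1
      · funext v
        have h1 : phi hK X' v = θ' v := congrFun hphi v
        have h2 : phi hK (fun s => X' s + if s = s₀ then μ else 0) v
            = phi hK X' v + if v ∈ s₀ then μ else 0 := by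
          unfold phi
          rw [Finset.sum_add_distrib, Finset.sum_ite_eq']
          congr 1
          simp only [Set.Finite.mem_toFinset, Set.mem_ofPred_eq]
          by_cases hv : v ∈ s₀
          · rw [if_pos hv, if_pos ⟨hs₀, hv⟩]
          · rw [if_neg hv, if_neg (fun h => hv h.2)]
        rw [h2, h1]
        simp only [θ']
        ring

open Classical in
lemma cone_support {θ : V → ℝ} (hθ : θ ∈ K.cone) :
    ∃ s₀ ∈ K.faces, s₀.Nonempty ∧ ∀ v, θ v ≠ 0 ↔ v ∈ s₀ := by
  obtain ⟨h0, hne, s, hs, hsupp⟩ := hθ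
  refine ⟨s.filter (fun v => θ v ≠ 0), K.down hs (Finset.filter_subset _ _), ?_, fun v => ?_⟩
  · obtain ⟨v, hv⟩ := Function.ne_iff.1 hne
    refine ⟨v, Finset.mem_filter.2 ⟨?_, hv⟩⟩
    by_contra h
    exact hv (hsupp v h)
  · rw [Finset.mem_filter]
    refine ⟨fun h => ⟨?_, h⟩, fun h => h.2⟩
    by_contra h2
    exact h (hsupp v h2)

open Classical in
lemma phi_mem_cone (hK : K.LocFin) {X : Finset V → ℝ} (hXc : X ∈ K.sd.cone) :
    phi hK X ∈ K.cone := by
  obtain ⟨h0, hne, c, hc, hX⟩ := hXc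
  refine ⟨phi_nonneg hK h0, fun h => hne ?_, ?_⟩
  · have h1 := psi_phi hK h0 hc hX
    rw [h] at h1
    have h2 : psi hK (0 : V → ℝ) = 0 := by
      funext s
      unfold psi
      refine max_eq_left ?_
      have h3 : mn (0 : V → ℝ) s = 0 := by
        unfold mn
        split_ifs with h4
        · refine le_antisymm ?_ ?_
          · obtain ⟨v, hv⟩ := h4
            exact Finset.inf'_le _ hv
          · exact Finset.le_inf' _ _ fun v _ => le_rfl
        · rfl
      have h4 := mx_nonneg (θ := (0 : V → ℝ)) (fun _ => le_rfl) (nb hK s \ s)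
      rw [h3]
      linarith
    rw [h2] at h1
    exact h1.symm
  · rcases c.eq_empty_or_nonempty with rfl | hcne
    · exfalso
      apply hne
      funext s
      exact hX s (by simp)
    · obtain ⟨t, ht, hmax⟩ := Finset.exists_max_image c (fun t => t.card) hcne
      refine ⟨t, (hc.1 t ht).2, fun v hv => ?_⟩
      rw [phi_eq hK hc hX, Finset.sum_eq_zero]
      intro s hs
      rw [Finset.mem_filter] at hs
      exfalso
      rcases hc.2 s hs.1 t ht with h | h
      · exact hv (h hs.2)
      · rw [Finset.eq_of_subset_of_card_le h (hmax s hs.1)] at hv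
        exact hv hs.2

lemma psi_mem_cone (hK : K.LocFin) {θ : V → ℝ} (hθ : θ ∈ K.cone) :
    psi hK θ ∈ K.sd.cone ∧ phi hK (psi hK θ) = θ := by
  obtain ⟨s₀, hs₀, hne, hsupp⟩ := cone_support hθ
  obtain ⟨X, c, h0, hc, hX, _, hphi⟩ := exists_phi hK _ θ s₀ hθ.1 hs₀ hsupp rfl
  have h1 := psi_phi hK h0 hc hX
  rw [hphi] at h1
  rw [h1]
  refine ⟨⟨h0, fun h => ?_, c, hc, hX⟩, hphi⟩
  rw [h] at hphi
  obtain ⟨v, hv⟩ := hne
  apply (hsupp v).2 hv
  rw [← hphi]
  simp [phi]

/-- The cone of the subdivision is homeomorphic to the cone. -/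
noncomputable def SC.sdHomeo (K : SC V) (hK : K.LocFin) : K.sd.cone ≃ₜ K.cone where
  toFun X := ⟨phi hK X.1, phi_mem_cone hK X.2⟩
  invFun θ := ⟨psi hK θ.1, (psi_mem_cone hK θ.2).1⟩
  left_inv X := by
    obtain ⟨h0, hne, c, hc, hX⟩ := X.2
    exact Subtype.ext (psi_phi hK h0 hc hX)
  right_inv θ := Subtype.ext (psi_mem_cone hK θ.2).2
  continuous_toFun := ((continuous_phi hK).comp continuous_subtype_val).subtype_mk _
  continuous_invFun := ((continuous_psi hK).comp continuous_subtype_val).subtype_mk _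

lemma SC.sdHomeo_apply (K : SC V) (hK : K.LocFin) (X : K.sd.cone) :
    (K.sdHomeo hK X).1 = phi hK X.1 := rfl

end Pool.Agent.Helper82.Circ
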