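import Mathlib

/-!
A contractible space deformation retracts onto a contractible closed subspace
with a good neighbourhood.
-/

open Topology Set

namespace Pool.Agent.Helper82.Circ

/-- A contraction of a contractible space, parametrised by `ℝ`. -/
lemma exists_contraction (X : Type*) [TopologicalSpace X] [ContractibleSpace X] :
    ∃ (x₀ : X) (c : ℝ × X → X), Continuous c ∧ (∀ s x, s ≤ 0 → c (s, x) = x) ∧
      ∀ s x, 1 ≤ s → c (s, x) = x₀ := by
  obtain ⟨x₀, ⟨H⟩⟩ := id_nullhomotopic X
  refine ⟨x₀, fun p => H (Set.projIcc (0 : ℝ) 1 zero_le_one p.1, p.2), ?_, ?_, ?_⟩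
  · have := H.continuous
    have h2 : Continuous (Set.projIcc (0 : ℝ) 1 zero_le_one) := continuous_projIcc
    fun_prop
  · intro s x hs
    simp only [Set.projIcc_of_le_left zero_le_one hs]
    exact H.map_zero_left x
  · intro s x hs
    simp only [Set.projIcc_of_right_le zero_le_one hs]
    exact H.map_one_left x

/-- clamp to `[0,1]` -/
noncomputable def cl (s : ℝ) : ℝ := max 0 (min 1 s)

lemma continuous_cl : Continuous cl := by
  unfold cl
  fun_prop

lemma cl_of_le {s : ℝ} (h : s ≤ 0) : cl s = 0 := by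
  unfold cl
  exact max_eq_left ((min_le_right _ _).trans h)

lemma cl_of_ge {s : ℝ} (h : 1 ≤ s) : cl s = 1 := by
  unfold cl
  rw [min_eq_left h]
  exact max_eq_right zero_le_one

lemma cl_mem (s : ℝ) : cl s ∈ Icc (0 : ℝ) 1 :=
  ⟨le_max_left _ _, max_le zero_le_one (min_le_left _ _)⟩

lemma cl_of_mem {s : ℝ} (h : s ∈ Icc (0 : ℝ) 1) : cl s = s := by
  unfold cl
  rw [min_eq_right h.2]
  exact max_eq_right h.1

theorem exists_sdr {X : Type*} [TopologicalSpace X] [ContractibleSpace X] (A : Set X)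
    [ContractibleSpace A] (φ : X → ℝ) (hφ : Continuous φ) (hA : ∀ x, x ∈ A ↔ φ x = 1)
    (η : ℝ × X → X) (hη : ContinuousOn η {p | 0 < φ p.2})
    (η0 : ∀ x, 0 < φ x → η (0, x) = x) (η1 : ∀ x, 0 < φ x → η (1, x) ∈ A)
    (ηA : ∀ x ∈ A, ∀ s ∈ Icc (0 : ℝ) 1, η (s, x) = x)
    (ηη : ∀ x, 0 < φ x → ∀ s ∈ Icc (0 : ℝ) 1, η (1, η (s, x)) = η (1, x))
    (ηφ : ∀ x, 0 < φ x → ∀ s ∈ Icc (0 : ℝ) 1, φ x ≤ φ (η (s, x))) :
    ∃ G : ℝ × X → X, Continuous G ∧ (∀ x, G (0, x) = x) ∧ (∀ x, G (1, x) ∈ A) ∧
      ∀ x ∈ A, ∀ t, G (t, x) = x := by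
  classical
  obtain ⟨x₀, c, hc, hc0, hc1⟩ := exists_contraction X
  obtain ⟨a₀, cA, hcA, hcA0, hcA1⟩ := exists_contraction A
  -- the retraction
  have hA' : ∀ x, 0 < φ x → η (1, x) ∈ A := η1
  let ρ : X → A := fun x => if h : 0 < φ x then ⟨η (1, x), η1 x h⟩ else a₀
  have hρ : ContinuousOn ρ {x | 0 < φ x} := by
    rw [Topology.IsInducing.subtypeVal.continuousOn_iff]
    have h1 : ContinuousOn (fun x => η (1, x)) {x | 0 < φ x} :=
      hη.comp (by fun_prop) fun x hx => hx
    refine h1.congr fun x hx => ?_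
    simp only [Function.comp, ρ, dif_pos (show 0 < φ x from hx)]
  have hρv : ∀ x, 0 < φ x → (ρ x : X) = η (1, x) := by
    intro x hx
    simp only [ρ, dif_pos hx]
  let r : X → X := fun x => if 1 / 8 ≤ φ x then (cA (2 - 4 * φ x, ρ x) : X) else a₀
  have hr : Continuous r := by
    have hcl : closure {x | 1 / 8 ≤ φ x} ⊆ {x | 0 < φ x} := by
      rw [(isClosed_le continuous_const hφ).closure_eq]
      intro x hx
      have : (1 : ℝ) / 8 ≤ φ x := hx
      show 0 < φ x
      linarith
    refine continuous_if ?_ ?_ continuousOn_const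
    · intro x hx
      have h1 : φ x = 1 / 8 := (frontier_le_subset_eq continuous_const hφ hx).symm
      rw [hcA1 _ _ (by rw [h1]; norm_num)]
    · refine continuous_subtype_val.comp_continuousOn (hcA.comp_continuousOn ?_)
      exact ContinuousOn.prodMk (by fun_prop) (hρ.mono hcl)
  have hrA : ∀ x, r x ∈ A := by
    intro x
    simp only [r]
    split_ifs
    · exact (cA _).2
    · exact a₀.2
  have hr1 : ∀ x, 1 / 2 ≤ φ x → r x = η (1, x) := by
    intro x hx
    simp only [r]
    rw [if_pos (by linarith), hcA0 _ _ (by linarith), hρv x (by linarith)]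
  have hrA2 : ∀ a ∈ A, r a = a := by
    intro a ha
    have h1 := (hA a).1 ha
    rw [hr1 a (by linarith), ηA a ha 1 ⟨zero_le_one, le_rfl⟩]
  -- homotopy from id to r
  let K : ℝ × X → X := fun p => if p.1 ≤ 1 / 2 then c (2 * p.1, p.2) else c (2 - 2 * p.1, r p.2)
  have hK : Continuous K := by
    refine Continuous.if_le (by fun_prop) (by fun_prop) continuous_fst continuous_const ?_
    intro p hp
    rw [hc1 _ _ (by rw [hp]; norm_num), hc1 _ _ (by rw [hp]; norm_num)]
  have hK0 : ∀ x, K (0, x) = x := by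
    intro x
    simp only [K]
    rw [if_pos (by norm_num), hc0 _ _ (by norm_num)]
  have hK1 : ∀ x, K (1, x) = r x := by
    intro x
    simp only [K]
    rw [if_neg (by norm_num), hc0 _ _ (by norm_num)]
  let lam : X → ℝ := fun x => cl ((7 / 8 - φ x) * 4)
  have hlam : Continuous lam := continuous_cl.comp (by fun_prop)
  have hlam1 : ∀ x, φ x ≤ 5 / 8 → lam x = 1 := fun x hx => cl_of_ge (by linarith)
  have hlam0 : ∀ x ∈ A, lam x = 0 := fun x hx => cl_of_le (by rw [(hA x).1 hx]; norm_num)
  -- phase 2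
  let P : ℝ × X → X := fun p => if 1 / 2 ≤ φ p.2 then K (lam p.2, η (cl p.1, p.2)) else r p.2
  have hP : Continuous P := by
    have hcl : closure {p : ℝ × X | 1 / 2 ≤ φ p.2} ⊆ {p | 1 / 2 ≤ φ p.2} := by
      have h9 : IsClosed {p : ℝ × X | 1 / 2 ≤ φ p.2} :=
        isClosed_le continuous_const (hφ.comp continuous_snd)
      rw [h9.closure_eq]
    refine continuous_if ?_ ?_ (hr.comp continuous_snd).continuousOn
    · intro p hp
      have h1 : φ p.2 = 1 / 2 :=
        (frontier_le_subset_eq continuous_const (hφ.comp continuous_snd) hp).symm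
      have h0 : 0 < φ p.2 := by rw [h1]; norm_num
      rw [hlam1 _ (by rw [h1]; norm_num), hK1, hr1, hr1, ηη _ h0 _ (cl_mem _)]
      · rw [h1]
      · rw [← h1]
        exact ηφ _ h0 _ (cl_mem _)
    · refine hK.comp_continuousOn (ContinuousOn.prodMk (hlam.comp continuous_snd).continuousOn ?_)
      have h3 : MapsTo (fun p : ℝ × X => (cl p.1, p.2)) (closure {p : ℝ × X | 1 / 2 ≤ φ p.2})
          {p | 0 < φ p.2} := by
        intro p hp
        have : 1 / 2 ≤ φ p.2 := hcl hp
        show 0 < φ p.2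
        linarith
      exact hη.comp ((continuous_cl.comp continuous_fst).prodMk continuous_snd).continuousOn h3
  have hP0 : ∀ x, P (0, x) = K (lam x, x) := by
    intro x
    simp only [P]
    split_ifs with h
    · rw [cl_of_le le_rfl, η0 x (by linarith)]
    · rw [hlam1 x (by linarith), hK1]
  have hP1 : ∀ x, P (1, x) = K (lam x, r x) := by
    intro x
    simp only [P]
    split_ifs with h
    · rw [cl_of_ge le_rfl, hr1 x h]
    · rw [hlam1 x (by linarith), hK1, hrA2 _ (hrA x)]
  let G : ℝ × X → X := fun p =>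
    if p.1 ≤ 1 / 3 then K (3 * p.1 * lam p.2, p.2)
    else if p.1 ≤ 2 / 3 then P (3 * p.1 - 1, p.2) else K ((3 - 3 * p.1) * lam p.2, r p.2)
  refine ⟨G, ?_, ?_, ?_, ?_⟩
  · refine Continuous.if_le (hK.comp (by fun_prop)) ?_ continuous_fst continuous_const ?_
    · refine Continuous.if_le (hP.comp (by fun_prop)) (hK.comp (by fun_prop)) continuous_fst
        continuous_const ?_
      intro p hp
      rw [hp]
      norm_num
      exact hP1 p.2
    · intro p hp
      rw [if_pos (by rw [hp]; norm_num), hp]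
      norm_num
      exact (hP0 p.2).symm
  · intro x
    simp only [G]
    rw [if_pos (by norm_num)]
    simpa using hK0 x
  · intro x
    simp only [G]
    rw [if_neg (by norm_num), if_neg (by norm_num)]
    norm_num
    rw [hK0]
    exact hrA x
  · intro x hx t
    simp only [G]
    rw [hlam0 x hx]
    split_ifs with h1 h2
    · simpa using hK0 x
    · simp only [P]
      rw [if_pos (by rw [(hA x).1 hx]; norm_num), hlam0 x hx, ηA x hx _ (cl_mem _), hK0]
    · rw [mul_zero, hK0, hrA2 x hx]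

end Pool.Agent.Helper82.Circ
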