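import Mathlib

/-!
Abstract simplicial complexes as down-closed families of finite sets, and their cones.
-/

open Topology

namespace Pool.Agent.Helper82.Circ

/-- A simplicial complex with vertices in `V`: a down-closed family of finite sets. -/
structure SC (V : Type*) where
  faces : Set (Finset V)
  down : ∀ {s t : Finset V}, s ∈ faces → t ⊆ s → t ∈ faces

/-- The open cone: nonzero nonnegative functions supported on a face. -/
def SC.cone {V : Type*} (K : SC V) : Set (V → ℝ) :=
  {θ | (∀ v, 0 ≤ θ v) ∧ θ ≠ 0 ∧ ∃ s ∈ K.faces, ∀ v ∉ s, θ v = 0}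

/-- Every vertex lies in finitely many faces. -/
def SC.LocFin {V : Type*} (K : SC V) : Prop := ∀ v, {s ∈ K.faces | v ∈ s}.Finite

end Pool.Agent.Helper82.Circ
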