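import Mathlib

/-!
Definitions used in the statement about free circle actions on finite covers
of closed aspherical manifolds (MP_2f0aff_gt).
-/

open Topology Manifold

namespace Pool.Agent.Helper82.Circ

/-- An open partial homeomorphism of `ℝⁿ` which, at a dense set of points of its source, is
differentiable with positive Jacobian determinant (so it preserves the orientation). -/
def OrientationPreserving {n : ℕ} (h : OpenPartialHomeomorph (EuclideanSpace ℝ (Fin n))
    (EuclideanSpace ℝ (Fin n))) : Prop :=
  ∀ x ∈ h.source, ∀ V ∈ 𝓝 x, ∃ y ∈ V ∩ h.source, DifferentiableAt ℝ h y ∧ 0 < (fderiv ℝ h y).det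

/-- All coordinate changes of the atlas preserve the orientation. -/
def OrientedAtlas (n : ℕ) (M : Type) [TopologicalSpace M]
    [ChartedSpace (EuclideanSpace ℝ (Fin n)) M] : Prop :=
  ∀ e ∈ atlas (EuclideanSpace ℝ (Fin n)) M, ∀ e' ∈ atlas (EuclideanSpace ℝ (Fin n)) M,
    OrientationPreserving (e.symm ≫ₕ e')

/-- `M` has a contractible covering space (its universal cover). -/
def Aspherical (M : Type) [TopologicalSpace M] : Prop :=
  ∃ (U : Type) (_ : TopologicalSpace U) (p : U → M),
    ContractibleSpace U ∧ IsCoveringMap p ∧ Function.Surjective p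

/-- The orbit loop `t ↦ e^{2πit} • x`. -/
noncomputable def orbitLoop {N : Type} [TopologicalSpace N] [MulAction Circle N]
    [ContinuousSMul Circle N] (x : N) : Path x x where
  toFun t := Circle.exp (2 * Real.pi * t) • x
  continuous_toFun := by fun_prop
  source' := by simp
  target' := by simp

/-- `m` lies in `M`, `g ∈ π₁(M, m)`; no free circle action on a connected finite covering of `M`
has an orbit representing `g`. -/
def NotRealised (M : Type) [TopologicalSpace M] (m : M) (g : FundamentalGroup M m) : Prop :=
  ∀ (N : Type) [TopologicalSpace N] [ConnectedSpace N] [MulAction Circle N]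
    [ContinuousSMul Circle N] (q : N → M) (hq : IsCoveringMap q),
    (∀ y, (q ⁻¹' {y}).Finite) → (∀ (c : Circle) (x : N), c • x = x → c = 1) →
    ∀ (x : N) (hx : q x = m),
      FundamentalGroup.fromPath (Path.Homotopic.Quotient.mk
        (((orbitLoop x).map hq.continuous).cast hx.symm hx.symm)) ≠ g

end Pool.Agent.Helper82.Circ
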