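import Pool.Agent.Helper82.Circ.Cpt

/-!
Deformation retractions of the chamber onto unions of mirrors.
-/

open Topology Set Function

namespace Pool.Agent.Helper82.Circ

set_option linter.unusedSectionVars false

variable {E R B T : Type} [Group E] [PartialOrder R] [MulAction E R] [Fintype B]
  {D : CD R} {d : R → B → ℝ} {τ : R → T} {z : E} (h : MDz E R B T D d τ z)

theorem contractible_CH : ContractibleSpace (CH h) := by
  have := h.contr
  exact CD.contractible_Ch (D := D)

theorem exists_sdr_CH (T' : Finset (SS h)) (hT : T'.Nonempty)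
    (hcl : ∀ s ∈ T', ∀ s' ∈ T', s ≠ s' → cm h s s') :
    ∃ G : ℝ × CH h → CH h, Continuous G ∧ (∀ y, G (0, y) = y) ∧
      (∀ y, ∃ s ∈ T', s ∈ (mirs h).mir (G (1, y))) ∧
      ∀ y, (∃ s ∈ T', s ∈ (mirs h).mir y) → ∀ t, G (t, y) = y := by
  classical
  have h1 : ContractibleSpace D.Ch := contractible_CH h
  obtain ⟨G, hG, hG0, hG1, hG2⟩ := CD.exists_sdr_Ch (D := D) (T := T'.image SS.val)
    (hT.image _) (fun s hs => by
      obtain ⟨t, _, rfl⟩ := Finset.mem_image.1 hs
      exact t.prop) (fun s hs s' hs' => by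
      obtain ⟨t, ht, rfl⟩ := Finset.mem_image.1 hs
      obtain ⟨t', ht', rfl⟩ := Finset.mem_image.1 hs'
      by_cases htt : t = t'
      · rw [htt]
        exact Or.inl le_rfl
      · exact (hcl t ht t' ht' htt).2)
  refine ⟨G, hG, hG0, fun y => ?_, fun y hy t => ?_⟩
  · obtain ⟨s, hs, hs2⟩ := hG1 y
    obtain ⟨t, ht, rfl⟩ := Finset.mem_image.1 hs
    exact ⟨t, ht, t.prop, hs2⟩
  · refine hG2 y ?_ t
    obtain ⟨s, hs, hs2⟩ := hy
    exact ⟨s.val, Finset.mem_image_of_mem _ hs, hs2.2⟩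

end Pool.Agent.Helper82.Circ
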