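import Pool.Agent.Helper82.Circ.Orient
import Pool.Agent.Helper82.Circ.Contr
import Pool.Agent.Helper82.Circ.Defs
import Pool.Agent.Helper35.CircCh.Main

/-!
The oriented atlas of the quotient.
-/

open Topology Set Function Manifold

namespace Pool.Agent.Helper82.Circ

set_option linter.unusedSectionVars false

variable {E R B T : Type} [Group E] [PartialOrder R] [MulAction E R] [Fintype B]
  {D : CD R} {d : R → B → ℝ} {τ : R → T} {z : E} (h : MDz E R B T D d τ z)

include h in
lemma nonempty_Kp : ∃ k, k ∈ D.Kp := by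
  have := h.contr
  obtain ⟨X⟩ := (inferInstance : Nonempty D.YK)
  obtain ⟨k, hk, _⟩ := X.2.1.2.2
  exact ⟨k, hk⟩

include h in
lemma nonempty_B : Nonempty B := by
  by_contra hB
  rw [not_nonempty_iff] at hB
  have := h.contr
  obtain ⟨X⟩ := (inferInstance : Nonempty D.YK)
  obtain ⟨k, hk, hk0⟩ := X.2.1.2.2
  have h2 : (fun r => 2 * X.1 r) ∈ D.Y := const_mul_mem_Y two_pos X.2.1
  have h3 := (h.emb k hk).injective (a₁ := ⟨fun r => 2 * X.1 r, h2, mul_ne_zero two_ne_zero hk0⟩)
    (a₂ := ⟨X.1, X.2.1, hk0⟩) (Subsingleton.elim _ _)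
  have h4 : 2 * X.1 k = X.1 k := congrFun (congrArg Subtype.val h3) k
  exact hk0 (by linarith)

/-- a reflection -/
noncomputable def refB [Nonempty B] : (B → ℝ) →ₗ[ℝ] (B → ℝ) := by
  classical
  exact LinearMap.transvection ((-2 : ℝ) • LinearMap.proj (Classical.arbitrary B))
    (Pi.single (Classical.arbitrary B) (1 : ℝ))

lemma det_refB [Nonempty B] : LinearMap.det (refB (B := B)) = -1 := by
  classical
  unfold refB
  rw [LinearMap.transvection.det]
  simp
  norm_num

lemma refB_refB [Nonempty B] (x : B → ℝ) : refB (refB x) = x := by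
  classical
  unfold refB
  simp only [LinearMap.transvection.apply, LinearMap.smul_apply, LinearMap.proj_apply,
    Pi.add_apply, Pi.smul_apply, Pi.single_eq_same, smul_eq_mul]
  rw [add_assoc, ← add_smul]
  have : -2 * x (Classical.arbitrary B) + -2 * (x (Classical.arbitrary B) +
      -2 * x (Classical.arbitrary B) * 1) = 0 := by ring
  rw [this, zero_smul, add_zero]

/-- the reflection as an equivalence -/
noncomputable def refE [Nonempty B] : (B → ℝ) ≃ₗ[ℝ] (B → ℝ) :=
  LinearEquiv.ofInvolutive refB refB_refB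

variable (B) in
/-- identification of the model spaces -/
noncomputable def modE : (B → ℝ) ≃L[ℝ] EuclideanSpace ℝ (Fin (Fintype.card B)) :=
  ContinuousLinearEquiv.ofFinrankEq (by simp)

open Classical in
/-- identity or reflection -/
noncomputable def sE [Nonempty B] (s : ℝ) : (B → ℝ) ≃L[ℝ] (B → ℝ) :=
  if s = 1 then ContinuousLinearEquiv.refl ℝ _ else (refE (B := B)).toContinuousLinearEquiv

lemma det_sE [Nonempty B] {s : ℝ} (hs : s = 1 ∨ s = -1) :
    LinearMap.det ((sE (B := B) s).toContinuousLinearMap : (B → ℝ) →ₗ[ℝ] (B → ℝ)) = s := by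
  unfold sE
  rcases hs with rfl | rfl
  · rw [if_pos rfl]
    exact LinearMap.det_id
  · rw [if_neg (by norm_num)]
    exact det_refB

lemma det_sE_symm [Nonempty B] {s : ℝ} (hs : s = 1 ∨ s = -1) :
    LinearMap.det ((sE (B := B) s).symm.toContinuousLinearMap : (B → ℝ) →ₗ[ℝ] (B → ℝ)) = s := by
  unfold sE
  rcases hs with rfl | rfl
  · rw [if_pos rfl]
    exact LinearMap.det_id
  · rw [if_neg (by norm_num)]
    exact det_refB

/-- identification of the model spaces with a sign -/
noncomputable def modS [Nonempty B] (s : ℝ) :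
    (B → ℝ) ≃L[ℝ] EuclideanSpace ℝ (Fin (Fintype.card B)) := (sE s).trans (modE B)

lemma det_modS [Nonempty B] {s s' : ℝ} (hs : s = 1 ∨ s = -1) (hs' : s' = 1 ∨ s' = -1)
    (L : (B → ℝ) →L[ℝ] (B → ℝ)) (hL : 0 < s * s' * LinearMap.det (L : (B → ℝ) →ₗ[ℝ] (B → ℝ))) :
    0 < (((modS (B := B) s').toContinuousLinearMap).comp (L.comp
      ((modS (B := B) s).symm.toContinuousLinearMap))).det := by
  have key : (((modS (B := B) s').toContinuousLinearMap).comp (L.comp
      ((modS (B := B) s).symm.toContinuousLinearMap))).det =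
      LinearMap.det ((sE (B := B) s').toContinuousLinearMap : (B → ℝ) →ₗ[ℝ] (B → ℝ)) *
        (LinearMap.det (L : (B → ℝ) →ₗ[ℝ] (B → ℝ)) *
        LinearMap.det ((sE (B := B) s).symm.toContinuousLinearMap : (B → ℝ) →ₗ[ℝ] (B → ℝ))) := by
    rw [← LinearMap.det_comp, ← LinearMap.det_comp,
      ← LinearMap.det_conj _ (modE B).toLinearEquiv]
    rfl
  rw [key, det_sE hs', det_sE_symm hs]
  linarith

/-- a chart of the unfolded space -/
noncomputable def chU (u : UU h) : OpenPartialHomeomorph (UU h) (B → ℝ) :=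
  (Helper35.CircCh.exists_chart h u).choose

/-- its group element -/
noncomputable def chW (u : UU h) : WW h :=
  (Helper35.CircCh.exists_chart h u).choose_spec.choose

/-- its vertex -/
noncomputable def chK (u : UU h) : R :=
  (Helper35.CircCh.exists_chart h u).choose_spec.choose_spec.choose

lemma mem_chU (u : UU h) : u ∈ (chU h u).source :=
  (Helper35.CircCh.exists_chart h u).choose_spec.choose_spec.choose_spec.1

lemma isCh_chU (u : UU h) : IsCh h (chU h u) (chW h u) (chK h u) :=
  (Helper35.CircCh.exists_chart h u).choose_spec.choose_spec.choose_spec.2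

lemma exists_locP (u : UU h) : ∃ e : OpenPartialHomeomorph (UU h) (MM h), u ∈ e.source ∧
    pr h = e := (isQuotientCoveringMap_pr h).isCoveringMap.isLocalHomeomorph u

/-- local inverse branch of the projection -/
noncomputable def locP (u : UU h) : OpenPartialHomeomorph (UU h) (MM h) := (exists_locP h u).choose

lemma mem_locP (u : UU h) : u ∈ (locP h u).source := (exists_locP h u).choose_spec.1

lemma locP_apply (u x : UU h) : locP h u x = pr h x :=
  (congrFun (exists_locP h u).choose_spec.2 x).symm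

/-- the dimension -/
abbrev nn (_ : MDz E R B T D d τ z) : ℕ := Fintype.card B

/-- a chart of the quotient -/
noncomputable def chM (u : UU h) :
    OpenPartialHomeomorph (MM h) (EuclideanSpace ℝ (Fin (Fintype.card B))) :=
  have := nonempty_B h
  (locP h u).symm ≫ₕ (chU h u) ≫ₕ
    (modS (B := B) (sg h (chW h u))).toHomeomorph.toOpenPartialHomeomorph

lemma mem_chM (u : UU h) : pr h u ∈ (chM h u).source := by
  have := nonempty_B h
  unfold chM
  rw [OpenPartialHomeomorph.trans_source, OpenPartialHomeomorph.trans_source]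
  refine ⟨?_, ?_, ?_⟩
  · rw [OpenPartialHomeomorph.symm_source, ← locP_apply h u u]
    exact (locP h u).map_source (mem_locP h u)
  · show (locP h u).symm (pr h u) ∈ (chU h u).source
    rw [← locP_apply h u u, (locP h u).left_inv (mem_locP h u)]
    exact mem_chU h u
  · simp

noncomputable instance : ChartedSpace (EuclideanSpace ℝ (Fin (Fintype.card B))) (MM h) where
  atlas := range (chM h)
  chartAt x := chM h (Quotient.exists_rep x).choose
  mem_chart_source x := by
    have h1 := mem_chM h (Quotient.exists_rep x).choose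
    have h2 : pr h (Quotient.exists_rep x).choose = x := (Quotient.exists_rep x).choose_spec
    rwa [h2] at h1
  chart_mem_atlas x := ⟨_, rfl⟩

lemma mem_chM_source (u : UU h) (x : MM h) : x ∈ (chM h u).source ↔
    x ∈ (locP h u).target ∧ (locP h u).symm x ∈ (chU h u).source := by
  unfold chM
  simp

lemma mem_chM_target (hB : Nonempty B) (u : UU h) (y : B → ℝ) :
    modS (B := B) (sg h (chW h u)) y ∈ (chM h u).target ↔
      y ∈ (chU h u).target ∧ (chU h u).symm y ∈ (locP h u).source := by
  unfold chM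
  simp

lemma chM_symm_apply (hB : Nonempty B) (u : UU h) (y : B → ℝ) :
    (chM h u).symm (modS (B := B) (sg h (chW h u)) y) = pr h ((chU h u).symm y) := by
  rw [← locP_apply h u]
  unfold chM
  simp

lemma chM_apply (_hB : Nonempty B) (u : UU h) (x : MM h) :
    chM h u x = modS (B := B) (sg h (chW h u)) (chU h u ((locP h u).symm x)) := rfl

theorem orientedAtlas : OrientedAtlas (Fintype.card B) (MM h) := by
  have hB := nonempty_B h
  rintro _ ⟨u, rfl⟩ _ ⟨u', rfl⟩ x hx V hV
  set Tr := (chM h u).symm ≫ₕ chM h u' with hTr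
  set Q := modS (B := B) (sg h (chW h u)) with hQ
  set Q' := modS (B := B) (sg h (chW h u')) with hQ'
  have hsrc : ∀ y : B → ℝ, Q y ∈ Tr.source → (y ∈ (chU h u).target ∧
      (chU h u).symm y ∈ (locP h u).source) ∧ (pr h ((chU h u).symm y) ∈ (locP h u').target ∧
      (locP h u').symm (pr h ((chU h u).symm y)) ∈ (chU h u').source) := by
    intro y hy
    rw [hTr, OpenPartialHomeomorph.trans_source] at hy
    refine ⟨(mem_chM_target h hB u y).1 hy.1, ?_⟩
    have h2 : (chM h u).symm (Q y) ∈ (chM h u').source := hy.2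
    rw [hQ, chM_symm_apply h hB u y] at h2
    exact (mem_chM_source h u' _).1 h2
  let V1 : Set (B → ℝ) := {y | Q y ∈ interior V ∩ Tr.source}
  have hV1 : IsOpen V1 := (isOpen_interior.inter Tr.open_source).preimage Q.continuous
  let y1 : B → ℝ := Q.symm x
  have hy1 : y1 ∈ V1 := by
    show Q (Q.symm x) ∈ interior V ∩ Tr.source
    rw [Q.apply_symm_apply]
    exact ⟨mem_interior_iff_mem_nhds.2 hV, hx⟩
  obtain ⟨⟨ha1, ha2⟩, ha3, ha4⟩ := hsrc y1 hy1.2
  set x1 := (chU h u).symm y1 with hx1
  set x2 := (locP h u').symm (pr h x1) with hx2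
  have hpr : pr h x2 = pr h x1 := by
    rw [← locP_apply h u' x2, hx2, (locP h u').right_inv ha3]
  obtain ⟨γ, hγ⟩ := MulAction.orbitRel_apply.1 (Quotient.exact hpr)
  have hγ' : (γ : GG h) • x1 = x2 := hγ
  let V2 : Set (B → ℝ) := {y | y ∈ V1 ∧ (γ : GG h) • (chU h u).symm y ∈
    (locP h u').source ∩ (chU h u').source}
  have hsub1 : V1 ⊆ (chU h u).target := fun y hy => (hsrc y hy.2).1.1
  have hV2 : IsOpen V2 := by
    have hc : ContinuousOn (fun y => (γ : GG h) • (chU h u).symm y) V1 := by
      have h1 := (chU h u).continuousOn_symm.mono hsub1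
      exact (continuous_const_smul (γ : GG h)).comp_continuousOn h1
    exact hc.isOpen_inter_preimage hV1
      ((locP h u').open_source.inter (chU h u').open_source)
  have hne : V2.Nonempty := by
    refine ⟨y1, hy1, ?_⟩
    show (γ : GG h) • x1 ∈ _
    rw [hγ']
    exact ⟨(locP h u').map_target ha3, ha4⟩
  obtain ⟨y, hy, L, hL, hdet⟩ := transition (isCh_chU h u) (isCh_chU h u') γ.2 hV2 hne
    (fun y hy => ⟨hsub1 hy.1, hy.2.2⟩)
  have hloc : ∀ y ∈ V2, Tr (Q y) = Q' (chU h u' ((γ : GG h) • (chU h u).symm y)) := by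
    intro y hy
    show chM h u' ((chM h u).symm (Q y)) = _
    rw [hQ, chM_symm_apply h hB u y, chM_apply h hB u']
    have h1 : pr h ((chU h u).symm y) = pr h ((γ : GG h) • (chU h u).symm y) :=
      Quotient.sound (s := MulAction.orbitRel (Gam h) (UU h))
        (MulAction.orbitRel_apply.2 ⟨γ⁻¹, inv_smul_smul γ ((chU h u).symm y)⟩)
    rw [h1, ← locP_apply h u', (locP h u').left_inv hy.2.1]
  have hder : HasFDerivAt Tr ((Q'.toContinuousLinearMap).comp
      (L.comp Q.symm.toContinuousLinearMap)) (Q y) := by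
    have h1 : HasFDerivAt (fun x => Q' (chU h u' ((γ : GG h) • (chU h u).symm (Q.symm x))))
        ((Q'.toContinuousLinearMap).comp (L.comp Q.symm.toContinuousLinearMap)) (Q y) := by
      have h2 : HasFDerivAt (fun x => Q.symm x) Q.symm.toContinuousLinearMap (Q y) :=
        Q.symm.toContinuousLinearMap.hasFDerivAt
      have h3 : HasFDerivAt (fun y => chU h u' ((γ : GG h) • (chU h u).symm y)) L
          (Q.symm (Q y)) := by
        rw [Q.symm_apply_apply]
        exact hL
      exact Q'.toContinuousLinearMap.hasFDerivAt.comp (Q y) (HasFDerivAt.comp (Q y) h3 h2)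
    refine h1.congr_of_eventuallyEq ?_
    have h4 : ∀ᶠ x in 𝓝 (Q y), Q.symm x ∈ V2 := by
      have : (fun x => Q.symm x) ⁻¹' V2 ∈ 𝓝 (Q y) := by
        refine (hV2.preimage Q.symm.continuous).mem_nhds ?_
        show Q.symm (Q y) ∈ V2
        rw [Q.symm_apply_apply]
        exact hy
      exact this
    filter_upwards [h4] with x hx
    rw [← hloc _ hx, Q.apply_symm_apply]
  refine ⟨Q y, ⟨interior_subset hy.1.1, hy.1.2⟩, hder.differentiableAt, ?_⟩
  rw [hder.fderiv]
  exact det_modS (sg_ne h _) (sg_ne h _) L hdet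

end Pool.Agent.Helper82.Circ
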