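import Pool.Agent.Helper82.Circ.Sd

/-!
The boundary of a simplex and its second barycentric subdivision: the cone is `ℝⁿ` minus a point.
-/

open Topology Set Finset

namespace Pool.Agent.Helper82.Circ

set_option linter.unusedSectionVars false

variable {B : Type} [Fintype B] [DecidableEq B]

/-- boundary of the simplex with vertex set `Option B` -/
def bdry (B : Type) [Fintype B] : SC (Option B) where
  faces := {s | s ≠ Finset.univ}
  down := fun {s t} hs ht h => hs (by
    rw [h] at ht
    exact Finset.univ_subset_iff.1 ht)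

lemma locFin_of_fintype {V : Type*} [Finite V] (K : SC V) : K.LocFin := by
  classical
  intro v
  haveI := Fintype.ofFinite V
  exact Set.toFinite _

/-- the linear map `θ ↦ (θ b - θ none)` -/
def diffMap (θ : Option B → ℝ) : B → ℝ := fun b => θ (some b) - θ none

lemma continuous_diffMap : Continuous (diffMap (B := B)) := by
  unfold diffMap
  fun_prop

open Classical in
/-- minimum of `0` and the values -/
noncomputable def low (u : B → ℝ) : ℝ := Finset.univ.inf' (Finset.univ_nonempty (α := Option B))
  (fun o => o.elim 0 u)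

lemma continuous_low : Continuous (low (B := B)) := by
  unfold low
  refine Continuous.finset_inf'_apply _ fun i _ => ?_
  cases i with
  | none => exact continuous_const
  | some b => exact continuous_apply b

lemma low_le_zero (u : B → ℝ) : low u ≤ 0 :=
  Finset.inf'_le (fun o : Option B => o.elim 0 u) (Finset.mem_univ none)

lemma low_le (u : B → ℝ) (b : B) : low u ≤ u b :=
  Finset.inf'_le (fun o : Option B => o.elim 0 u) (Finset.mem_univ (some b))

lemma exists_low (u : B → ℝ) : low u = 0 ∨ ∃ b, low u = u b := by
  obtain ⟨o, _, ho⟩ := Finset.exists_mem_eq_inf' (Finset.univ_nonempty (α := Option B))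
    (fun o => o.elim 0 u)
  cases o with
  | none => exact Or.inl ho
  | some b => exact Or.inr ⟨b, ho⟩

/-- inverse of `diffMap` -/
noncomputable def undiff (u : B → ℝ) : Option B → ℝ := fun o => o.elim (-low u) (fun b => u b - low u)

lemma continuous_undiff : Continuous (undiff (B := B)) := by
  refine continuous_pi fun o => ?_
  cases o with
  | none => exact continuous_low.neg
  | some b => exact (continuous_apply b).sub continuous_low

lemma diffMap_undiff (u : B → ℝ) : diffMap (undiff u) = u := by
  funext b
  simp [diffMap, undiff]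

lemma low_diffMap {θ : Option B → ℝ} (h0 : ∀ o, 0 ≤ θ o) (hz : ∃ o, θ o = 0) :
    low (diffMap θ) = - θ none := by
  refine le_antisymm ?_ ?_
  · obtain ⟨o, ho⟩ := hz
    cases o with
    | none =>
      rw [ho, neg_zero]
      exact low_le_zero _
    | some b =>
      refine (low_le _ b).trans ?_
      simp [diffMap, ho]
  · unfold low
    refine Finset.le_inf' _ _ fun o _ => ?_
    cases o with
    | none =>
      simp only [Option.elim_none]
      have := h0 none
      linarith
    | some b =>
      simp only [Option.elim_some, diffMap]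
      have := h0 (some b)
      linarith

lemma mem_cone_bdry {θ : Option B → ℝ} :
    θ ∈ (bdry B).cone ↔ (∀ o, 0 ≤ θ o) ∧ θ ≠ 0 ∧ ∃ o, θ o = 0 := by
  classical
  constructor
  · rintro ⟨h0, h1, s, hs, hsupp⟩
    refine ⟨h0, h1, ?_⟩
    by_contra hcon
    push Not at hcon
    apply hs
    ext o
    simp only [Finset.mem_univ, iff_true]
    by_contra ho
    exact hcon o (hsupp o ho)
  · rintro ⟨h0, h1, o, ho⟩
    refine ⟨h0, h1, Finset.univ.erase o, ?_, fun v hv => ?_⟩
    · intro h
      have : o ∈ Finset.univ.erase o := by rw [h]; exact Finset.mem_univ o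
      simp at this
    · have : v = o := by
        by_contra h
        exact hv (Finset.mem_erase.2 ⟨h, Finset.mem_univ v⟩)
      rw [this, ho]

lemma low_zero : low (0 : B → ℝ) = 0 := by
  rcases exists_low (0 : B → ℝ) with h | ⟨b, h⟩
  · exact h
  · simpa using h

lemma diffMap_ne {θ : Option B → ℝ} (hθ : θ ∈ (bdry B).cone) : diffMap θ ≠ 0 := by
  obtain ⟨h0, h1, hz⟩ := mem_cone_bdry.1 hθ
  intro h
  have h2 := low_diffMap h0 hz
  rw [h, low_zero] at h2
  apply h1
  funext o
  cases o with
  | none => simp only [Pi.zero_apply]; linarith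
  | some b =>
    have h4 := congrFun h b
    simp only [diffMap, Pi.zero_apply] at h4 ⊢
    linarith

lemma undiff_mem {u : B → ℝ} (hu : u ≠ 0) : undiff u ∈ (bdry B).cone := by
  refine mem_cone_bdry.2 ⟨fun o => ?_, fun h => hu ?_, ?_⟩
  · cases o with
    | none =>
      simp only [undiff, Option.elim_none]
      have := low_le_zero u
      linarith
    | some b =>
      simp only [undiff, Option.elim_some]
      have := low_le u b
      linarith
  · rw [← diffMap_undiff u, h]
    funext b
    simp [diffMap]
  · rcases exists_low u with h | ⟨b, h⟩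
    · exact ⟨none, by simp [undiff, h]⟩
    · exact ⟨some b, by simp [undiff, h]⟩

lemma undiff_diffMap {θ : Option B → ℝ} (hθ : θ ∈ (bdry B).cone) : undiff (diffMap θ) = θ := by
  obtain ⟨h0, h1, hz⟩ := mem_cone_bdry.1 hθ
  funext o
  cases o with
  | none => simp [undiff, low_diffMap h0 hz]
  | some b => simp [undiff, low_diffMap h0 hz, diffMap]

/-- the cone over the boundary of a simplex -/
noncomputable def bdryHomeo : (bdry B).cone ≃ₜ {u : B → ℝ | u ≠ 0} where
  toFun θ := ⟨diffMap θ.1, diffMap_ne θ.2⟩
  invFun u := ⟨undiff u.1, undiff_mem u.2⟩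
  left_inv θ := Subtype.ext (undiff_diffMap θ.2)
  right_inv u := Subtype.ext (diffMap_undiff u.1)
  continuous_toFun := (continuous_diffMap.comp continuous_subtype_val).subtype_mk _
  continuous_invFun := (continuous_undiff.comp continuous_subtype_val).subtype_mk _

/-- The developing map of the second subdivision. -/
noncomputable def devA (X : Finset (Finset (Option B)) → ℝ) : B → ℝ :=
  diffMap (phi (locFin_of_fintype (bdry B)) (phi (locFin_of_fintype (bdry B).sd) X))

lemma isOpenEmbedding_devA :
    IsOpenEmbedding (fun X : (bdry B).sd.sd.cone => devA X.1) := by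
  have h1 : (fun X : (bdry B).sd.sd.cone => devA X.1) = Subtype.val ∘ (bdryHomeo (B := B)) ∘
      ((bdry B).sdHomeo (locFin_of_fintype (bdry B))) ∘
      ((bdry B).sd.sdHomeo (locFin_of_fintype (bdry B).sd)) := rfl
  rw [h1]
  have ho : IsOpen {u : B → ℝ | u ≠ 0} := isOpen_ne
  exact ho.isOpenEmbedding_subtypeVal.comp ((Homeomorph.isOpenEmbedding _).comp
    ((Homeomorph.isOpenEmbedding _).comp (Homeomorph.isOpenEmbedding _)))

open Classical in
/-- the vector of a chain of subsets -/
noncomputable def vecA (c : Finset (Finset (Option B))) : B → ℝ :=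
  fun b => ∑ I ∈ c, ((if some b ∈ I then (1 : ℝ) else 0) - if none ∈ I then 1 else 0)

open Classical in
lemma devA_eq {X : Finset (Finset (Option B)) → ℝ} (hX : X ∈ (bdry B).sd.sd.cone) :
    devA X = ∑ c, X c • vecA c := by
  classical
  obtain ⟨h0, -, C, hC, hXC⟩ := hX
  have hvalid : ∀ c, X c ≠ 0 → c ∈ (bdry B).sd.faces := fun c hc => by
    by_contra h
    exact hc (hXC c fun h2 => h (hC.1 c h2).2)
  have h1 : ∀ I, phi (locFin_of_fintype (bdry B).sd) X I = ∑ c, if I ∈ c then X c else 0 := by
    intro I
    unfold phi
    rw [← Finset.sum_filter]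
    have : ∀ c ∈ Finset.univ.filter (fun c : Finset (Finset (Option B)) => I ∈ c),
        c ∉ (locFin_of_fintype (bdry B).sd I).toFinset → X c = 0 := by
      intro c hc hc2
      by_contra h
      rw [Set.Finite.mem_toFinset] at hc2
      exact hc2 ⟨hvalid c h, (Finset.mem_filter.1 hc).2⟩
    refine Finset.sum_subset (fun c hc => ?_) this
    rw [Set.Finite.mem_toFinset] at hc
    exact Finset.mem_filter.2 ⟨Finset.mem_univ _, hc.2⟩
  have h2 : ∀ o, phi (locFin_of_fintype (bdry B)) (phi (locFin_of_fintype (bdry B).sd) X) o =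
      ∑ c, X c * ∑ I ∈ c, if o ∈ I then (1 : ℝ) else 0 := by
    intro o
    have h3 : phi (locFin_of_fintype (bdry B)) (phi (locFin_of_fintype (bdry B).sd) X) o =
        ∑ I ∈ (locFin_of_fintype (bdry B) o).toFinset,
          phi (locFin_of_fintype (bdry B).sd) X I := rfl
    rw [h3, Finset.sum_congr rfl fun I _ => h1 I, Finset.sum_comm]
    refine Finset.sum_congr rfl fun c _ => ?_
    by_cases hc : X c = 0
    · simp [hc]
    · have hcv := hvalid c hc
      rw [← Finset.sum_filter, Finset.sum_const, ← Finset.sum_filter, Finset.sum_const,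
        nsmul_eq_mul, nsmul_eq_mul, mul_one, mul_comm]
      congr 2
      refine congrArg Finset.card ?_
      ext I
      simp only [Finset.mem_filter, Set.Finite.mem_toFinset, Set.mem_ofPred_eq]
      constructor
      · rintro ⟨⟨_, h3⟩, h4⟩
        exact ⟨h4, h3⟩
      · rintro ⟨h3, h4⟩
        exact ⟨⟨(hcv.1 I h3).2, h4⟩, h3⟩
  funext b
  simp only [devA, diffMap, h2, Finset.sum_apply, Pi.smul_apply, smul_eq_mul, vecA]
  rw [← Finset.sum_sub_distrib]
  refine Finset.sum_congr rfl fun c _ => ?_
  rw [← mul_sub, ← Finset.sum_sub_distrib]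

end Pool.Agent.Helper82.Circ
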