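import Pool.Agent.Helper82.Circ.Sdr

/-!
Chain supported functions on a poset, and the chamber with its mirrors.
-/

open Topology Set Function

namespace Pool.Agent.Helper82.Circ

/-- A poset with a lower set `Kp` and a retraction onto it. -/
structure CD (R : Type) [PartialOrder R] where
  Kp : Set R
  lower : ∀ {a b : R}, a ≤ b → b ∈ Kp → a ∈ Kp
  fin : ∀ k ∈ Kp, {r : R | r ≤ k ∨ k ≤ r}.Finite
  ρ : R → R
  ρ_mem : ∀ r, ρ r ∈ Kp
  ρ_le : ∀ r, ρ r ≤ r
  le_ρ : ∀ {k r : R}, k ∈ Kp → k ≤ r → k ≤ ρ r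

variable {R : Type} [PartialOrder R] (D : CD R)

namespace CD

/-- chain supported functions, nonzero somewhere on `Kp` -/
def Y : Set (R → ℝ) := {X | (∀ r, 0 ≤ X r) ∧ (∀ r r', X r ≠ 0 → X r' ≠ 0 → r ≤ r' ∨ r' ≤ r) ∧
  ∃ k ∈ D.Kp, X k ≠ 0}

/-- the mass on `Kp` -/
noncomputable def mass (X : R → ℝ) : ℝ := ∑ᶠ r, D.Kp.indicator X r

/-- the chamber -/
def Ch : Set (R → ℝ) := {X | X ∈ D.Y ∧ ∀ r ∉ D.Kp, X r ≤ D.mass X}

/-- the mirrors containing a point -/
def mir (X : R → ℝ) : Set R := {r | r ∉ D.Kp ∧ X r = D.mass X}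

variable {D}

lemma supp_finite {X : R → ℝ} (hX : X ∈ D.Y) : (support X).Finite := by
  obtain ⟨_, h1, k, hk, hk0⟩ := hX
  exact (D.fin k hk).subset fun r hr => h1 r k hr hk0

lemma supp_ind_finite {X : R → ℝ} (hX : X ∈ D.Y) : (support (D.Kp.indicator X)).Finite :=
  (supp_finite hX).subset (by
    rw [support_indicator]
    exact inter_subset_right)

lemma mass_pos {X : R → ℝ} (hX : X ∈ D.Y) : 0 < D.mass X := by
  obtain ⟨k, hk, hk0⟩ := hX.2.2
  unfold mass
  rw [finsum_eq_sum _ (supp_ind_finite hX)]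
  refine Finset.sum_pos' (fun r _ => ?_) ⟨k, ?_, ?_⟩
  · exact indicator_nonneg (fun r _ => hX.1 r) r
  · rw [Set.Finite.mem_toFinset, mem_support, indicator_of_mem hk]
    exact hk0
  · rw [indicator_of_mem hk]
    exact lt_of_le_of_ne (hX.1 k) (Ne.symm hk0)

lemma locallyFinite_supp : LocallyFinite fun r : R => support fun X : D.Y => X.1 r := by
  intro X
  obtain ⟨k, hk, hk0⟩ := X.2.2.2
  refine ⟨{Y | Y.1 k ≠ 0}, ?_, ?_⟩
  · have hc : Continuous fun Y : D.Y => Y.1 k := (continuous_apply k).comp continuous_subtype_val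
    exact (isOpen_ne.preimage hc).mem_nhds hk0
  · refine (D.fin k hk).subset ?_
    rintro r ⟨Z, hZ1, hZ2⟩
    exact Z.2.2.1 r k hZ1 hZ2

lemma continuous_wsum {F : Type*} [AddCommGroup F] [Module ℝ F] [TopologicalSpace F]
    [ContinuousAdd F] [ContinuousSMul ℝ F] (c : R → F) :
    Continuous fun X : D.Y => ∑ᶠ r, X.1 r • c r := by
  refine continuous_finsum (fun r => ?_) ?_
  · exact ((continuous_apply r).comp continuous_subtype_val).smul continuous_const
  · refine locallyFinite_supp.subset fun r => ?_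
    intro X hX
    rw [mem_support] at hX ⊢
    intro h
    exact hX (by rw [h, zero_smul])

lemma mass_eq_wsum (X : R → ℝ) : D.mass X = ∑ᶠ r, X r • D.Kp.indicator (fun _ => (1 : ℝ)) r := by
  unfold mass
  refine finsum_congr fun r => ?_
  by_cases h : r ∈ D.Kp
  · simp [h]
  · simp [h]

lemma continuous_mass : Continuous fun X : D.Y => D.mass X.1 := by
  simp_rw [mass_eq_wsum]
  exact continuous_wsum _

lemma continuous_mass_ch : Continuous fun X : D.Ch => D.mass X.1 := by
  have h : Continuous fun X : D.Ch => (⟨X.1, X.2.1⟩ : D.Y) := by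
    exact continuous_subtype_val.subtype_mk _
  exact continuous_mass.comp h

/-- compatibility: the union of the supports is a chain -/
def Compat (X X' : R → ℝ) : Prop :=
  ∀ r r', (X r ≠ 0 ∨ X' r ≠ 0) → (X r' ≠ 0 ∨ X' r' ≠ 0) → r ≤ r' ∨ r' ≤ r

/-- straight segment -/
def seg (t : ℝ) (X X' : R → ℝ) : R → ℝ := fun r => (1 - t) * X r + t * X' r

lemma seg_mem_Y {X X' : R → ℝ} (hX : X ∈ D.Y) (hX' : X' ∈ D.Y) (hc : Compat X X') {t : ℝ}
    (ht : t ∈ Icc (0 : ℝ) 1) : seg t X X' ∈ D.Y := by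
  obtain ⟨h0, _, k, hk, hk0⟩ := hX
  obtain ⟨h0', _, k', hk', hk0'⟩ := hX'
  have ht1 : 0 ≤ 1 - t := by linarith [ht.2]
  have hne : ∀ r, seg t X X' r ≠ 0 → X r ≠ 0 ∨ X' r ≠ 0 := by
    intro r hr
    by_contra hcon
    push Not at hcon
    apply hr
    simp [seg, hcon.1, hcon.2]
  refine ⟨fun r => add_nonneg (mul_nonneg ht1 (h0 r)) (mul_nonneg ht.1 (h0' r)),
    fun r r' hr hr' => hc r r' (hne r hr) (hne r' hr'), ?_⟩
  rcases eq_or_lt_of_le ht.2 with h1 | h1
  · refine ⟨k', hk', ?_⟩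
    simpa [seg, h1] using hk0'
  · refine ⟨k, hk, ne_of_gt ?_⟩
    have h2 : 0 < (1 - t) * X k := mul_pos (by linarith) (lt_of_le_of_ne (h0 k) (Ne.symm hk0))
    have h3 : 0 ≤ t * X' k := mul_nonneg ht.1 (h0' k)
    show 0 < (1 - t) * X k + t * X' k
    linarith

lemma mass_seg {X X' : R → ℝ} (hX : X ∈ D.Y) (hX' : X' ∈ D.Y) (t : ℝ) :
    D.mass (seg t X X') = (1 - t) * D.mass X + t * D.mass X' := by
  unfold mass
  rw [mul_finsum' _ _ (supp_ind_finite hX), mul_finsum' _ _ (supp_ind_finite hX'),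
    ← finsum_add_distrib]
  · refine finsum_congr fun r => ?_
    by_cases h : r ∈ D.Kp
    · simp [h, seg]
    · simp [h]
  · exact (supp_ind_finite hX).subset fun r hr => by
      rw [mem_support] at hr ⊢
      exact fun h => hr (by rw [h, mul_zero])
  · exact (supp_ind_finite hX').subset fun r hr => by
      rw [mem_support] at hr ⊢
      exact fun h => hr (by rw [h, mul_zero])

lemma seg_mem_Ch {X X' : R → ℝ} (hX : X ∈ D.Ch) (hX' : X' ∈ D.Ch) (hc : Compat X X') {t : ℝ}
    (ht : t ∈ Icc (0 : ℝ) 1) : seg t X X' ∈ D.Ch := by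
  refine ⟨seg_mem_Y hX.1 hX'.1 hc ht, fun r hr => ?_⟩
  rw [mass_seg hX.1 hX'.1]
  have ht1 : 0 ≤ 1 - t := by linarith [ht.2]
  exact add_le_add (mul_le_mul_of_nonneg_left (hX.2 r hr) ht1)
    (mul_le_mul_of_nonneg_left (hX'.2 r hr) ht.1)

lemma homotopic_of_compat {Z : Type*} [TopologicalSpace Z] (f g : C(Z, D.Ch))
    (h : ∀ z, Compat (f z).1 (g z).1) : f.Homotopic g := by
  refine ⟨{
    toFun := fun p => ⟨seg p.1 (f p.2).1 (g p.2).1, seg_mem_Ch (f p.2).2 (g p.2).2 (h p.2) p.1.2⟩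
    continuous_toFun := ?_
    map_zero_left := ?_
    map_one_left := ?_ }⟩
  · refine Continuous.subtype_mk (continuous_pi fun r => ?_) _
    unfold seg
    have hf : Continuous fun p : unitInterval × Z => (f p.2).1 r :=
      (continuous_apply r).comp (continuous_subtype_val.comp (f.continuous.comp continuous_snd))
    have hg : Continuous fun p : unitInterval × Z => (g p.2).1 r :=
      (continuous_apply r).comp (continuous_subtype_val.comp (g.continuous.comp continuous_snd))
    have ht : Continuous fun p : unitInterval × Z => (p.1 : ℝ) :=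
      continuous_subtype_val.comp continuous_fst
    exact ((continuous_const.sub ht).mul hf).add (ht.mul hg)
  · intro z
    refine Subtype.ext (funext fun r => ?_)
    simp [seg]
  · intro z
    refine Subtype.ext (funext fun r => ?_)
    simp [seg]

/-- the functions supported on `Kp` -/
def YK (D : CD R) : Set (R → ℝ) := {X | X ∈ D.Y ∧ ∀ r ∉ D.Kp, X r = 0}

lemma mass_indicator (X : R → ℝ) : D.mass (D.Kp.indicator X) = D.mass X := by
  unfold mass
  rw [indicator_indicator, inter_self]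

lemma indicator_mem_Y {X : R → ℝ} (hX : X ∈ D.Y) : D.Kp.indicator X ∈ D.Y := by
  obtain ⟨h0, h1, k, hk, hk0⟩ := hX
  have h2 : ∀ r, D.Kp.indicator X r ≠ 0 → X r ≠ 0 := by
    intro r hr
    by_cases h : r ∈ D.Kp
    · rwa [indicator_of_mem h] at hr
    · rw [indicator_of_notMem h] at hr
      exact absurd rfl hr
  refine ⟨fun r => indicator_nonneg (fun r _ => h0 r) r,
    fun r r' hr hr' => h1 r r' (h2 r hr) (h2 r' hr'), k, hk, ?_⟩
  rwa [indicator_of_mem hk]

lemma YK_sub {X : R → ℝ} (hX : X ∈ D.YK) : X ∈ D.Ch :=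
  ⟨hX.1, fun r hr => by rw [hX.2 r hr]; exact (mass_pos hX.1).le⟩

theorem contractible_Ch [ContractibleSpace D.YK] : ContractibleSpace D.Ch := by
  rw [contractible_iff_id_nullhomotopic]
  let p : C(D.Ch, D.YK) := ⟨fun X => ⟨D.Kp.indicator X.1,
    indicator_mem_Y X.2.1, fun r hr => indicator_of_notMem hr _⟩, by
      refine Continuous.subtype_mk (continuous_pi fun r => ?_) _
      by_cases h : r ∈ D.Kp
      · simp only [indicator_of_mem h]
        exact (continuous_apply r).comp continuous_subtype_val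
      · simp only [indicator_of_notMem h]
        exact continuous_const⟩
  let i : C(D.YK, D.Ch) := ⟨fun X => ⟨X.1, YK_sub X.2⟩, continuous_subtype_val.subtype_mk _⟩
  have h1 : (ContinuousMap.id D.Ch).Homotopic (i.comp p) := by
    refine homotopic_of_compat _ _ fun X r r' hr hr' => ?_
    have h2 : ∀ r, X.1 r ≠ 0 ∨ D.Kp.indicator X.1 r ≠ 0 → X.1 r ≠ 0 := by
      rintro r (h | h)
      · exact h
      · by_cases hk : r ∈ D.Kp
        · rwa [indicator_of_mem hk] at h
        · rw [indicator_of_notMem hk] at h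
          exact absurd rfl h
    exact X.2.1.2.1 r r' (h2 r hr) (h2 r' hr')
  obtain ⟨y0, hy0⟩ := id_nullhomotopic D.YK
  refine ⟨i y0, h1.trans ?_⟩
  have h2 := (ContinuousMap.Homotopic.refl i).comp (hy0.comp (ContinuousMap.Homotopic.refl p))
  exact h2

section Mirror

variable (T : Finset R) (hT : T.Nonempty)

/-- the union of the mirrors in `T` -/
def AT (D : CD R) (T : Finset R) : Set D.Ch := {X | ∃ s ∈ T, X.1 s = D.mass X.1}

/-- the maximal ratio -/
noncomputable def ratio (D : CD R) (X : R → ℝ) : ℝ := T.sup' hT fun s => X s / D.mass X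

variable {T hT}

lemma le_ratio {X : R → ℝ} {s : R} (hs : s ∈ T) : X s / D.mass X ≤ ratio T hT D X :=
  Finset.le_sup' (fun s => X s / D.mass X) hs

lemma exists_ratio (X : R → ℝ) : ∃ s ∈ T, ratio T hT D X = X s / D.mass X :=
  Finset.exists_mem_eq_sup' hT _

lemma ratio_nonneg {X : R → ℝ} (hX : X ∈ D.Y) : 0 ≤ ratio T hT D X := by
  obtain ⟨s, _, h⟩ := exists_ratio (T := T) (hT := hT) (D := D) X
  rw [h]
  exact div_nonneg (hX.1 s) (mass_pos hX).le

lemma ratio_le_one (hTK : ∀ s ∈ T, s ∉ D.Kp) {X : R → ℝ} (hX : X ∈ D.Ch) :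
    ratio T hT D X ≤ 1 := by
  obtain ⟨s, hs, h⟩ := exists_ratio (T := T) (hT := hT) (D := D) X
  rw [h]
  exact div_le_one_of_le₀ (hX.2 s (hTK s hs)) (mass_pos hX.1).le

lemma ratio_eq_one (hTK : ∀ s ∈ T, s ∉ D.Kp) (X : D.Ch) :
    X ∈ AT D T ↔ ratio T hT D X.1 = 1 := by
  constructor
  · rintro ⟨s, hs, h⟩
    refine le_antisymm (ratio_le_one hTK X.2) ?_
    have h2 := le_ratio (hT := hT) (D := D) (X := X.1) hs
    rwa [h, div_self (mass_pos X.2.1).ne'] at h2
  · intro h
    obtain ⟨s, hs, h2⟩ := exists_ratio (T := T) (hT := hT) (D := D) X.1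
    rw [h, eq_comm, div_eq_one_iff_eq (mass_pos X.2.1).ne'] at h2
    exact ⟨s, hs, h2⟩

lemma continuous_ratio : Continuous fun X : D.Ch => ratio T hT D X.1 := by
  unfold ratio
  refine Continuous.finset_sup'_apply hT fun s _ => ?_
  exact ((continuous_apply s).comp continuous_subtype_val).div continuous_mass_ch
    fun X => (mass_pos X.2.1).ne'

open Classical in
/-- rescaling of the coordinates in `T` -/
noncomputable def scal (T : Finset R) (c : ℝ) (X : R → ℝ) : R → ℝ :=
  fun r => if r ∈ T then X r / c else X r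

lemma scal_mass (hTK : ∀ s ∈ T, s ∉ D.Kp) (c : ℝ) (X : R → ℝ) :
    D.mass (scal T c X) = D.mass X := by
  unfold mass
  refine finsum_congr fun r => ?_
  by_cases h : r ∈ D.Kp
  · have h2 : r ∉ T := fun h2 => hTK r h2 h
    simp [h, scal, h2]
  · simp [h]

lemma scal_mem (hTK : ∀ s ∈ T, s ∉ D.Kp) {c : ℝ} {X : R → ℝ} (hX : X ∈ D.Ch)
    (hc : ratio T hT D X ≤ c) : scal T c X ∈ D.Ch := by
  have hc0 : 0 ≤ c := (ratio_nonneg hX.1).trans hc
  have hne : ∀ r, scal T c X r ≠ 0 → X r ≠ 0 := by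
    intro r hr h
    apply hr
    unfold scal
    split_ifs <;> simp [h]
  refine ⟨⟨fun r => ?_, fun r r' hr hr' => hX.1.2.1 r r' (hne r hr) (hne r' hr'), ?_⟩, ?_⟩
  · unfold scal
    split_ifs
    · exact div_nonneg (hX.1.1 r) hc0
    · exact hX.1.1 r
  · obtain ⟨k, hk, hk0⟩ := hX.1.2.2
    refine ⟨k, hk, ?_⟩
    unfold scal
    rwa [if_neg fun h => hTK k h hk]
  · intro r hr
    rw [scal_mass hTK]
    unfold scal
    split_ifs with h
    · have hm := mass_pos hX.1
      rcases eq_or_lt_of_le hc0 with h0 | h0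
      · rw [← h0, div_zero]
        exact hm.le
      · rw [div_le_iff₀ h0, mul_comm, ← div_le_iff₀ hm]
        exact (le_ratio h).trans hc
    · exact hX.2 r hr

lemma ratio_scal (hTK : ∀ s ∈ T, s ∉ D.Kp) {c : ℝ} (hc : 0 < c) (X : R → ℝ) :
    ratio T hT D (scal T c X) = ratio T hT D X / c := by
  refine le_antisymm ?_ ?_
  · obtain ⟨s, hs, h⟩ := exists_ratio (T := T) (hT := hT) (D := D) (scal T c X)
    rw [h, scal_mass hTK]
    unfold scal
    rw [if_pos hs, div_right_comm]
    exact div_le_div_of_nonneg_right (le_ratio hs) hc.le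
  · obtain ⟨s, hs, h⟩ := exists_ratio (T := T) (hT := hT) (D := D) X
    rw [h]
    have h2 := le_ratio (hT := hT) (D := D) (X := scal T c X) hs
    rw [scal_mass hTK] at h2
    unfold scal at h2
    rw [if_pos hs, div_right_comm] at h2
    exact h2

lemma scal_one (X : R → ℝ) : scal T 1 X = X := by
  funext r
  simp [scal]

lemma scal_scal (c c' : ℝ) (X : R → ℝ) : scal T c' (scal T c X) = scal T (c * c') X := by
  funext r
  unfold scal
  split_ifs
  · rw [div_div]
  · rfl

/-- the interpolated scaling factor -/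
noncomputable def fac (T : Finset R) (hT : T.Nonempty) (D : CD R) (τ : ℝ) (X : R → ℝ) : ℝ :=
  (1 - cl τ) + cl τ * ratio T hT D X

lemma ratio_le_fac (hTK : ∀ s ∈ T, s ∉ D.Kp) (τ : ℝ) {X : R → ℝ} (hX : X ∈ D.Ch) :
    ratio T hT D X ≤ fac T hT D τ X := by
  unfold fac
  have h1 := ratio_le_one (hT := hT) hTK hX
  have h2 := cl_mem τ
  nlinarith [h2.1, h2.2]

lemma fac_le_one (hTK : ∀ s ∈ T, s ∉ D.Kp) (τ : ℝ) {X : R → ℝ} (hX : X ∈ D.Ch) :
    fac T hT D τ X ≤ 1 := by
  unfold fac
  have h1 := ratio_le_one (hT := hT) hTK hX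
  have h2 := cl_mem τ
  nlinarith [h2.1, h2.2]

/-- the neighbourhood deformation -/
noncomputable def etaT (T : Finset R) (hT : T.Nonempty) (D : CD R) (hTK : ∀ s ∈ T, s ∉ D.Kp)
    (p : ℝ × D.Ch) : D.Ch :=
  ⟨scal T (fac T hT D p.1 p.2.1) p.2.1, scal_mem hTK p.2.2 (ratio_le_fac hTK p.1 p.2.2)⟩

lemma continuousOn_etaT (hTK : ∀ s ∈ T, s ∉ D.Kp) :
    ContinuousOn (etaT T hT D hTK) {p | 0 < ratio T hT D p.2.1} := by
  rw [Topology.IsInducing.subtypeVal.continuousOn_iff, continuousOn_pi]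
  intro r
  have hr : Continuous fun p : ℝ × D.Ch => ratio T hT D p.2.1 :=
    continuous_ratio.comp continuous_snd
  have hX : Continuous fun p : ℝ × D.Ch => p.2.1 r :=
    (continuous_apply r).comp (continuous_subtype_val.comp continuous_snd)
  have hf : Continuous fun p : ℝ × D.Ch => fac T hT D p.1 p.2.1 := by
    unfold fac
    have hc : Continuous fun p : ℝ × D.Ch => cl p.1 := continuous_cl.comp continuous_fst
    fun_prop
  by_cases h : r ∈ T
  · have : ∀ p : ℝ × D.Ch, (Subtype.val ∘ etaT T hT D hTK) p r = p.2.1 r / fac T hT D p.1 p.2.1 := by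
      intro p
      simp [etaT, scal, h]
    refine ContinuousOn.congr ?_ fun p _ => this p
    refine hX.continuousOn.div hf.continuousOn fun p hp => ?_
    exact ne_of_gt (lt_of_lt_of_le hp (ratio_le_fac hTK p.1 p.2.2))
  · have : ∀ p : ℝ × D.Ch, (Subtype.val ∘ etaT T hT D hTK) p r = p.2.1 r := by
      intro p
      simp [etaT, scal, h]
    refine ContinuousOn.congr ?_ fun p _ => this p
    exact hX.continuousOn

/-- retraction onto the union of mirrors -/
noncomputable def retT (T : Finset R) (hT : T.Nonempty) (D : CD R) (hTK : ∀ s ∈ T, s ∉ D.Kp)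
    (X : {X : D.Ch // 0 < ratio T hT D X.1}) : AT D T :=
  ⟨etaT T hT D hTK (1, X.1), by
    rw [ratio_eq_one (hT := hT) hTK]
    show ratio T hT D (scal T (fac T hT D 1 X.1.1) X.1.1) = 1
    have h1 : fac T hT D 1 X.1.1 = ratio T hT D X.1.1 := by
      unfold fac
      rw [cl_of_ge le_rfl]
      ring
    rw [h1, ratio_scal hTK X.2, div_self X.2.ne']⟩

lemma continuous_retT (hTK : ∀ s ∈ T, s ∉ D.Kp) : Continuous (retT T hT D hTK) := by
  refine Continuous.subtype_mk ?_ _
  have h1 : Continuous fun X : {X : D.Ch // 0 < ratio T hT D X.1} => ((1 : ℝ), X.1) := by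
    fun_prop
  exact (continuousOn_etaT hTK).comp_continuous h1 fun X => X.2

lemma homotopic_ret {Z : Type*} [TopologicalSpace Z] (hTK : ∀ s ∈ T, s ∉ D.Kp)
    (f g : C(Z, {X : D.Ch // 0 < ratio T hT D X.1}))
    (h : ∀ z, Compat (f z).1.1 (g z).1.1) :
    ((⟨retT T hT D hTK, continuous_retT hTK⟩ : C(_, _)).comp f).Homotopic
      ((⟨retT T hT D hTK, continuous_retT hTK⟩ : C(_, _)).comp g) := by
  refine (ContinuousMap.Homotopic.refl _).comp ?_
  have hm : ∀ p : unitInterval × Z, seg p.1 (f p.2).1.1 (g p.2).1.1 ∈ D.Ch := fun p =>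
    seg_mem_Ch (f p.2).1.2 (g p.2).1.2 (h p.2) p.1.2
  refine ⟨{
    toFun := fun p => ⟨⟨seg p.1 (f p.2).1.1 (g p.2).1.1, hm p⟩, ?_⟩
    continuous_toFun := ?_
    map_zero_left := ?_
    map_one_left := ?_ }⟩
  · -- positivity
    have hf := (f p.2).2
    have hg := (g p.2).2
    have hmm := mass_pos (hm p).1
    obtain ⟨s, hs, h1⟩ := exists_ratio (T := T) (hT := hT) (D := D) (f p.2).1.1
    obtain ⟨s', hs', h1'⟩ := exists_ratio (T := T) (hT := hT) (D := D) (g p.2).1.1
    rw [h1] at hf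
    rw [h1'] at hg
    have hf2 : 0 < (f p.2).1.1 s := by
      by_contra hcon
      push Not at hcon
      exact absurd hf (not_lt.2 (div_nonpos_of_nonpos_of_nonneg hcon (mass_pos (f p.2).1.2.1).le))
    have hg2 : 0 < (g p.2).1.1 s' := by
      by_contra hcon
      push Not at hcon
      exact absurd hg (not_lt.2 (div_nonpos_of_nonpos_of_nonneg hcon (mass_pos (g p.2).1.2.1).le))
    have ht := p.1.2
    show 0 < ratio T hT D (seg p.1 (f p.2).1.1 (g p.2).1.1)
    rcases eq_or_lt_of_le ht.2 with h2 | h2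
    · refine lt_of_lt_of_le ?_ (le_ratio hs')
      refine div_pos ?_ hmm
      simp only [seg, h2, sub_self, zero_mul, one_mul, zero_add]
      exact hg2
    · refine lt_of_lt_of_le ?_ (le_ratio hs)
      refine div_pos ?_ hmm
      have h3 : 0 < (1 - (p.1 : ℝ)) * (f p.2).1.1 s := mul_pos (by linarith) hf2
      have h4 : 0 ≤ (p.1 : ℝ) * (g p.2).1.1 s := mul_nonneg ht.1 ((g p.2).1.2.1.1 s)
      show 0 < (1 - (p.1 : ℝ)) * (f p.2).1.1 s + (p.1 : ℝ) * (g p.2).1.1 s
      linarith
  · refine Continuous.subtype_mk (Continuous.subtype_mk (continuous_pi fun r => ?_) _) _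
    unfold seg
    have hf : Continuous fun p : unitInterval × Z => (f p.2).1.1 r :=
      (continuous_apply r).comp (continuous_subtype_val.comp
        (continuous_subtype_val.comp (f.continuous.comp continuous_snd)))
    have hg : Continuous fun p : unitInterval × Z => (g p.2).1.1 r :=
      (continuous_apply r).comp (continuous_subtype_val.comp
        (continuous_subtype_val.comp (g.continuous.comp continuous_snd)))
    have ht : Continuous fun p : unitInterval × Z => (p.1 : ℝ) :=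
      continuous_subtype_val.comp continuous_fst
    exact ((continuous_const.sub ht).mul hf).add (ht.mul hg)
  · intro z
    refine Subtype.ext (Subtype.ext (funext fun r => ?_))
    simp [seg]
  · intro z
    refine Subtype.ext (Subtype.ext (funext fun r => ?_))
    simp [seg]

end Mirror

end CD

end Pool.Agent.Helper82.Circ
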