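import Pool.Agent.Helper82.Circ.Chamber

/-!
The union of the mirrors in a chain is contractible and the chamber deformation retracts onto it.
-/

open Topology Set Function

namespace Pool.Agent.Helper82.Circ

variable {R : Type} [PartialOrder R] {D : CD R}

namespace CD

variable {T : Finset R} {hT : T.Nonempty}

lemma ratio_pos {X : R → ℝ} (hX : X ∈ D.Y) {s : R} (hs : s ∈ T) (h : 0 < X s) :
    0 < ratio T hT D X :=
  lt_of_lt_of_le (div_pos h (mass_pos hX)) (le_ratio hs)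

lemma mem_AT_pos {X : D.Ch} (hX : X ∈ AT D T) : ∃ s ∈ T, 0 < X.1 s := by
  obtain ⟨s, hs, h⟩ := hX
  exact ⟨s, hs, by rw [h]; exact mass_pos X.2.1⟩

lemma retT_of_mem (hTK : ∀ s ∈ T, s ∉ D.Kp) (X : {X : D.Ch // 0 < ratio T hT D X.1})
    (h : X.1 ∈ AT D T) : retT T hT D hTK X = ⟨X.1, h⟩ := by
  refine Subtype.ext (Subtype.ext ?_)
  show scal T (fac T hT D 1 X.1.1) X.1.1 = X.1.1
  have h1 : fac T hT D 1 X.1.1 = 1 := by
    unfold fac
    rw [cl_of_ge le_rfl, (ratio_eq_one hTK X.1).1 h]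
    ring
  rw [h1, scal_one]

theorem contractible_AT (hT : T.Nonempty) (hTK : ∀ s ∈ T, s ∉ D.Kp)
    (hch : ∀ s ∈ T, ∀ s' ∈ T, s ≤ s' ∨ s' ≤ s) : ContractibleSpace (AT D T) := by
  classical
  obtain ⟨τ, hτ⟩ := T.exists_maximal hT
  have hτT : τ ∈ T := hτ.prop
  have hmax : ∀ s ∈ T, s ≤ τ := by
    intro s hs
    rcases hch s hs τ hτT with h | h
    · exact h
    · exact hτ.le_of_ge hs h
  have hτK := hTK τ hτT
  have hρK := D.ρ_mem τ
  have hρτ : D.ρ τ ≤ τ := D.ρ_le τ
  -- in the mirrors, the elements of `Kp` in the support are below `τ`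
  have hbelow : ∀ X : D.Ch, X ∈ AT D T → ∀ k ∈ D.Kp, X.1 k ≠ 0 → k ≤ τ := by
    intro X hX k hk hk0
    obtain ⟨s, hs, h0⟩ := mem_AT_pos hX
    rcases X.2.1.2.1 k s hk0 h0.ne' with h | h
    · exact h.trans (hmax s hs)
    · exact absurd (D.lower h hk) (hTK s hs)
  have hcoord : ∀ r, Continuous fun X : AT D T => X.1.1 r := fun r =>
    (continuous_apply r).comp (continuous_subtype_val.comp continuous_subtype_val)
  have hmassc : Continuous fun X : AT D T => D.mass X.1.1 :=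
    continuous_mass_ch.comp continuous_subtype_val
  -- first map: the inclusion
  let N := {X : D.Ch // 0 < ratio T hT D X.1}
  have hpos0 : ∀ X : AT D T, 0 < ratio T hT D X.1.1 := fun X => by
    obtain ⟨s, hs, h0⟩ := mem_AT_pos X.2
    exact ratio_pos X.1.2.1 hs h0
  let f0 : C(AT D T, N) := ⟨fun X => ⟨X.1, hpos0 X⟩, continuous_subtype_val.subtype_mk _⟩
  -- second map
  let g1 : AT D T → R → ℝ := fun X r => if r ∈ D.Kp ∨ r ∈ T then X.1.1 r else 0
  have hg1ne : ∀ X r, g1 X r ≠ 0 → X.1.1 r ≠ 0 := by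
    intro X r h
    simp only [g1] at h
    split_ifs at h with h2
    · exact h
    · exact absurd rfl h
  have hg1mass : ∀ X, D.mass (g1 X) = D.mass X.1.1 := by
    intro X
    unfold mass
    refine finsum_congr fun r => ?_
    by_cases h : r ∈ D.Kp
    · simp [h, g1]
    · simp [h]
  have hg1 : ∀ X, g1 X ∈ D.Ch := by
    intro X
    refine ⟨⟨fun r => ?_, fun r r' h h' => X.1.2.1.2.1 r r' (hg1ne X r h) (hg1ne X r' h'), ?_⟩,
      fun r hr => ?_⟩
    · simp only [g1]
      split_ifs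
      · exact X.1.2.1.1 r
      · exact le_rfl
    · obtain ⟨k, hk, hk0⟩ := X.1.2.1.2.2
      exact ⟨k, hk, by simpa [g1, hk] using hk0⟩
    · rw [hg1mass]
      simp only [g1]
      split_ifs
      · exact X.1.2.2 r hr
      · exact (mass_pos X.1.2.1).le
  have hg1pos : ∀ X, 0 < ratio T hT D (g1 X) := by
    intro X
    obtain ⟨s, hs, h0⟩ := mem_AT_pos X.2
    exact ratio_pos (hg1 X).1 hs (by simp only [g1]; rw [if_pos (Or.inr hs)]; exact h0)
  let f1 : C(AT D T, N) := ⟨fun X => ⟨⟨g1 X, hg1 X⟩, hg1pos X⟩, by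
    refine Continuous.subtype_mk (Continuous.subtype_mk (continuous_pi fun r => ?_) _) _
    simp only [g1]
    split_ifs
    · exact hcoord r
    · exact continuous_const⟩
  -- third map
  let g2 : AT D T → R → ℝ := fun X r =>
    if r ∈ D.Kp then X.1.1 r else if r = τ then D.mass X.1.1 else 0
  have hg2mass : ∀ X, D.mass (g2 X) = D.mass X.1.1 := by
    intro X
    unfold mass
    refine finsum_congr fun r => ?_
    by_cases h : r ∈ D.Kp
    · simp [h, g2]
    · simp [h]
  have hg2ne : ∀ X r, g2 X r ≠ 0 → (r ∈ D.Kp ∧ X.1.1 r ≠ 0) ∨ r = τ := by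
    intro X r h
    simp only [g2] at h
    split_ifs at h with h2 h3
    · exact Or.inl ⟨h2, h⟩
    · exact Or.inr h3
    · exact absurd rfl h
  have hg2 : ∀ X, g2 X ∈ D.Ch := by
    intro X
    refine ⟨⟨fun r => ?_, fun r r' h h' => ?_, ?_⟩, fun r hr => ?_⟩
    · simp only [g2]
      split_ifs
      · exact X.1.2.1.1 r
      · exact (mass_pos X.1.2.1).le
      · exact le_rfl
    · rcases hg2ne X r h with ⟨h1, h2⟩ | rfl <;> rcases hg2ne X r' h' with ⟨h3, h4⟩ | rfl
      · exact X.1.2.1.2.1 r r' h2 h4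
      · exact Or.inl (hbelow X.1 X.2 r h1 h2)
      · exact Or.inr (hbelow X.1 X.2 r' h3 h4)
      · exact Or.inl le_rfl
    · obtain ⟨k, hk, hk0⟩ := X.1.2.1.2.2
      exact ⟨k, hk, by simpa [g2, hk] using hk0⟩
    · rw [hg2mass]
      simp only [g2]
      rw [if_neg hr]
      split_ifs
      · exact le_rfl
      · exact (mass_pos X.1.2.1).le
  have hg2pos : ∀ X, 0 < ratio T hT D (g2 X) := by
    intro X
    refine ratio_pos (hg2 X).1 hτT ?_
    simp only [g2]
    rw [if_neg hτK, if_pos trivial]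
    exact mass_pos X.1.2.1
  let f2 : C(AT D T, N) := ⟨fun X => ⟨⟨g2 X, hg2 X⟩, hg2pos X⟩, by
    refine Continuous.subtype_mk (Continuous.subtype_mk (continuous_pi fun r => ?_) _) _
    simp only [g2]
    split_ifs
    · exact hcoord r
    · exact hmassc
    · exact continuous_const⟩
  -- the last maps
  have hmass2 : ∀ c : ℝ, D.mass (fun r => if r = D.ρ τ ∨ r = τ then c else 0) = c := by
    intro c
    unfold mass
    rw [finsum_eq_single _ (D.ρ τ)]
    · rw [indicator_of_mem hρK, if_pos (Or.inl rfl)]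
    · intro r hr
      by_cases h : r ∈ D.Kp
      · rw [indicator_of_mem h, if_neg]
        rintro (h2 | h2)
        · exact hr h2
        · exact hτK (h2 ▸ h)
      · rw [indicator_of_notMem h]
  have hmem2 : ∀ c : ℝ, 0 < c → (fun r => if r = D.ρ τ ∨ r = τ then c else 0) ∈ D.Ch := by
    intro c hc
    refine ⟨⟨fun r => ?_, fun r r' h h' => ?_, D.ρ τ, hρK, ?_⟩, fun r hr => ?_⟩
    · simp only
      split_ifs
      · exact hc.le
      · exact le_rfl
    · simp only at h h'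
      split_ifs at h with h1
      · split_ifs at h' with h2
        · rcases h1 with rfl | rfl <;> rcases h2 with rfl | rfl
          · exact Or.inl le_rfl
          · exact Or.inl hρτ
          · exact Or.inr hρτ
          · exact Or.inl le_rfl
        · exact absurd rfl h'
      · exact absurd rfl h
    · simp [hc.ne']
    · rw [hmass2]
      show (if r = D.ρ τ ∨ r = τ then c else 0) ≤ c
      split_ifs
      · exact le_rfl
      · exact hc.le
  have hpos2 : ∀ c : ℝ, 0 < c →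
      0 < ratio T hT D (fun r => if r = D.ρ τ ∨ r = τ then c else 0) := by
    intro c hc
    exact ratio_pos (hmem2 c hc).1 hτT (by simpa using hc)
  let f3 : C(AT D T, N) := ⟨fun X => ⟨⟨fun r => if r = D.ρ τ ∨ r = τ then D.mass X.1.1 else 0,
    hmem2 _ (mass_pos X.1.2.1)⟩, hpos2 _ (mass_pos X.1.2.1)⟩, by
    refine Continuous.subtype_mk (Continuous.subtype_mk (continuous_pi fun r => ?_) _) _
    by_cases hr : r = D.ρ τ ∨ r = τ
    · simpa only [if_pos hr] using hmassc
    · simpa only [if_neg hr] using continuous_const⟩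
  let f4 : C(AT D T, N) := ContinuousMap.const _ ⟨⟨fun r => if r = D.ρ τ ∨ r = τ then 1 else 0,
    hmem2 _ one_pos⟩, hpos2 _ one_pos⟩
  have h01 : ∀ X, Compat (f0 X).1.1 (f1 X).1.1 := by
    intro X r r' h h'
    refine X.1.2.1.2.1 r r' ?_ ?_
    · rcases h with h | h
      · exact h
      · exact hg1ne X r h
    · rcases h' with h | h
      · exact h
      · exact hg1ne X r' h
  have h12 : ∀ X, Compat (f1 X).1.1 (f2 X).1.1 := by
    intro X
    have hcase : ∀ r, (g1 X r ≠ 0 ∨ g2 X r ≠ 0) →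
        (r ∈ D.Kp ∧ X.1.1 r ≠ 0) ∨ (r ∈ T ∧ X.1.1 r ≠ 0) ∨ r = τ := by
      rintro r (h | h)
      · have h2 := hg1ne X r h
        simp only [g1] at h
        split_ifs at h with h3
        · rcases h3 with h3 | h3
          · exact Or.inl ⟨h3, h2⟩
          · exact Or.inr (Or.inl ⟨h3, h2⟩)
        · exact absurd rfl h
      · rcases hg2ne X r h with h2 | h2
        · exact Or.inl h2
        · exact Or.inr (Or.inr h2)
    intro r r' h h'
    rcases hcase r h with ⟨h1, h2⟩ | ⟨h1, h2⟩ | rfl <;>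
      rcases hcase r' h' with ⟨h3, h4⟩ | ⟨h3, h4⟩ | rfl
    · exact X.1.2.1.2.1 r r' h2 h4
    · exact X.1.2.1.2.1 r r' h2 h4
    · exact Or.inl (hbelow X.1 X.2 r h1 h2)
    · exact X.1.2.1.2.1 r r' h2 h4
    · exact X.1.2.1.2.1 r r' h2 h4
    · exact Or.inl (hmax r h1)
    · exact Or.inr (hbelow X.1 X.2 r' h3 h4)
    · exact Or.inr (hmax r' h3)
    · exact Or.inl le_rfl
  have h23 : ∀ X, Compat (f2 X).1.1 (f3 X).1.1 := by
    intro X
    have hcase : ∀ r, ((f2 X).1.1 r ≠ 0 ∨ (f3 X).1.1 r ≠ 0) →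
        (r ∈ D.Kp ∧ X.1.1 r ≠ 0) ∨ r = D.ρ τ ∨ r = τ := by
      rintro r (h | h)
      · rcases hg2ne X r h with h2 | h2
        · exact Or.inl h2
        · exact Or.inr (Or.inr h2)
      · have h' : (if r = D.ρ τ ∨ r = τ then D.mass X.1.1 else 0) ≠ 0 := h
        split_ifs at h' with h2
        · exact Or.inr h2
        · exact absurd rfl h'
    have hkρ : ∀ k ∈ D.Kp, X.1.1 k ≠ 0 → k ≤ D.ρ τ := fun k hk hk0 =>
      D.le_ρ hk (hbelow X.1 X.2 k hk hk0)
    intro r r' h h'
    rcases hcase r h with ⟨h1, h2⟩ | rfl | rfl <;> rcases hcase r' h' with ⟨h3, h4⟩ | rfl | rfl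
    · exact X.1.2.1.2.1 r r' h2 h4
    · exact Or.inl (hkρ r h1 h2)
    · exact Or.inl (hbelow X.1 X.2 r h1 h2)
    · exact Or.inr (hkρ r' h3 h4)
    · exact Or.inl le_rfl
    · exact Or.inl hρτ
    · exact Or.inr (hbelow X.1 X.2 r' h3 h4)
    · exact Or.inr hρτ
    · exact Or.inl le_rfl
  have h34 : ∀ X, Compat (f3 X).1.1 (f4 X).1.1 := by
    intro X
    have hcase : ∀ r, ((f3 X).1.1 r ≠ 0 ∨ (f4 X).1.1 r ≠ 0) → r = D.ρ τ ∨ r = τ := by
      rintro r (h | h)
      · have h' : (if r = D.ρ τ ∨ r = τ then D.mass X.1.1 else 0) ≠ 0 := h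
        split_ifs at h' with h2
        · exact h2
        · exact absurd rfl h'
      · have h' : (if r = D.ρ τ ∨ r = τ then (1 : ℝ) else 0) ≠ 0 := h
        split_ifs at h' with h2
        · exact h2
        · exact absurd rfl h'
    intro r r' h h'
    rcases hcase r h with rfl | rfl <;> rcases hcase r' h' with rfl | rfl
    · exact Or.inl le_rfl
    · exact Or.inl hρτ
    · exact Or.inr hρτ
    · exact Or.inl le_rfl
  let ρT : C(N, AT D T) := ⟨retT T hT D hTK, continuous_retT hTK⟩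
  have hid : ρT.comp f0 = ContinuousMap.id _ := by
    ext X : 1
    exact retT_of_mem hTK _ X.2
  have hall : (ContinuousMap.id (AT D T)).Homotopic (ρT.comp f4) := by
    rw [← hid]
    exact (((homotopic_ret hTK f0 f1 h01).trans (homotopic_ret hTK f1 f2 h12)).trans
      (homotopic_ret hTK f2 f3 h23)).trans (homotopic_ret hTK f3 f4 h34)
  rw [contractible_iff_id_nullhomotopic]
  exact ⟨ρT ⟨⟨fun r => if r = D.ρ τ ∨ r = τ then 1 else 0, hmem2 _ one_pos⟩,
    hpos2 _ one_pos⟩, hall⟩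

theorem exists_sdr_Ch [ContractibleSpace D.Ch] (hT : T.Nonempty) (hTK : ∀ s ∈ T, s ∉ D.Kp)
    (hch : ∀ s ∈ T, ∀ s' ∈ T, s ≤ s' ∨ s' ≤ s) :
    ∃ G : ℝ × D.Ch → D.Ch, Continuous G ∧ (∀ x, G (0, x) = x) ∧ (∀ x, G (1, x) ∈ AT D T) ∧
      ∀ x ∈ AT D T, ∀ t, G (t, x) = x := by
  have := contractible_AT hT hTK hch
  have hη1 : ∀ x : D.Ch, 0 < ratio T hT D x.1 → etaT T hT D hTK (1, x) ∈ AT D T := fun x hx =>
    (retT T hT D hTK ⟨x, hx⟩).2
  have hfac1 : ∀ X : R → ℝ, fac T hT D 1 X = ratio T hT D X := by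
    intro X
    unfold fac
    rw [cl_of_ge le_rfl]
    ring
  have hfacpos : ∀ (s : ℝ) (x : D.Ch), 0 < ratio T hT D x.1 → 0 < fac T hT D s x.1 :=
    fun s x hx => lt_of_lt_of_le hx (ratio_le_fac hTK s x.2)
  refine exists_sdr (AT D T) (fun X => ratio T hT D X.1) continuous_ratio
    (fun X => ratio_eq_one hTK X) (etaT T hT D hTK) (continuousOn_etaT hTK) ?_ hη1 ?_ ?_ ?_
  · intro x hx
    refine Subtype.ext ?_
    show scal T (fac T hT D 0 x.1) x.1 = x.1
    have : fac T hT D 0 x.1 = 1 := by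
      unfold fac
      rw [cl_of_le le_rfl]
      ring
    rw [this, scal_one]
  · intro x hx s _
    refine Subtype.ext ?_
    show scal T (fac T hT D s x.1) x.1 = x.1
    have : fac T hT D s x.1 = 1 := by
      unfold fac
      rw [(ratio_eq_one (hT := hT) hTK x).1 hx]
      ring
    rw [this, scal_one]
  · intro x hx s _
    refine Subtype.ext ?_
    show scal T (fac T hT D 1 (scal T (fac T hT D s x.1) x.1)) (scal T (fac T hT D s x.1) x.1) =
      scal T (fac T hT D 1 x.1) x.1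
    rw [scal_scal, hfac1, hfac1, ratio_scal hTK (hfacpos s x hx), mul_div_cancel₀]
    exact (hfacpos s x hx).ne'
  · intro x hx s _
    show ratio T hT D x.1 ≤ ratio T hT D (scal T (fac T hT D s x.1) x.1)
    rw [ratio_scal hTK (hfacpos s x hx), le_div_iff₀ (hfacpos s x hx)]
    have h1 := fac_le_one (hT := hT) hTK s x.2
    nlinarith

/-- near a point only the mirrors through it occur -/
lemma mir_nhds (X : D.Ch) : ∀ᶠ X' : D.Ch in 𝓝 X, D.mir X'.1 ⊆ D.mir X.1 := by
  obtain ⟨k, hk, hk0⟩ := X.2.1.2.2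
  have hcoord : ∀ r, Continuous fun X : D.Ch => X.1 r := fun r =>
    (continuous_apply r).comp continuous_subtype_val
  have h1 : ∀ᶠ X' : D.Ch in 𝓝 X, X'.1 k ≠ 0 := (isOpen_ne.preimage (hcoord k)).mem_nhds hk0
  have h2 : ∀ᶠ X' : D.Ch in 𝓝 X, ∀ r ∈ (D.fin k hk).toFinset, r ∉ D.mir X.1 →
      r ∉ D.Kp → X'.1 r < D.mass X'.1 := by
    rw [Finset.eventually_all]
    intro r _
    by_cases hr : r ∈ D.Kp ∨ r ∈ D.mir X.1
    · refine Filter.Eventually.of_forall fun X' h3 h4 => ?_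
      rcases hr with hr | hr
      · exact absurd hr h4
      · exact absurd hr h3
    · push Not at hr
      have h3 : X.1 r < D.mass X.1 := lt_of_le_of_ne (X.2.2 r hr.1) fun h => hr.2 ⟨hr.1, h⟩
      filter_upwards [(isOpen_lt (hcoord r) continuous_mass_ch).mem_nhds h3] with X' hX' _ _
      exact hX'
  filter_upwards [h1, h2] with X' h3 h4 r hr
  by_contra hcon
  have hpos := mass_pos X'.2.1
  have hr0 : X'.1 r ≠ 0 := by
    rw [hr.2]
    exact hpos.ne'
  have hcomp := X'.2.1.2.1 r k hr0 h3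
  have := h4 r ((Set.Finite.mem_toFinset _).2 hcomp) hcon hr.1
  rw [hr.2] at this
  exact lt_irrefl _ this

lemma mir_chain {X : R → ℝ} (hX : X ∈ D.Ch) {r r' : R} (hr : r ∈ D.mir X) (hr' : r' ∈ D.mir X) :
    r ≤ r' ∨ r' ≤ r := by
  have hpos := mass_pos hX.1
  exact hX.1.2.1 r r' (by rw [hr.2]; exact hpos.ne') (by rw [hr'.2]; exact hpos.ne')

lemma mir_finite {X : R → ℝ} (hX : X ∈ D.Ch) : (D.mir X).Finite :=
  (supp_finite hX.1).subset fun r hr => by
    rw [mem_support, hr.2]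
    exact (mass_pos hX.1).ne'

end CD

end Pool.Agent.Helper82.Circ
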