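import Pool.Agent.Helper82.Circ.Data
import Pool.Agent.Helper82.Circ.Chamber2

/-!
The integer cocycle and the action of the group on the chamber.
-/

open Topology Set Function

namespace Pool.Agent.Helper82.Circ

set_option linter.unusedSectionVars false

/-- `MD` with a central element of infinite order. -/
structure MDz (E R B T : Type) [Group E] [PartialOrder R] [MulAction E R] [Fintype B]
    (D : CD R) (d : R → B → ℝ) (τ : R → T) (z : E) : Prop extends MD E R B T D d τ z where
  central : z ∈ Subgroup.center E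
  inf : ∀ n : ℤ, z ^ n = 1 → n = 0

variable {E R B T : Type} [Group E] [PartialOrder R] [MulAction E R] [Fintype B]
  {D : CD R} {d : R → B → ℝ} {τ : R → T} {z : E} (h : MDz E R B T D d τ z)

section Cocycle

variable (E) in
/-- orbit representative -/
noncomputable def rep (r : R) : R := Quotient.out (Quotient.mk (MulAction.orbitRel E R) r)

variable (E) in
lemma exists_rep_smul (r : R) : ∃ e : E, e • rep E r = r := by
  have h1 : Quotient.mk (MulAction.orbitRel E R) r = Quotient.mk (MulAction.orbitRel E R) (rep E r) :=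
    (Quotient.out_eq _).symm
  have h2 := Quotient.exact h1
  exact h2

lemma rep_smul (e : E) (r : R) : rep E (e • r) = rep E r := by
  unfold rep
  congr 1
  exact Quotient.sound ⟨e, rfl⟩

variable (E) in
/-- an element moving the representative to `r` -/
noncomputable def sec (r : R) : E := (exists_rep_smul E r).choose

variable (E) in
lemma sec_smul (r : R) : sec E r • rep E r = r := (exists_rep_smul E r).choose_spec

include h in
lemma smul_mem_iff (e : E) (k : R) : e • k ∈ D.Kp ↔ k ∈ D.Kp := by
  refine ⟨fun h1 => ?_, h.smul_mem e k⟩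
  have := h.smul_mem e⁻¹ _ h1
  rwa [inv_smul_smul] at this

include h in
lemma rep_mem {k : R} (hk : k ∈ D.Kp) : rep E k ∈ D.Kp := by
  rw [← sec_smul E k] at hk
  exact (smul_mem_iff h _ _).1 hk

include h in
lemma exists_cc (e : E) {k : R} (hk : k ∈ D.Kp) : ∃ m : ℤ, e * sec E k = sec E (e • k) * z ^ m := by
  have h1 : ((sec E (e • k))⁻¹ * (e * sec E k)) • rep E k = rep E k := by
    rw [mul_smul, mul_smul, sec_smul, inv_smul_eq_iff]
    rw [← rep_smul e k, sec_smul]
  obtain ⟨m, hm⟩ := h.stab _ (rep_mem h hk) _ h1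
  refine ⟨m, ?_⟩
  have hm' : z ^ m = (sec E (e • k))⁻¹ * (e * sec E k) := hm
  rw [hm', mul_inv_cancel_left]

open Classical in
variable (z) in
/-- the cocycle -/
noncomputable def cc (e : E) (k : R) : ℤ :=
  if h : ∃ m : ℤ, e * sec E k = sec E (e • k) * z ^ m then h.choose else 0

include h in
lemma cc_spec (e : E) {k : R} (hk : k ∈ D.Kp) : e * sec E k = sec E (e • k) * z ^ cc z e k := by
  unfold cc
  rw [dif_pos (exists_cc h e hk)]
  exact (exists_cc h e hk).choose_spec

include h in
lemma cc_unique (e : E) {k : R} (hk : k ∈ D.Kp) {m : ℤ}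
    (hm : e * sec E k = sec E (e • k) * z ^ m) : cc z e k = m := by
  have h1 := cc_spec h e hk
  rw [hm] at h1
  have h2 := mul_left_cancel h1
  have h3 : z ^ (cc z e k - m) = 1 := by
    rw [zpow_sub, ← h2, mul_inv_cancel]
  have := h.inf _ h3
  omega

include h in
lemma cc_mul (e e' : E) {k : R} (hk : k ∈ D.Kp) :
    cc z (e * e') k = cc z e (e' • k) + cc z e' k := by
  refine cc_unique h _ hk ?_
  rw [mul_assoc, cc_spec h e' hk, ← mul_assoc, cc_spec h e (h.smul_mem e' k hk), mul_smul,
    mul_assoc, ← zpow_add]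

include h in
lemma cc_zpow (m : ℤ) {k : R} (hk : k ∈ D.Kp) : cc z (z ^ m) k = m := by
  refine cc_unique h _ hk ?_
  have h1 : z ^ m • k = k := by
    have : z ∈ MulAction.stabilizer E k := h.triv k
    exact Subgroup.zpow_mem _ this m
  rw [h1]
  exact (Subgroup.mem_center_iff.1 (Subgroup.zpow_mem _ h.central m) _).symm

include h in
lemma cc_one {k : R} (hk : k ∈ D.Kp) : cc z (1 : E) k = 0 := by
  simpa using cc_zpow h 0 hk

end Cocycle

section Act

/-- translate -/
def tr (e : E) (X : R → ℝ) : R → ℝ := fun r => X (e⁻¹ • r)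

lemma tr_smul (e : E) (X : R → ℝ) (r : R) : tr e X (e • r) = X r := by
  simp [tr]

lemma tr_mul (e e' : E) (X : R → ℝ) : tr (e * e') X = tr e (tr e' X) := by
  funext r
  simp [tr, mul_smul]

lemma tr_one (X : R → ℝ) : tr (1 : E) X = X := by
  funext r
  simp [tr]

include h in
lemma le_smul_iff (e : E) (r r' : R) : e • r ≤ e • r' ↔ r ≤ r' := by
  refine ⟨fun h1 => ?_, h.le_smul e r r'⟩
  have := h.le_smul e⁻¹ _ _ h1
  rwa [inv_smul_smul, inv_smul_smul] at this

include h in
lemma tr_mem_Y (e : E) {X : R → ℝ} (hX : X ∈ D.Y) : tr e X ∈ D.Y := by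
  obtain ⟨h0, h1, k, hk, hk0⟩ := hX
  refine ⟨fun r => h0 _, fun r r' hr hr' => ?_, e • k, h.smul_mem e k hk, ?_⟩
  · have := h1 _ _ hr hr'
    rwa [le_smul_iff h, le_smul_iff h] at this
  · rwa [tr_smul]

include h in
lemma mass_tr (e : E) (X : R → ℝ) : D.mass (tr e X) = D.mass X := by
  unfold CD.mass
  rw [← finsum_comp_equiv (MulAction.toPerm e)]
  refine finsum_congr fun r => ?_
  by_cases hr : r ∈ D.Kp
  · rw [indicator_of_mem hr, indicator_of_mem]
    · exact tr_smul e X r
    · exact (smul_mem_iff h _ _).2 hr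
  · rw [indicator_of_notMem hr, indicator_of_notMem]
    intro h1
    exact hr ((smul_mem_iff h _ _).1 h1)

lemma mass_const_mul (c : ℝ) (X : R → ℝ) : D.mass (fun r => c * X r) = c * D.mass X := by
  unfold CD.mass
  rw [mul_finsum]
  refine finsum_congr fun r => ?_
  by_cases hr : r ∈ D.Kp
  · simp [hr]
  · simp [hr]

lemma mass_congr {X X' : R → ℝ} (hX : ∀ k ∈ D.Kp, X k = X' k) : D.mass X = D.mass X' := by
  unfold CD.mass
  refine finsum_congr fun r => ?_
  by_cases hr : r ∈ D.Kp
  · simp [hr, hX r hr]
  · simp [hr]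

lemma mass_add {X X' : R → ℝ} (hX : (support X).Finite) (hX' : (support X').Finite) :
    D.mass (fun r => X r + X' r) = D.mass X + D.mass X' := by
  unfold CD.mass
  rw [← finsum_add_distrib]
  · refine finsum_congr fun r => ?_
    by_cases hr : r ∈ D.Kp
    · simp [hr]
    · simp [hr]
  · exact hX.subset (by
      rw [support_indicator]
      exact inter_subset_right)
  · exact hX'.subset (by
      rw [support_indicator]
      exact inter_subset_right)

variable (D z) in
/-- weighted cocycle -/
noncomputable def wt (e : E) (X : R → ℝ) : ℝ := D.mass fun r => X r * cc z e r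

variable (D z) in
/-- the logarithmic dilation -/
noncomputable def shift (e : E) (X : R → ℝ) : ℝ := wt D z e X / D.mass X

lemma wt_const_mul (c : ℝ) (e : E) (X : R → ℝ) : wt D z e (fun r => c * X r) = c * wt D z e X := by
  unfold wt
  rw [← mass_const_mul]
  congr 1
  funext r
  ring

lemma shift_const_mul {c : ℝ} (hc : c ≠ 0) (e : E) (X : R → ℝ) :
    shift D z e (fun r => c * X r) = shift D z e X := by
  unfold shift
  rw [wt_const_mul, mass_const_mul, mul_div_mul_left _ _ hc]

include h in
lemma wt_mul (e e' : E) {X : R → ℝ} (hX : (support X).Finite) :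
    wt D z (e * e') X = wt D z e (tr e' X) + wt D z e' X := by
  have h1 : wt D z e (tr e' X) = D.mass fun r => X r * cc z e (e' • r) := by
    rw [← mass_tr h e' (fun r => X r * cc z e (e' • r))]
    unfold wt
    congr 1
    funext r
    simp [tr]
  rw [h1]
  unfold wt
  rw [← mass_add]
  · refine mass_congr fun k hk => ?_
    rw [cc_mul h e e' hk]
    push_cast
    ring
  · exact hX.subset fun r hr hr0 => hr (by
      show X r * _ = 0
      rw [hr0, zero_mul])
  · exact hX.subset fun r hr hr0 => hr (by
      show X r * _ = 0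
      rw [hr0, zero_mul])

include h in
lemma wt_zpow (m : ℤ) (X : R → ℝ) : wt D z (z ^ m) X = m * D.mass X := by
  rw [← mass_const_mul]
  unfold wt
  refine mass_congr fun k hk => ?_
  rw [cc_zpow h m hk, mul_comm]

variable (D z) in
/-- the action -/
noncomputable def act (e : E) (X : R → ℝ) : R → ℝ := fun r => Real.exp (shift D z e X) * tr e X r

include h in
lemma shift_mul (e e' : E) {X : R → ℝ} (hX : X ∈ D.Y) :
    shift D z (e * e') X = shift D z e (act D z e' X) + shift D z e' X := by
  have h1 : shift D z e (act D z e' X) = shift D z e (tr e' X) :=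
    shift_const_mul (Real.exp_pos _).ne' _ _
  rw [h1]
  unfold shift
  rw [wt_mul h e e' (CD.supp_finite hX), mass_tr h, add_div]

include h in
lemma mass_act (e : E) (X : R → ℝ) :
    D.mass (act D z e X) = Real.exp (shift D z e X) * D.mass X := by
  unfold act
  rw [mass_const_mul, mass_tr h]

include h in
lemma act_mul (e e' : E) {X : R → ℝ} (hX : X ∈ D.Y) :
    act D z (e * e') X = act D z e (act D z e' X) := by
  funext r
  show Real.exp (shift D z (e * e') X) * tr (e * e') X r =
    Real.exp (shift D z e (act D z e' X)) * tr e (act D z e' X) r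
  rw [shift_mul h e e' hX, tr_mul, Real.exp_add, mul_assoc]
  rfl

include h in
lemma tr_zpow (m : ℤ) (X : R → ℝ) : tr (z ^ m) X = X := by
  funext r
  unfold tr
  have h1 : (z ^ m)⁻¹ ∈ MulAction.stabilizer E r := by
    have : z ∈ MulAction.stabilizer E r := h.triv r
    exact Subgroup.inv_mem _ (Subgroup.zpow_mem _ this m)
  have h2 : (z ^ m)⁻¹ • r = r := h1
  rw [h2]

include h in
lemma act_zpow (m : ℤ) {X : R → ℝ} (hX : X ∈ D.Y) :
    act D z (z ^ m) X = fun r => Real.exp m * X r := by
  unfold act
  rw [tr_zpow h, shift, wt_zpow h, mul_div_assoc, div_self (CD.mass_pos hX).ne', mul_one]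

include h in
lemma act_one {X : R → ℝ} (hX : X ∈ D.Y) : act D z (1 : E) X = X := by
  have := act_zpow h 0 hX
  simpa using this

lemma const_mul_mem_Y {c : ℝ} (hc : 0 < c) {X : R → ℝ} (hX : X ∈ D.Y) :
    (fun r => c * X r) ∈ D.Y := by
  obtain ⟨h0, h1, k, hk, hk0⟩ := hX
  refine ⟨fun r => mul_nonneg hc.le (h0 r), fun r r' hr hr' => h1 r r' ?_ ?_, k, hk, ?_⟩
  · exact fun h => hr (by simp [h])
  · exact fun h => hr' (by simp [h])
  · exact mul_ne_zero hc.ne' hk0

include h in
lemma act_mem_Y (e : E) {X : R → ℝ} (hX : X ∈ D.Y) : act D z e X ∈ D.Y :=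
  const_mul_mem_Y (Real.exp_pos _) (tr_mem_Y h e hX)

include h in
lemma act_mem_Ch (e : E) {X : R → ℝ} (hX : X ∈ D.Ch) : act D z e X ∈ D.Ch := by
  refine ⟨act_mem_Y h e hX.1, fun r hr => ?_⟩
  rw [mass_act h]
  refine mul_le_mul_of_nonneg_left (hX.2 _ ?_) (Real.exp_pos _).le
  intro h1
  exact hr ((smul_mem_iff h _ _).1 h1)

include h in
lemma mem_mir_act (e : E) (X : R → ℝ) (r : R) : e • r ∈ D.mir (act D z e X) ↔ r ∈ D.mir X := by
  unfold CD.mir
  simp only [mem_ofPred_eq]
  rw [smul_mem_iff h, mass_act h]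
  refine and_congr Iff.rfl ?_
  unfold act
  rw [tr_smul]
  exact mul_right_inj' (Real.exp_pos _).ne'

lemma continuous_wt (e : E) : Continuous fun X : D.Y => wt D z e X.1 := by
  have h1 : ∀ X : D.Y, wt D z e X.1 =
      ∑ᶠ r, X.1 r • D.Kp.indicator (fun r => (cc z e r : ℝ)) r := by
    intro X
    unfold wt CD.mass
    refine finsum_congr fun r => ?_
    by_cases hr : r ∈ D.Kp
    · simp [hr]
    · simp [hr]
  simp_rw [h1]
  exact CD.continuous_wsum _

lemma continuous_shift (e : E) : Continuous fun X : D.Y => shift D z e X.1 := by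
  unfold shift
  exact (continuous_wt e).div CD.continuous_mass fun X => (CD.mass_pos X.2).ne'

lemma continuous_act (e : E) : Continuous fun X : D.Y => act D z e X.1 := by
  refine continuous_pi fun r => ?_
  exact (Real.continuous_exp.comp (continuous_shift e)).mul
    ((continuous_apply _).comp continuous_subtype_val)

end Act

end Pool.Agent.Helper82.Circ
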