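import Mathlib

/-!
Free actions with a local finiteness property are covering actions with Hausdorff quotient.
-/

open Topology Set Function

namespace Pool.Agent.Helper82.Circ

variable {Γ U : Type} [Group Γ] [TopologicalSpace U] [T2Space U] [MulAction Γ U]
  [ContinuousConstSMul Γ U]

lemma exists_disjoint_nhds (P : Set Γ) {u u' : U} (hne : ∀ g ∈ P, g • u ≠ u')
    (hfin : ∃ O ∈ 𝓝 u, ∃ O' ∈ 𝓝 u', {g : Γ | ((g • ·) '' O ∩ O').Nonempty}.Finite) :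
    ∃ N ∈ 𝓝 u, ∃ N' ∈ 𝓝 u', ∀ g ∈ P, ¬ ((g • ·) '' N ∩ N').Nonempty := by
  obtain ⟨O, hO, O', hO', hF⟩ := hfin
  have hsep : ∀ g : Γ, ∃ A ∈ 𝓝 u, ∃ A' ∈ 𝓝 u', g ∈ P → ¬ ((g • ·) '' A ∩ A').Nonempty := by
    intro g
    by_cases hg : g ∈ P
    · obtain ⟨A, A', h1, h2, h3, h4, h5⟩ := t2_separation (hne g hg)
      refine ⟨(g • ·) ⁻¹' A, (h1.preimage (continuous_const_smul g)).mem_nhds h3, A',
        h2.mem_nhds h4, fun _ => ?_⟩
      rintro ⟨_, ⟨x, hx, rfl⟩, hx'⟩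
      exact Set.disjoint_left.1 h5 hx hx'
    · exact ⟨univ, Filter.univ_mem, univ, Filter.univ_mem, fun h => absurd h hg⟩
  choose A hA A' hA' hAA using hsep
  refine ⟨O ∩ ⋂ g ∈ hF.toFinset, A g, Filter.inter_mem hO ?_,
    O' ∩ ⋂ g ∈ hF.toFinset, A' g, Filter.inter_mem hO' ?_, ?_⟩
  · rw [Filter.biInter_finset_mem]
    exact fun g _ => hA g
  · rw [Filter.biInter_finset_mem]
    exact fun g _ => hA' g
  · rintro g hg ⟨_, ⟨x, ⟨hx1, hx2⟩, rfl⟩, hx3, hx4⟩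
    have hgF : g ∈ hF.toFinset := by
      rw [Set.Finite.mem_toFinset]
      exact ⟨g • x, ⟨x, hx1, rfl⟩, hx3⟩
    exact hAA g hg ⟨g • x, ⟨x, mem_iInter₂.1 hx2 g hgF, rfl⟩, mem_iInter₂.1 hx4 g hgF⟩

theorem isQuotientCoveringMap_of_finite (hfree : ∀ (g : Γ) (u : U), g • u = u → g = 1)
    (hfin : ∀ u u' : U, ∃ O ∈ 𝓝 u, ∃ O' ∈ 𝓝 u', {g : Γ | ((g • ·) '' O ∩ O').Nonempty}.Finite) :
    IsQuotientCoveringMap (Quotient.mk (MulAction.orbitRel Γ U)) Γ where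
  toIsQuotientMap := isQuotientMap_quotient_mk'
  continuous_const_smul := continuous_const_smul
  apply_eq_iff_mem_orbit := Quotient.eq''
  disjoint u := by
    obtain ⟨N, hN, N', hN', h⟩ := exists_disjoint_nhds {g : Γ | g ≠ 1} (u := u) (u' := u)
      (fun g hg h1 => hg (hfree g u h1)) (hfin u u)
    refine ⟨N ∩ N', Filter.inter_mem hN hN', fun g hg => ?_⟩
    by_contra h1
    refine h g h1 (hg.mono ?_)
    exact inter_subset_inter (image_mono inter_subset_left) inter_subset_right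

theorem t2Space_quotient_of_finite
    (hfin : ∀ u u' : U, ∃ O ∈ 𝓝 u, ∃ O' ∈ 𝓝 u', {g : Γ | ((g • ·) '' O ∩ O').Nonempty}.Finite) :
    T2Space (Quotient (MulAction.orbitRel Γ U)) := by
  refine ⟨fun a b hab => ?_⟩
  obtain ⟨u, rfl⟩ := Quotient.exists_rep a
  obtain ⟨u', rfl⟩ := Quotient.exists_rep b
  obtain ⟨N, hN, N', hN', h⟩ := exists_disjoint_nhds (univ : Set Γ) (u := u) (u' := u')
    (fun g _ h1 => hab (Quotient.sound (s := MulAction.orbitRel Γ U)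
      (MulAction.orbitRel_apply.2 ⟨g⁻¹, by simp [← h1]⟩))) (hfin u u')
  have hopen : IsOpenMap (Quotient.mk (MulAction.orbitRel Γ U)) := isOpenMap_quotient_mk'_mul
  refine ⟨Quotient.mk _ '' interior N, Quotient.mk _ '' interior N', hopen _ isOpen_interior,
    hopen _ isOpen_interior, ⟨u, mem_interior_iff_mem_nhds.2 hN, rfl⟩,
    ⟨u', mem_interior_iff_mem_nhds.2 hN', rfl⟩, ?_⟩
  rw [Set.disjoint_left]
  rintro _ ⟨x, hx, rfl⟩ ⟨y, hy, hxy⟩
  obtain ⟨g, hg⟩ := MulAction.orbitRel_apply.1 (Quotient.exact hxy)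
  exact h g (mem_univ _) ⟨y, ⟨x, interior_subset hx, hg⟩, interior_subset hy⟩

end Pool.Agent.Helper82.Circ
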