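import Pool.Agent.Helper82.Circ.Gam
import Pool.Agent.Helper82.Circ.Proper

/-!
The quotient is compact.
-/

open Topology Set Function

namespace Pool.Agent.Helper82.Circ

set_option linter.unusedSectionVars false

variable {E R B T : Type} [Group E] [PartialOrder R] [MulAction E R] [Fintype B]
  {D : CD R} {d : R → B → ℝ} {τ : R → T} {z : E} (h : MDz E R B T D d τ z)

instance : ContinuousConstSMul (Gam h) (UU h) :=
  ⟨fun g => continuous_const_smul (g : GG h)⟩

/-- the quotient manifold -/
noncomputable abbrev MM : Type := Quotient (MulAction.orbitRel (Gam h) (UU h))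

/-- the projection -/
noncomputable abbrev pr : UU h → MM h := Quotient.mk (MulAction.orbitRel (Gam h) (UU h))

instance : T2Space (UU h) := Unf.t2_unf

lemma finite_pairs_Gam (u u' : UU h) : ∃ O ∈ 𝓝 u, ∃ O' ∈ 𝓝 u',
    {g : Gam h | ((g • ·) '' O ∩ O').Nonempty}.Finite := by
  obtain ⟨O, hO, O', hO', hF⟩ := finite_pairs h u u'
  refine ⟨O, hO, O', hO', ?_⟩
  exact hF.preimage (f := Subtype.val) (Subtype.val_injective.injOn)

theorem isQuotientCoveringMap_pr : IsQuotientCoveringMap (pr h) (Gam h) :=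
  isQuotientCoveringMap_of_finite (fun g _ hg => Subtype.ext (free h g.2 hg))
    (finite_pairs_Gam h)

instance : T2Space (MM h) := t2Space_quotient_of_finite (finite_pairs_Gam h)

lemma finsum_ind_eq {X : R → ℝ} {F : Finset R} (hF : ∀ r ∉ F, X r = 0) :
    D.mass X = ∑ r ∈ F, D.Kp.indicator X r := by
  unfold CD.mass
  refine finsum_eq_sum_of_support_subset _ fun r hr => ?_
  by_contra h1
  apply hr
  by_cases h2 : r ∈ D.Kp
  · rw [indicator_of_mem h2]
    exact hF r h1
  · rw [indicator_of_notMem h2]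

/-- the part of the fundamental domain near `k` -/
def dom (h : MDz E R B T D d τ z) (k : R) : Set (CH h) :=
  {X | X.val k ≠ 0 ∧ 1 ≤ D.mass X.val ∧ D.mass X.val ≤ Real.exp 1}

lemma exists_compact {k : R} (hk : k ∈ D.Kp) : ∃ C : Set (CH h), IsCompact C ∧ dom h k ⊆ C := by
  classical
  set F := (D.fin k hk).toFinset with hFdef
  let mF : (R → ℝ) → ℝ := fun X => ∑ r ∈ F, D.Kp.indicator X r
  have hmF : Continuous mF := by
    refine continuous_finsetSum _ fun r _ => ?_
    by_cases h2 : r ∈ D.Kp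
    · simp only [indicator_of_mem h2]
      exact continuous_apply r
    · simp only [indicator_of_notMem h2]
      exact continuous_const
  let S : Set (R → ℝ) := {X | (∀ r, 0 ≤ X r) ∧ (∀ r ∉ F, X r = 0) ∧
    (∀ r r', ¬ (r ≤ r' ∨ r' ≤ r) → X r * X r' = 0) ∧ 1 ≤ mF X ∧ mF X ≤ Real.exp 1 ∧
    ∀ r ∉ D.Kp, X r ≤ mF X}
  have hS : IsClosed S := by
    have c := fun r : R => continuous_apply (A := fun _ : R => ℝ) r
    have i1 : IsClosed {X : R → ℝ | ∀ r, 0 ≤ X r} := by
      simp only [Set.ofPred_forall]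
      exact isClosed_iInter fun r => isClosed_le continuous_const (c r)
    have i2 : IsClosed {X : R → ℝ | ∀ r ∉ F, X r = 0} := by
      simp only [Set.ofPred_forall]
      exact isClosed_iInter fun r => isClosed_iInter fun _ => isClosed_eq (c r) continuous_const
    have i3 : IsClosed {X : R → ℝ | ∀ r r', ¬ (r ≤ r' ∨ r' ≤ r) → X r * X r' = 0} := by
      simp only [Set.ofPred_forall]
      exact isClosed_iInter fun r => isClosed_iInter fun r' => isClosed_iInter fun _ =>
        isClosed_eq ((c r).mul (c r')) continuous_const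
    have i4 : IsClosed {X : R → ℝ | ∀ r ∉ D.Kp, X r ≤ mF X} := by
      simp only [Set.ofPred_forall]
      exact isClosed_iInter fun r => isClosed_iInter fun _ => isClosed_le (c r) hmF
    exact i1.inter (i2.inter (i3.inter ((isClosed_le continuous_const hmF).inter
      ((isClosed_le hmF continuous_const).inter i4))))
  have hle : ∀ X ∈ S, ∀ r, X r ≤ Real.exp 1 := by
    intro X hX r
    obtain ⟨h0, h1, h2, h3, h4, h5⟩ := hX
    by_cases hr : r ∈ D.Kp
    · by_cases hrF : r ∈ F
      · refine le_trans ?_ h4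
        have := Finset.single_le_sum (f := fun r => D.Kp.indicator X r)
          (fun i _ => indicator_nonneg (fun r _ => h0 r) i) hrF
        simpa [hr] using this
      · rw [h1 r hrF]
        exact (Real.exp_pos _).le
    · exact (h5 r hr).trans h4
  have hSc : IsCompact S := by
    refine (isCompact_univ_pi (X := fun _ : R => ℝ)
      (s := fun _ => Set.Icc (0 : ℝ) (Real.exp 1)) fun _ => isCompact_Icc).of_isClosed_subset hS ?_
    intro X hX r _
    exact ⟨hX.1 r, hle X hX r⟩
  have hmass : ∀ X, (∀ r ∉ F, X r = 0) → D.mass X = mF X := fun X hX => finsum_ind_eq hX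
  have hSCh : ∀ X ∈ S, X ∈ D.Ch := by
    intro X hX
    obtain ⟨h0, h1, h2, h3, h4, h5⟩ := hX
    refine ⟨⟨h0, fun r r' hr hr' => ?_, ?_⟩, fun r hr => ?_⟩
    · by_contra hcon
      exact mul_ne_zero hr hr' (h2 r r' hcon)
    · by_contra hcon
      push Not at hcon
      have : mF X = 0 := by
        refine Finset.sum_eq_zero fun r _ => ?_
        by_cases hr : r ∈ D.Kp
        · rw [indicator_of_mem hr]
          exact hcon r hr
        · rw [indicator_of_notMem hr]
      rw [this] at h3
      linarith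
    · rw [hmass X h1]
      exact h5 r hr
  refine ⟨{X : CH h | X.val ∈ S}, ?_, ?_⟩
  · have h1 : IsInducing (CH.val (h := h)) := IsInducing.subtypeVal (t := D.Ch)
    rw [h1.isCompact_iff]
    have : CH.val '' {X : CH h | X.val ∈ S} = S := by
      ext X
      constructor
      · rintro ⟨Y, hY, rfl⟩
        exact hY
      · intro hX
        exact ⟨CH.mk h X (hSCh X hX), hX, rfl⟩
    rw [this]
    exact hSc
  · rintro X ⟨hX1, hX2, hX3⟩
    have hF : ∀ r ∉ F, X.val r = 0 := by
      intro r hr
      by_contra h1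
      apply hr
      rw [hFdef, Set.Finite.mem_toFinset]
      exact X.mem.1.2.1 r k h1 hX1
    have hm := hmass X.val hF
    refine ⟨X.mem.1.1, hF, fun r r' hr => ?_, by rwa [← hm], by rwa [← hm], fun r hr => ?_⟩
    · by_contra hcon
      exact hr (X.mem.1.2.1 r r' (left_ne_zero_of_mul hcon) (right_ne_zero_of_mul hcon))
    · rw [← hm]
      exact X.mem.2 r hr

lemma exists_move (X : CH h) {F : Finset R} (hF : ∀ k ∈ D.Kp, ∃ e : E, e • k ∈ F) :
    ∃ e : E, ∃ k ∈ F, e • X ∈ dom h k := by
  obtain ⟨k, hk, hk0⟩ := X.mem.1.2.2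
  obtain ⟨e, he⟩ := hF k hk
  set X1 : CH h := e • X with hX1
  have h1 : X1.val (e • k) ≠ 0 := by
    rw [hX1, CH.smul_val]
    unfold act
    rw [tr_smul]
    exact mul_ne_zero (Real.exp_pos _).ne' hk0
  have hpos := CD.mass_pos X1.mem.1
  set m : ℤ := -⌊Real.log (D.mass X1.val)⌋ with hm
  refine ⟨z ^ m * e, e • k, he, ?_⟩
  rw [mul_smul, ← hX1]
  have h2 : (z ^ m • X1).val = fun r => Real.exp m * X1.val r := by
    rw [CH.smul_val, act_zpow h m X1.mem.1]
  have h3 : D.mass (z ^ m • X1).val = Real.exp m * D.mass X1.val := by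
    rw [h2, mass_const_mul]
  have h4 : D.mass (z ^ m • X1).val = Real.exp (m + Real.log (D.mass X1.val)) := by
    rw [h3, Real.exp_add, Real.exp_log hpos]
  have h5 := Int.floor_le (Real.log (D.mass X1.val))
  have h6 := Int.lt_floor_add_one (Real.log (D.mass X1.val))
  refine ⟨?_, ?_, ?_⟩
  · rw [h2]
    exact mul_ne_zero (Real.exp_pos _).ne' h1
  · rw [h4, hm]
    push_cast
    rw [← Real.exp_zero]
    exact Real.exp_le_exp.2 (by linarith)
  · rw [h4, hm]
    push_cast
    exact Real.exp_le_exp.2 (by linarith)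

theorem compactSpace_MM [Finite T] : CompactSpace (MM h) := by
  classical
  obtain ⟨F, hFK, hF⟩ := h.fin
  have hC : ∀ k : R, ∃ C : Set (CH h), IsCompact C ∧ (k ∈ D.Kp → dom h k ⊆ C) := by
    intro k
    by_cases hk : k ∈ D.Kp
    · obtain ⟨C, h1, h2⟩ := exists_compact h hk
      exact ⟨C, h1, fun _ => h2⟩
    · exact ⟨∅, isCompact_empty, fun h1 => absurd h1 hk⟩
  choose C hC1 hC2 using hC
  have : Finite (T →₀ ZMod 2) := Finite.of_injective (fun f => (f : T → ZMod 2))
    DFunLike.coe_injective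
  have : Finite (Multiplicative (T →₀ ZMod 2)) := this
  have hfinr : (range (chiW h)).Finite := Set.toFinite _
  let wa : Multiplicative (T →₀ ZMod 2) → WW h := fun a =>
    if ha : ∃ w, chiW h w = a then ha.choose else 1
  have hwa : ∀ w, chiW h (wa (chiW h w)) = chiW h w := by
    intro w
    have hw : ∃ w', chiW h w' = chiW h w := ⟨w, rfl⟩
    show chiW h (if ha : ∃ w', chiW h w' = chiW h w then ha.choose else 1) = _
    rw [dif_pos hw]
    exact hw.choose_spec
  refine ⟨?_⟩
  have huniv : (univ : Set (MM h)) =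
      ⋃ a ∈ range (chiW h), ⋃ k ∈ F, (fun X : CH h => pr h (Unf.mk (mirs h) (wa a) X)) '' C k := by
    refine (eq_univ_of_forall fun x => ?_).symm
    obtain ⟨u, rfl⟩ := Quotient.exists_rep x
    obtain ⟨v, X, rfl⟩ := Unf.exists_rep u
    obtain ⟨e, k, hk, hX⟩ := exists_move h X hF
    refine mem_biUnion (x := chiW h v) ⟨v, rfl⟩ (mem_biUnion (x := k) hk ⟨e • X,
      hC2 k (hFK k hk) hX, ?_⟩)
    have hg : (⟨wa (chiW h v) * (racgAct (cm_smul h) e v)⁻¹, e⟩ : GG h) ∈ Gam h := by
      show chiW h (wa (chiW h v) * (racgAct (cm_smul h) e v)⁻¹) = 1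
      rw [map_mul, hwa, map_inv, chiW_act, mul_inv_cancel]
    refine Quotient.sound (s := MulAction.orbitRel (Gam h) (UU h))
      (MulAction.orbitRel_apply.2 ⟨⟨_, hg⟩, ?_⟩)
    show (⟨wa (chiW h v) * (racgAct (cm_smul h) e v)⁻¹, e⟩ : GG h) • Unf.mk (mirs h) v X = _
    rw [smul_mk, inv_mul_cancel_right]
  rw [huniv]
  refine hfinr.isCompact_biUnion fun a _ => F.finite_toSet.isCompact_biUnion fun k _ => ?_
  refine (hC1 k).image ?_
  exact continuous_quotient_mk'.comp (Unf.continuous_mk_right _)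

end Pool.Agent.Helper82.Circ
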