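import Pool.Agent.Helper82.Circ.Chamber
import Pool.Agent.Helper82.Circ.Base

/-!
The two combinatorial interfaces: a coloured complex with a group action, and a poset with a
group action and a developing map.
-/

open Topology Set Function

namespace Pool.Agent.Helper82.Circ

/-- A locally finite complex with contractible cone, a vertex colouring, and an action of `E`
which is regular with respect to the colouring; stabilisers are generated by `z`. -/
structure CovD (E V B : Type) [Group E] [MulAction E V] [DecidableEq V] [DecidableEq B]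
    (K : SC V) (κ : V → Option B) (z : E) : Prop where
  locFin : K.LocFin
  contr : ContractibleSpace K.cone
  inv : ∀ (e : E), ∀ s ∈ K.faces, s.image (e • ·) ∈ K.faces
  triv : ∀ v : V, z • v = v
  κ_smul : ∀ (e : E) (v : V), κ (e • v) = κ v
  κ_ne : ∀ s ∈ K.faces, ∀ v ∈ s, κ v ≠ none
  κ_inj : ∀ s ∈ K.faces, Set.InjOn κ s
  orb : ∀ s ∈ K.faces, ∀ s' ∈ K.faces, s.image κ = s'.image κ → ∃ e : E, s.image (e • ·) = s'
  stab : ∀ s ∈ K.faces, s.Nonempty → ∀ e : E, s.image (e • ·) = s → e ∈ Subgroup.zpowers z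

/-- The data from which the manifold is built. -/
structure MD (E R B T : Type) [Group E] [PartialOrder R] [MulAction E R] [Fintype B]
    (D : CD R) (d : R → B → ℝ) (τ : R → T) (z : E) : Prop where
  le_smul : ∀ (e : E) (r r' : R), r ≤ r' → e • r ≤ e • r'
  smul_mem : ∀ (e : E), ∀ k ∈ D.Kp, e • k ∈ D.Kp
  d_smul : ∀ (e : E) (r : R), d (e • r) = d r
  τ_smul : ∀ (e : E) (r : R), τ (e • r) = τ r
  τ_inj : ∀ r r' : R, r ≤ r' → τ r = τ r' → r = r'
  triv : ∀ r : R, z • r = r
  stab : ∀ k ∈ D.Kp, ∀ e : E, e • k = k → e ∈ Subgroup.zpowers z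
  fin : ∃ F : Finset R, (∀ k ∈ F, k ∈ D.Kp) ∧ ∀ k ∈ D.Kp, ∃ e : E, e • k ∈ F
  emb : ∀ k ∈ D.Kp, IsOpenEmbedding
    (fun X : {X : R → ℝ // X ∈ D.Y ∧ X k ≠ 0} => ∑ᶠ r, X.1 r • d r)
  contr : ContractibleSpace D.YK

end Pool.Agent.Helper82.Circ
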