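import Pool.Agent.Helper82.Circ.Refl

/-!
The torsion-free subgroup and its free action.
-/

open Topology Set Function

namespace Pool.Agent.Helper82.Circ

set_option linter.unusedSectionVars false

variable {E R B T : Type} [Group E] [PartialOrder R] [MulAction E R] [Fintype B]
  {D : CD R} {d : R → B → ℝ} {τ : R → T} {z : E} (h : MDz E R B T D d τ z)

/-- types of generators, mod 2 -/
noncomputable def chiW : WW h →* Multiplicative (T →₀ ZMod 2) :=
  Racg.lift (fun s => Multiplicative.ofAdd (Finsupp.single (τ s.val) 1)) (by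
    intro s
    rw [← ofAdd_add, ← Finsupp.single_add]
    have : (1 : ZMod 2) + 1 = 0 := by decide
    rw [this, Finsupp.single_zero, ofAdd_zero]) (by
    intro s t _
    exact mul_comm _ _)

@[simp] lemma chiW_gen (s : SS h) :
    chiW h (gen (cm h) s) = Multiplicative.ofAdd (Finsupp.single (τ s.val) 1) := by
  simp [chiW]

lemma chiW_act (e : E) (w : WW h) : chiW h (racgAct (cm_smul h) e w) = chiW h w := by
  have : (chiW h).comp (racgMap (cm_smul h) e) = chiW h := Racg.hom_ext fun s => by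
    simp [SS.smul_val, h.τ_smul]
  exact DFunLike.congr_fun this w

/-- types of generators, mod 2, on the big group -/
noncomputable def chi : GG h →* Multiplicative (T →₀ ZMod 2) where
  toFun g := chiW h g.left
  map_one' := by simp
  map_mul' g g' := by
    rw [SemidirectProduct.mul_left, map_mul, chiW_act]

lemma chi_apply (g : GG h) : chi h g = chiW h g.left := rfl

/-- the group of the manifold -/
noncomputable def Gam : Subgroup (GG h) := (chi h).ker

lemma cm_of_mirS (X : CH h) : ∀ s ∈ mirS h X, ∀ t ∈ mirS h X, s ≠ t → cm h s t :=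
  (mirs h).clique X

lemma τ_injOn (X : CH h) : InjOn (fun s : SS h => τ s.val) (mirS h X) := by
  intro s hs t ht hst
  rcases CD.mir_chain X.mem hs ht with h1 | h1
  · exact SS.ext (h.τ_inj _ _ h1 hst)
  · exact (SS.ext (h.τ_inj _ _ h1 hst.symm)).symm

/-- `e • X = X` implies `e = 1` -/
lemma smul_eq_self {e : E} {X : CH h} (he : e • X = X) : e = 1 := by
  have hX := X.mem.1
  have hval : act D z e X.val = X.val := congrArg CH.val he
  have hfin : (support X.val).Finite := CD.supp_finite hX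
  have hsupp : ∀ r, X.val r ≠ 0 → X.val (e • r) ≠ 0 := by
    intro r hr
    rw [← hval]
    unfold act
    rw [tr_smul]
    exact mul_ne_zero (Real.exp_pos _).ne' hr
  obtain ⟨k, hk, hk0⟩ := hX.2.2
  have hcomp := hX.2.1 _ _ hk0 (hsupp k hk0)
  have hek : e • k = k := by
    rcases hcomp with h1 | h1
    · exact (h.τ_inj _ _ h1 (h.τ_smul e k).symm).symm
    · exact h.τ_inj _ _ h1 (h.τ_smul e k)
  obtain ⟨m, hm⟩ := h.stab k hk e hek
  have hm' : z ^ m = e := hm
  rw [← hm', act_zpow h m hX] at hval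
  have h1 := congrFun hval k
  have h2 : Real.exp m = 1 := by
    have h3 : Real.exp m * X.val k = 1 * X.val k := by rw [one_mul]; exact h1
    exact mul_right_cancel₀ hk0 h3
  have h3 : (m : ℝ) = 0 := by
    rw [← Real.exp_eq_one_iff]
    exact h2
  have h4 : m = 0 := by exact_mod_cast h3
  rw [← hm', h4, zpow_zero]

theorem free {g : GG h} (hg : g ∈ Gam h) {u : UU h} (hu : g • u = u) : g = 1 := by
  obtain ⟨v, X, rfl⟩ := Unf.exists_rep u
  rw [smul_mk] at hu
  obtain ⟨h1, h2⟩ := Unf.mk_eq_mk.1 hu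
  have hr : g.right = 1 := smul_eq_self h h1
  rw [h1] at h2
  rw [hr, map_one, MulAut.one_apply] at h2
  have h3 : v⁻¹ * (g.left * v) ∈ Subgroup.closure (gen (cm h) '' mirS h X) := by
    have := Subgroup.inv_mem _ h2
    rwa [mul_inv_rev, inv_inv] at this
  have h4 : chiW h (v⁻¹ * (g.left * v)) = 1 := by
    have h5 : chiW h g.left = 1 := hg
    rw [map_mul, map_mul, h5, one_mul, ← map_mul, inv_mul_cancel, map_one]
  have h5 := clique_eq_one (fun s : SS h => τ s.val) (cm_of_mirS h X) (τ_injOn h X) (chiW h)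
    (chiW_gen h) h3 h4
  have h6 : g.left = 1 := by
    have h7 : g.left * v = v := by
      rw [inv_mul_eq_one] at h5
      exact h5.symm
    exact mul_eq_right.1 h7
  exact SemidirectProduct.ext h6 hr

/-- bound for the dilation -/
lemma exists_shift_bound (e : E) (k : R) (hk : k ∈ D.Kp) :
    ∃ C : ℝ, ∀ X ∈ D.Y, X k ≠ 0 → |shift D z e X| ≤ C := by
  obtain ⟨C, hC⟩ : ∃ C : ℝ, ∀ r, r ≤ k ∨ k ≤ r → |(cc z e r : ℝ)| ≤ C := by
    obtain ⟨C, hC⟩ := ((D.fin k hk).image fun r => |(cc z e r : ℝ)|).bddAbove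
    exact ⟨C, fun r hr => hC ⟨r, hr, rfl⟩⟩
  refine ⟨C, fun X hX hX0 => ?_⟩
  unfold shift
  rw [abs_div, abs_of_pos (CD.mass_pos hX), div_le_iff₀ (CD.mass_pos hX)]
  unfold wt CD.mass
  have hfin := CD.supp_ind_finite hX
  have hsub : support (D.Kp.indicator fun r => X r * (cc z e r : ℝ)) ⊆ hfin.toFinset := by
    intro r hr
    rw [Set.Finite.coe_toFinset]
    intro h0
    apply hr
    by_cases h1 : r ∈ D.Kp
    · rw [indicator_of_mem h1] at h0 ⊢
      rw [h0, zero_mul]
    · rw [indicator_of_notMem h1]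
  rw [finsum_eq_sum_of_support_subset _ hsub, finsum_eq_sum _ hfin, Finset.mul_sum]
  refine (Finset.abs_sum_le_sum_abs _ _).trans (Finset.sum_le_sum fun r hr => ?_)
  rw [Set.Finite.mem_toFinset] at hr
  by_cases h1 : r ∈ D.Kp
  · rw [indicator_of_mem h1, indicator_of_mem h1, abs_mul, abs_of_nonneg (hX.1 r), mul_comm]
    have h2 : X r ≠ 0 := by
      intro h3
      apply hr
      rw [indicator_of_mem h1, h3]
    exact mul_le_mul_of_nonneg_right (hC r (hX.2.1 r k h2 hX0)) (hX.1 r)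
  · rw [indicator_of_notMem h1, indicator_of_notMem h1]
    simp

include h in
lemma shift_mul_zpow (e : E) (m : ℤ) {X : R → ℝ} (hX : X ∈ D.Y) :
    shift D z (e * z ^ m) X = shift D z e X + m := by
  rw [shift_mul h e _ hX, act_zpow h m hX, shift_const_mul (Real.exp_pos _).ne']
  congr 1
  unfold shift
  rw [wt_zpow h, mul_div_assoc, div_self (CD.mass_pos hX).ne', mul_one]

include h in
lemma finite_E {k k' : R} (hk : k ∈ D.Kp) (hk' : k' ∈ D.Kp) {a b : ℝ} (ha : 0 < a) :
    {e : E | ∃ Y ∈ D.Y, Y k ≠ 0 ∧ act D z e Y k' ≠ 0 ∧ a ≤ D.mass Y ∧ D.mass Y ≤ b ∧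
      a ≤ D.mass (act D z e Y) ∧ D.mass (act D z e Y) ≤ b}.Finite := by
  classical
  let er : R → E := fun r => if hr : ∃ e : E, e • k = r then hr.choose else 1
  have her : ∀ r, (∃ e : E, e • k = r) → er r • k = r := by
    intro r hr
    show (if hr : ∃ e : E, e • k = r then hr.choose else 1) • k = r
    rw [dif_pos hr]
    exact hr.choose_spec
  choose C hC using fun e => exists_shift_bound (D := D) (z := z) e k hk
  have hfin : (⋃ r ∈ {r : R | r ≤ k' ∨ k' ≤ r},
      (fun m : ℤ => er r * z ^ m) '' (Set.Icc (-⌈C (er r) + (Real.log b - Real.log a)⌉)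
        ⌈C (er r) + (Real.log b - Real.log a)⌉)).Finite :=
    (D.fin k' hk').biUnion fun r _ => (Set.finite_Icc _ _).image _
  refine hfin.subset ?_
  rintro e ⟨Y, hY, hYk, hYk', h1, h2, h3, h4⟩
  have hek : act D z e Y (e • k) ≠ 0 := by
    unfold act
    rw [tr_smul]
    exact mul_ne_zero (Real.exp_pos _).ne' hYk
  have hcomp := (act_mem_Y h e hY).2.1 _ _ hek hYk'
  have h5 := her (e • k) ⟨e, rfl⟩
  have h6 : ((er (e • k))⁻¹ * e) • k = k := by
    rw [mul_smul, inv_smul_eq_iff, h5]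
  obtain ⟨m, hm⟩ := h.stab k hk _ h6
  have hm' : z ^ m = (er (e • k))⁻¹ * e := hm
  have he : er (e • k) * z ^ m = e := by rw [hm', mul_inv_cancel_left]
  refine mem_biUnion (x := e • k) hcomp ⟨m, ?_, he⟩
  have h7 := shift_mul_zpow h (er (e • k)) m hY
  rw [he] at h7
  have h8 := hC (er (e • k)) Y hY hYk
  have hb : 0 < b := lt_of_lt_of_le ha (h1.trans h2)
  have h9 : |shift D z e Y| ≤ Real.log b - Real.log a := by
    have h10 : D.mass (act D z e Y) = Real.exp (shift D z e Y) * D.mass Y := mass_act h e Y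
    have h11 : Real.log (D.mass (act D z e Y)) = shift D z e Y + Real.log (D.mass Y) := by
      rw [h10, Real.log_mul (Real.exp_pos _).ne' (CD.mass_pos hY).ne', Real.log_exp]
    have h12 := Real.log_le_log ha h1
    have h13 := Real.log_le_log (CD.mass_pos hY) h2
    have h14 := Real.log_le_log ha h3
    have h15 := Real.log_le_log (CD.mass_pos (act_mem_Y h e hY)) h4
    rw [abs_le]
    constructor <;> linarith
  have h16 : |(m : ℝ)| ≤ C (er (e • k)) + (Real.log b - Real.log a) := by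
    have h17 : (m : ℝ) = shift D z e Y - shift D z (er (e • k)) Y := by linarith
    rw [h17]
    refine (abs_sub _ _).trans ?_
    linarith
  rw [abs_le] at h16
  refine Set.mem_Icc.2 ⟨?_, ?_⟩
  · have h18 : -(m : ℝ) ≤ C (er (e • k)) + (Real.log b - Real.log a) := by linarith [h16.1]
    have h19 : (-m : ℤ) ≤ ⌈C (er (e • k)) + (Real.log b - Real.log a)⌉ := by
      have h20 : ((-m : ℤ) : ℝ) ≤ ⌈C (er (e • k)) + (Real.log b - Real.log a)⌉ := by
        push_cast
        exact h18.trans (Int.le_ceil _)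
      exact_mod_cast h20
    linarith
  · have h20 : ((m : ℤ) : ℝ) ≤ ⌈C (er (e • k)) + (Real.log b - Real.log a)⌉ :=
      h16.2.trans (Int.le_ceil _)
    exact_mod_cast h20

lemma exists_nhd (X : CH h) : ∃ (O : Set (CH h)) (k : R) (a b : ℝ), IsOpen O ∧ X ∈ O ∧ k ∈ D.Kp ∧
    0 < a ∧ ∀ Y ∈ O, Y.val k ≠ 0 ∧ mirS h Y ⊆ mirS h X ∧ a ≤ D.mass Y.val ∧ D.mass Y.val ≤ b := by
  obtain ⟨k, hk, hk0⟩ := X.mem.1.2.2
  have h1 : ∀ᶠ Y : CH h in 𝓝 X, Y.val k ≠ 0 :=
    (isOpen_ne.preimage (CH.continuous_apply h k)).mem_nhds hk0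
  have h2 : ∀ᶠ Y : CH h in 𝓝 X, mirS h Y ⊆ mirS h X := (mirs h).nhds X
  have hmass : Continuous fun Y : CH h => D.mass Y.val := CD.continuous_mass_ch (D := D)
  have hpos := CD.mass_pos X.mem.1
  have h3 : ∀ᶠ Y : CH h in 𝓝 X, D.mass X.val / 2 < D.mass Y.val :=
    (isOpen_lt continuous_const hmass).mem_nhds (by
      show D.mass X.val / 2 < D.mass X.val
      linarith)
  have h4 : ∀ᶠ Y : CH h in 𝓝 X, D.mass Y.val < 2 * D.mass X.val :=
    (isOpen_lt hmass continuous_const).mem_nhds (by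
      show D.mass X.val < 2 * D.mass X.val
      linarith)
  obtain ⟨O, hO, hO1, hO2⟩ := mem_nhds_iff.1 (h1.and (h2.and (h3.and h4)))
  exact ⟨O, k, D.mass X.val / 2, 2 * D.mass X.val, hO1, hO2, hk, by linarith, fun Y hY =>
    ⟨(hO hY).1, (hO hY).2.1, (hO hY).2.2.1.le, (hO hY).2.2.2.le⟩⟩

theorem finite_pairs (u u' : UU h) : ∃ O ∈ 𝓝 u, ∃ O' ∈ 𝓝 u',
    {g : GG h | ((g • ·) '' O ∩ O').Nonempty}.Finite := by
  obtain ⟨v, X, rfl⟩ := Unf.exists_rep u
  obtain ⟨v', X', rfl⟩ := Unf.exists_rep u'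
  obtain ⟨O, k, a, b, hO, hXO, hk, ha, hOY⟩ := exists_nhd h X
  obtain ⟨O', k', a', b', hO', hXO', hk', ha', hOY'⟩ := exists_nhd h X'
  have hZ : ∀ Y ∈ O, (mirs h).mir Y ⊆ mirS h X := fun Y hY => (hOY Y hY).2.1
  have hZ' : ∀ Y ∈ O', (mirs h).mir Y ⊆ mirS h X' := fun Y hY => (hOY' Y hY).2.1
  refine ⟨Unf.basic (mirs h) v (mirS h X) O, (Unf.isOpen_basic hZ hO).mem_nhds ?_,
    Unf.basic (mirs h) v' (mirS h X') O', (Unf.isOpen_basic hZ' hO').mem_nhds ?_, ?_⟩
  · refine (Unf.mk_mem_basic hZ).2 ⟨hXO, ?_⟩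
    rw [inv_mul_cancel]
    exact Subgroup.one_mem _
  · refine (Unf.mk_mem_basic hZ').2 ⟨hXO', ?_⟩
    rw [inv_mul_cancel]
    exact Subgroup.one_mem _
  · have hE := finite_E h (k := k) (k' := k') hk hk' (a := min a a') (b := max b b')
      (lt_min ha ha')
    have hC := closure_clique_finite (cm_of_mirS h X) ((mirs h).finite X)
    have hC' := closure_clique_finite (cm_of_mirS h X') ((mirs h).finite X')
    refine ((hE.prod (hC.prod hC')).image (fun p : E × WW h × WW h =>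
      (⟨v' * p.2.2 * (racgAct (cm_smul h) p.1 (v * p.2.1))⁻¹, p.1⟩ : GG h))).subset ?_
    rintro g ⟨_, ⟨u, hu, rfl⟩, hu'⟩
    obtain ⟨w, Y, rfl⟩ := Unf.exists_rep u
    obtain ⟨hY, hw⟩ := (Unf.mk_mem_basic hZ).1 hu
    change g • Unf.mk (mirs h) w Y ∈ _ at hu'
    rw [smul_mk] at hu'
    obtain ⟨hY', hw'⟩ := (Unf.mk_mem_basic hZ').1 hu'
    obtain ⟨a1, -, a3, a4⟩ := hOY Y hY
    obtain ⟨b1, -, b3, b4⟩ := hOY' _ hY'
    refine ⟨(g.right, v⁻¹ * w, v'⁻¹ * (g.left * racgAct (cm_smul h) g.right w)),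
      ⟨⟨Y.val, Y.mem.1, a1, b1, (min_le_left _ _).trans a3, a4.trans (le_max_left _ _),
        (min_le_right _ _).trans b3, b4.trans (le_max_right _ _)⟩, hw, hw'⟩, ?_⟩
    refine SemidirectProduct.ext ?_ rfl
    simp only
    rw [mul_inv_cancel_left, mul_inv_cancel_left, mul_inv_cancel_right]

end Pool.Agent.Helper82.Circ
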