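import Pool.Agent.Helper82.Circ.Refl

/-!
Generic points of the developing map.
-/

open Topology Set Function MeasureTheory

namespace Pool.Agent.Helper82.Circ

set_option linter.unusedSectionVars false

variable {E R B T : Type} [Group E] [PartialOrder R] [MulAction E R] [Fintype B]
  {D : CD R} {d : R → B → ℝ} {τ : R → T} {z : E} (h : MDz E R B T D d τ z)

lemma dev_eq_sum {X : R → ℝ} {F : Finset R} (hF : ∀ r ∉ F, X r = 0) :
    ∑ᶠ r, X r • d r = ∑ r ∈ F, X r • d r := by
  refine finsum_eq_sum_of_support_subset _ fun r hr => ?_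
  by_contra h1
  apply hr
  show X r • d r = 0
  rw [hF r h1, zero_smul]

include h in
theorem linearIndependent_supp {k : R} (hk : k ∈ D.Kp) {Y : R → ℝ} (hY : Y ∈ D.Y) (hYk : Y k ≠ 0)
    {C : Finset R} (hC : ∀ r, r ∈ C ↔ Y r ≠ 0) : LinearIndependent ℝ (fun r : C => d r) := by
  classical
  rw [Fintype.linearIndependent_iff]
  intro g hg
  by_contra hcon
  push Not at hcon
  obtain ⟨r0, hr0⟩ := hcon
  let g' : R → ℝ := fun r => if hr : r ∈ C then g ⟨r, hr⟩ else 0
  have hg' : ∀ r : C, g' r = g r := fun r => by simp [g']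
  have hev : ∀ᶠ ε : ℝ in 𝓝 0, ∀ r ∈ C, 0 < Y r + ε * g' r := by
    rw [Finset.eventually_all]
    intro r hr
    have hc : Continuous fun ε : ℝ => Y r + ε * g' r := by fun_prop
    refine (isOpen_lt continuous_const hc).mem_nhds ?_
    show 0 < Y r + 0 * g' r
    rw [zero_mul, add_zero]
    exact lt_of_le_of_ne (hY.1 r) (Ne.symm ((hC r).1 hr))
  obtain ⟨ε, hε, hε0⟩ := ((hev.filter_mono nhdsWithin_le_nhds : ∀ᶠ ε in 𝓝[≠] (0 : ℝ), _).and
    self_mem_nhdsWithin).exists
  let Y' : R → ℝ := fun r => Y r + ε * g' r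
  have hY'C : ∀ r ∉ C, Y' r = 0 := by
    intro r hr
    have h1 : Y r = 0 := by
      by_contra h2
      exact hr ((hC r).2 h2)
    simp [Y', g', hr, h1]
  have hY'ne : ∀ r, Y' r ≠ 0 → Y r ≠ 0 := fun r hr => by
    rw [← hC]
    by_contra h2
    exact hr (hY'C r h2)
  have hkC : k ∈ C := (hC k).2 hYk
  have hY' : Y' ∈ D.Y := by
    refine ⟨fun r => ?_, fun r r' hr hr' => hY.2.1 r r' (hY'ne r hr) (hY'ne r' hr'), k, hk,
      (hε k hkC).ne'⟩
    by_cases hr : r ∈ C
    · exact (hε r hr).le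
    · exact (hY'C r hr).ge
  have hYC : ∀ r ∉ C, Y r = 0 := fun r hr => by
    by_contra h2
    exact hr ((hC r).2 h2)
  have heq : ∑ᶠ r, Y' r • d r = ∑ᶠ r, Y r • d r := by
    rw [dev_eq_sum hY'C, dev_eq_sum hYC]
    simp only [Y', add_smul]
    rw [Finset.sum_add_distrib]
    have h3 : ∑ r ∈ C, (ε * g' r) • d r = 0 := by
      rw [← Finset.sum_coe_sort]
      simp_rw [mul_smul, hg']
      rw [← Finset.smul_sum, hg, smul_zero]
    rw [h3, add_zero]
  have hinj := (h.emb k hk).injective (a₁ := ⟨Y', hY', (hε k hkC).ne'⟩) (a₂ := ⟨Y, hY, hYk⟩) heq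
  have h4 : Y' r0 = Y r0 := congrFun (congrArg Subtype.val hinj) r0
  have h5 : ε * g' r0 = 0 := by
    have : Y r0 + ε * g' r0 = Y r0 := h4
    linarith
  rcases mul_eq_zero.1 h5 with h6 | h6
  · exact hε0 h6
  · exact hr0 (by rw [← hg' r0, h6])

lemma measure_span_null {S : Submodule ℝ (B → ℝ)} (hS : S ≠ ⊤) :
    (volume : Measure (B → ℝ)) (S : Set (B → ℝ)) = 0 := Measure.addHaar_submodule _ S hS

include h in
theorem exists_generic {k : R} (hk : k ∈ D.Kp) {V : Set (B → ℝ)} (hV : IsOpen V)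
    (hne : V.Nonempty) : ∃ y ∈ V, ∀ Y ∈ D.Y, Y k ≠ 0 → ∑ᶠ r, Y r • d r = y →
      (support Y).ncard = Fintype.card B ∧ ∀ r ∉ D.Kp, Y r ≠ D.mass Y := by
  classical
  set F := (D.fin k hk).toFinset with hF
  let dd : R → R → B → ℝ := fun r0 r => if r ∈ D.Kp then d r + d r0 else d r
  let S1 : Finset R → Submodule ℝ (B → ℝ) := fun C => Submodule.span ℝ (C.image d)
  let S2 : Finset R × R → Submodule ℝ (B → ℝ) := fun p =>
    Submodule.span ℝ ((p.1.erase p.2).image (dd p.2))
  let SS' : Set (Submodule ℝ (B → ℝ)) :=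
    (S1 '' (F.powerset : Set (Finset R)) ∪ S2 '' ((F.powerset ×ˢ F : Finset (Finset R × R)) :
      Set (Finset R × R))) ∩ {S | S ≠ ⊤}
  have hfin : SS'.Finite := (((Finset.finite_toSet _).image _).union
    ((Finset.finite_toSet _).image _)).inter_of_left _
  have hnull : (volume : Measure (B → ℝ)) (⋃ S ∈ SS', (S : Set (B → ℝ))) = 0 := by
    rw [measure_biUnion_null_iff hfin.countable]
    exact fun S hS => measure_span_null hS.2
  obtain ⟨y, hy, hyS⟩ : ∃ y ∈ V, y ∉ ⋃ S ∈ SS', (S : Set (B → ℝ)) := by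
    by_contra hcon
    push Not at hcon
    have h1 : (volume : Measure (B → ℝ)) V ≤ 0 := by
      rw [← hnull]
      exact measure_mono hcon
    exact (hV.measure_pos volume hne).ne' (le_antisymm h1 zero_le)
  refine ⟨y, hy, fun Y hY hYk hYy => ?_⟩
  set C := (CD.supp_finite hY).toFinset with hCdef
  have hC : ∀ r, r ∈ C ↔ Y r ≠ 0 := fun r => by rw [hCdef, Set.Finite.mem_toFinset]; rfl
  have hCF : C ⊆ F := by
    intro r hr
    rw [hF, Set.Finite.mem_toFinset]
    exact hY.2.1 r k ((hC r).1 hr) hYk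
  have hYC : ∀ r ∉ C, Y r = 0 := fun r hr => by
    by_contra h2
    exact hr ((hC r).2 h2)
  have hcard : (support Y).ncard = C.card := by
    exact Set.ncard_eq_toFinset_card _ (CD.supp_finite hY)
  have hfr : Module.finrank ℝ (B → ℝ) = Fintype.card B := Module.finrank_fintype_fun_eq_card ℝ
  have hli := linearIndependent_supp h hk hY hYk hC
  have hle : C.card ≤ Fintype.card B := by
    have := hli.fintype_card_le_finrank
    rwa [hfr, Fintype.card_coe] at this
  have hy1 : y = ∑ r ∈ C, Y r • d r := by rw [← hYy, dev_eq_sum hYC]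
  have hnot : ∀ S, (S ∈ S1 '' (F.powerset : Set (Finset R)) ∪ S2 '' ((F.powerset ×ˢ F :
      Finset (Finset R × R)) : Set (Finset R × R))) → y ∈ S → S = ⊤ := by
    intro S hS hyS'
    by_contra hcon
    exact hyS (mem_biUnion (x := S) ⟨hS, hcon⟩ hyS')
  have htop : S1 C = ⊤ := by
    refine hnot _ (Or.inl ⟨C, Finset.mem_coe.2 (Finset.mem_powerset.2 hCF), rfl⟩) ?_
    rw [hy1]
    exact Submodule.sum_mem _ fun r hr => Submodule.smul_mem _ _
      (Submodule.subset_span (Finset.mem_coe.2 (Finset.mem_image_of_mem _ hr)))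
  have hge : Fintype.card B ≤ C.card := by
    have h1 := finrank_span_finset_le_card (R := ℝ) (C.image d)
    change Module.finrank ℝ (S1 C) ≤ _ at h1
    rw [htop, finrank_top, hfr] at h1
    exact h1.trans Finset.card_image_le
  refine ⟨by rw [hcard]; omega, fun r0 hr0 heq => ?_⟩
  have hr0C : r0 ∈ C := by
    rw [hC, heq]
    exact (CD.mass_pos hY).ne'
  have hm : D.mass Y = ∑ r ∈ C, D.Kp.indicator Y r := by
    unfold CD.mass
    refine finsum_eq_sum_of_support_subset _ fun r hr => ?_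
    by_contra h1
    apply hr
    by_cases h2 : r ∈ D.Kp
    · rw [indicator_of_mem h2]
      exact hYC r h1
    · rw [indicator_of_notMem h2]
  have hm2 : Y r0 = ∑ r ∈ C.erase r0, D.Kp.indicator Y r := by
    rw [heq, hm, ← Finset.add_sum_erase _ _ hr0C, indicator_of_notMem hr0, zero_add]
  have htop2 : S2 (C, r0) = ⊤ := by
    refine hnot _ (Or.inr ⟨(C, r0), ?_, rfl⟩) ?_
    · rw [Finset.mem_coe, Finset.mem_product]
      exact ⟨Finset.mem_powerset.2 hCF, hCF hr0C⟩
    · have hy2 : y = ∑ r ∈ C.erase r0, Y r • dd r0 r := by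
        rw [hy1, ← Finset.add_sum_erase _ _ hr0C, hm2, Finset.sum_smul, ← Finset.sum_add_distrib]
        refine Finset.sum_congr rfl fun r _ => ?_
        by_cases h2 : r ∈ D.Kp
        · simp only [dd, if_pos h2, indicator_of_mem h2, smul_add]
          rw [add_comm]
        · simp only [dd, if_neg h2, indicator_of_notMem h2, zero_smul, zero_add]
      rw [hy2]
      exact Submodule.sum_mem _ fun r hr => Submodule.smul_mem _ _
        (Submodule.subset_span (Finset.mem_coe.2 (Finset.mem_image_of_mem _ hr)))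
  have h1 := finrank_span_finset_le_card (R := ℝ) ((C.erase r0).image (dd r0))
  change Module.finrank ℝ (S2 (C, r0)) ≤ _ at h1
  rw [htop2, finrank_top, hfr] at h1
  have h2 := h1.trans Finset.card_image_le
  rw [Finset.card_erase_of_mem hr0C] at h2
  have h3 := Finset.card_pos.2 ⟨r0, hr0C⟩
  omega

end Pool.Agent.Helper82.Circ
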