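import Pool.Agent.Helper82.Circ.Racg

/-!
The basic construction: a space with mirrors unfolded along a right-angled Coxeter group.
-/

open Topology Set Function

namespace Pool.Agent.Helper82.Circ

/-- a space with mirrors indexed by `S` -/
structure Mir (S : Type) (comm : S → S → Prop) (Y : Type) [TopologicalSpace Y] where
  mir : Y → Set S
  nhds : ∀ y, ∀ᶠ y' in 𝓝 y, mir y' ⊆ mir y
  clique : ∀ y, ∀ s ∈ mir y, ∀ s' ∈ mir y, s ≠ s' → comm s s'
  finite : ∀ y, (mir y).Finite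

instance {S : Type} {comm : S → S → Prop} : TopologicalSpace (Racg comm) := ⊥
instance {S : Type} {comm : S → S → Prop} : DiscreteTopology (Racg comm) := ⟨rfl⟩

variable {S : Type} {comm : S → S → Prop} {Y : Type} [TopologicalSpace Y]

/-- `(w, y) ~ (w', y')` iff `y = y'` and `w⁻¹ w'` lies in the group generated by the mirrors
through `y` -/
def Mir.setoid (m : Mir S comm Y) : Setoid (Racg comm × Y) where
  r p q := p.2 = q.2 ∧ p.1⁻¹ * q.1 ∈ Subgroup.closure (gen comm '' m.mir p.2)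
  iseqv := by
    refine ⟨fun p => ⟨rfl, ?_⟩, ?_, ?_⟩
    · rw [inv_mul_cancel]
      exact Subgroup.one_mem _
    · rintro p q ⟨h1, h2⟩
      refine ⟨h1.symm, ?_⟩
      rw [← h1]
      have := Subgroup.inv_mem _ h2
      rwa [mul_inv_rev, inv_inv] at this
    · rintro p q r ⟨h1, h2⟩ ⟨h3, h4⟩
      refine ⟨h1.trans h3, ?_⟩
      rw [← h1] at h4
      have := Subgroup.mul_mem _ h2 h4
      rwa [← mul_assoc, mul_assoc p.1⁻¹, mul_inv_cancel, mul_one] at this

/-- the unfolded space -/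
def Unf (m : Mir S comm Y) : Type := Quotient m.setoid

instance (m : Mir S comm Y) : TopologicalSpace (Unf m) :=
  inferInstanceAs (TopologicalSpace (Quotient m.setoid))

namespace Unf

variable (m : Mir S comm Y)

/-- the point `[w, y]` -/
def mk (w : Racg comm) (y : Y) : Unf m := Quotient.mk m.setoid (w, y)

variable {m}

lemma mk_eq_mk {w w' : Racg comm} {y y' : Y} :
    mk m w y = mk m w' y' ↔ y = y' ∧ w⁻¹ * w' ∈ Subgroup.closure (gen comm '' m.mir y) :=
  Quotient.eq (r := m.setoid)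

lemma exists_rep (u : Unf m) : ∃ w y, mk m w y = u := by
  obtain ⟨⟨w, y⟩, rfl⟩ := Quotient.exists_rep u
  exact ⟨w, y, rfl⟩

lemma isQuotientMap_mk : IsQuotientMap (fun p : Racg comm × Y => mk m p.1 p.2) :=
  isQuotientMap_quotient_mk'

lemma continuous_mk : Continuous (fun p : Racg comm × Y => mk m p.1 p.2) :=
  isQuotientMap_mk.continuous

lemma continuous_mk_right (w : Racg comm) : Continuous (mk m w) :=
  continuous_mk.comp (Continuous.prodMk_right w)

/-- a map out of the unfolded space -/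
def lift {Z : Type*} (f : Racg comm → Y → Z)
    (h : ∀ w w' y, w⁻¹ * w' ∈ Subgroup.closure (gen comm '' m.mir y) → f w y = f w' y) :
    Unf m → Z :=
  Quotient.lift (fun p : Racg comm × Y => f p.1 p.2) (by
    rintro ⟨w, y⟩ ⟨w', y'⟩ ⟨h1, h2⟩
    obtain rfl : y = y' := h1
    exact h w w' y h2)

@[simp] lemma lift_mk {Z : Type*} (f : Racg comm → Y → Z)
    (h : ∀ w w' y, w⁻¹ * w' ∈ Subgroup.closure (gen comm '' m.mir y) → f w y = f w' y)
    (w : Racg comm) (y : Y) : lift f h (mk m w y) = f w y := rfl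

lemma continuous_lift {Z : Type*} [TopologicalSpace Z] {f : Racg comm → Y → Z}
    {h : ∀ w w' y, w⁻¹ * w' ∈ Subgroup.closure (gen comm '' m.mir y) → f w y = f w' y}
    (hf : ∀ w, Continuous (f w)) : Continuous (lift f h) := by
  rw [isQuotientMap_mk.continuous_iff]
  exact continuous_prod_of_discrete_left.2 hf

/-- the second coordinate -/
def snd : Unf m → Y := lift (fun _ y => y) (fun _ _ _ _ => rfl)

@[simp] lemma snd_mk (w : Racg comm) (y : Y) : snd (mk m w y) = y := rfl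

lemma continuous_snd : Continuous (snd (m := m)) := continuous_lift fun _ => continuous_id

/-- the basic sets -/
def basic (m : Mir S comm Y) (w : Racg comm) (Z : Set S) (O : Set Y) : Set (Unf m) :=
  {u | ∃ g ∈ Subgroup.closure (gen comm '' Z), ∃ y ∈ O, mk m (w * g) y = u}

lemma mk_mem_basic {w w' : Racg comm} {Z : Set S} {O : Set Y} (hO : ∀ y ∈ O, m.mir y ⊆ Z)
    {y : Y} : mk m w' y ∈ basic m w Z O ↔
      y ∈ O ∧ w⁻¹ * w' ∈ Subgroup.closure (gen comm '' Z) := by
  constructor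
  · rintro ⟨g, hg, y', hy', h⟩
    obtain ⟨h1, h2⟩ := mk_eq_mk.1 h
    subst h1
    refine ⟨hy', ?_⟩
    have h3 := Subgroup.closure_mono (image_mono (hO _ hy')) h2
    have h4 := Subgroup.mul_mem _ hg h3
    rwa [mul_inv_rev, mul_assoc, mul_inv_cancel_left] at h4
  · rintro ⟨h1, h2⟩
    exact ⟨w⁻¹ * w', h2, y, h1, by rw [mul_inv_cancel_left]⟩

lemma isOpen_basic {w : Racg comm} {Z : Set S} {O : Set Y} (hO : ∀ y ∈ O, m.mir y ⊆ Z)
    (ho : IsOpen O) : IsOpen (basic m w Z O) := by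
  rw [← isQuotientMap_mk.isOpen_preimage]
  have : (fun p : Racg comm × Y => mk m p.1 p.2) ⁻¹' basic m w Z O =
      {w' | w⁻¹ * w' ∈ Subgroup.closure (gen comm '' Z)} ×ˢ O := by
    ext ⟨w', y⟩
    rw [mem_preimage, mk_mem_basic hO]
    exact and_comm
  rw [this]
  exact (isOpen_discrete _).prod ho

/-- an open neighbourhood on which only the mirrors of `y` occur -/
lemma exists_small (m : Mir S comm Y) (y : Y) : ∃ O : Set Y, IsOpen O ∧ y ∈ O ∧ ∀ y' ∈ O, m.mir y' ⊆ m.mir y := by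
  obtain ⟨O, h1, h2, h3⟩ := mem_nhds_iff.1 (m.nhds y)
  exact ⟨O, h2, h3, fun y' hy' => h1 hy'⟩

theorem t2_unf [T2Space Y] : T2Space (Unf m) := by
  refine ⟨fun u u' huu => ?_⟩
  obtain ⟨w, y, rfl⟩ := exists_rep u
  obtain ⟨w', y', rfl⟩ := exists_rep u'
  by_cases hy : y = y'
  · subst hy
    have hw : w⁻¹ * w' ∉ Subgroup.closure (gen comm '' m.mir y) := fun h =>
      huu (mk_eq_mk.2 ⟨rfl, h⟩)
    obtain ⟨O, h1, h2, h3⟩ := exists_small m y
    refine ⟨basic m w (m.mir y) O, basic m w' (m.mir y) O, isOpen_basic h3 h1, isOpen_basic h3 h1,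
      (mk_mem_basic h3).2 ⟨h2, by rw [inv_mul_cancel]; exact Subgroup.one_mem _⟩,
      (mk_mem_basic h3).2 ⟨h2, by rw [inv_mul_cancel]; exact Subgroup.one_mem _⟩, ?_⟩
    rw [Set.disjoint_left]
    intro u hu hu'
    obtain ⟨v, z, rfl⟩ := exists_rep u
    obtain ⟨-, h4⟩ := (mk_mem_basic h3).1 hu
    obtain ⟨-, h5⟩ := (mk_mem_basic h3).1 hu'
    apply hw
    have h6 := Subgroup.mul_mem _ h4 (Subgroup.inv_mem _ h5)
    rwa [mul_inv_rev, inv_inv, mul_assoc, mul_inv_cancel_left] at h6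
  · obtain ⟨O, O', h1, h2, h3, h4, h5⟩ := t2_separation hy
    exact ⟨snd ⁻¹' O, snd ⁻¹' O', h1.preimage continuous_snd, h2.preimage continuous_snd, h3, h4,
      h5.preimage _⟩

end Unf

end Pool.Agent.Helper82.Circ
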