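import Pool.Agent.Helper82.Circ.Cocycle
import Pool.Agent.Helper82.Circ.Unfold

/-!
The group acting on the unfolded space.
-/

open Topology Set Function

namespace Pool.Agent.Helper82.Circ

set_option linter.unusedSectionVars false

variable {E R B T : Type} [Group E] [PartialOrder R] [MulAction E R] [Fintype B]
  {D : CD R} {d : R → B → ℝ} {τ : R → T} {z : E} (h : MDz E R B T D d τ z)

/-- the chamber as a type with an action -/
def CH (_ : MDz E R B T D d τ z) : Type := D.Ch

instance : TopologicalSpace (CH h) := inferInstanceAs (TopologicalSpace D.Ch)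

instance : T2Space (CH h) := inferInstanceAs (T2Space D.Ch)

/-- underlying function -/
def CH.val {h : MDz E R B T D d τ z} (X : CH h) : R → ℝ := Subtype.val (p := fun X => X ∈ D.Ch) X

lemma CH.mem {h : MDz E R B T D d τ z} (X : CH h) : X.val ∈ D.Ch :=
  Subtype.prop (p := fun X => X ∈ D.Ch) X

lemma CH.ext {h : MDz E R B T D d τ z} {X X' : CH h} (hX : X.val = X'.val) : X = X' :=
  Subtype.ext (p := fun X => X ∈ D.Ch) hX

/-- constructor -/
def CH.mk (h : MDz E R B T D d τ z) (X : R → ℝ) (hX : X ∈ D.Ch) : CH h := (⟨X, hX⟩ : D.Ch)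

@[simp] lemma CH.val_mk (X : R → ℝ) (hX : X ∈ D.Ch) : (CH.mk h X hX).val = X := rfl

lemma CH.continuous_val : Continuous (CH.val (h := h)) :=
  continuous_subtype_val (p := fun X => X ∈ D.Ch)

lemma CH.continuous_apply (r : R) : Continuous fun X : CH h => X.val r :=
  (_root_.continuous_apply r).comp (CH.continuous_val h)

lemma CH.continuous_mk {A : Type*} [TopologicalSpace A] {f : A → R → ℝ} (hf : Continuous f)
    (hm : ∀ a, f a ∈ D.Ch) : Continuous fun a => CH.mk h (f a) (hm a) :=
  hf.subtype_mk hm

noncomputable instance : MulAction E (CH h) where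
  smul e X := CH.mk h (act D z e X.val) (act_mem_Ch h e X.mem)
  one_smul X := CH.ext (act_one h X.mem.1)
  mul_smul e e' X := CH.ext (act_mul h e e' X.mem.1)

lemma CH.smul_val (e : E) (X : CH h) : (e • X).val = act D z e X.val := rfl

instance : ContinuousConstSMul E (CH h) where
  continuous_const_smul e := by
    have h1 : Continuous fun X : CH h => act D z e X.val := by
      have h2 : Continuous fun X : CH h => (⟨X.val, X.mem.1⟩ : D.Y) :=
        (CH.continuous_val h).subtype_mk _
      exact (continuous_act (D := D) (z := z) e).comp h2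
    exact CH.continuous_mk h h1 fun X => act_mem_Ch h e X.mem

/-- the mirrors -/
def SS (_ : MDz E R B T D d τ z) : Type := {r : R // r ∉ D.Kp}

/-- underlying element -/
def SS.val {h : MDz E R B T D d τ z} (s : SS h) : R := Subtype.val (p := fun r => r ∉ D.Kp) s

lemma SS.prop {h : MDz E R B T D d τ z} (s : SS h) : s.val ∉ D.Kp :=
  Subtype.prop (p := fun r => r ∉ D.Kp) s

lemma SS.ext {h : MDz E R B T D d τ z} {s s' : SS h} (hs : s.val = s'.val) : s = s' :=
  Subtype.ext (p := fun r => r ∉ D.Kp) hs

/-- constructor -/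
def SS.mk (h : MDz E R B T D d τ z) (r : R) (hr : r ∉ D.Kp) : SS h :=
  (⟨r, hr⟩ : {r : R // r ∉ D.Kp})

@[simp] lemma SS.val_mk (r : R) (hr : r ∉ D.Kp) : (SS.mk h r hr).val = r := rfl

instance : MulAction E (SS h) where
  smul e s := SS.mk h (e • s.val) (fun h1 => s.prop ((smul_mem_iff h e _).1 h1))
  one_smul s := SS.ext (one_smul E s.val)
  mul_smul e e' s := SS.ext (mul_smul e e' s.val)

lemma SS.smul_val (e : E) (s : SS h) : (e • s).val = e • s.val := rfl

/-- commutation of mirrors -/
def cm (s t : SS h) : Prop := s ≠ t ∧ (s.val ≤ t.val ∨ t.val ≤ s.val)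

lemma cm_symm (s t : SS h) (hst : cm h s t) : cm h t s := ⟨hst.1.symm, hst.2.symm⟩

lemma cm_smul (e : E) (s t : SS h) (hst : cm h s t) : cm h (e • s) (e • t) := by
  refine ⟨fun h1 => hst.1 (MulAction.injective e h1), ?_⟩
  rw [SS.smul_val, SS.smul_val, le_smul_iff h, le_smul_iff h]
  exact hst.2

/-- mirrors through a point -/
def mirS (X : CH h) : Set (SS h) := {s | s.val ∈ D.mir X.val}

lemma smul_mem_mirS (e : E) (s : SS h) (X : CH h) : e • s ∈ mirS h (e • X) ↔ s ∈ mirS h X :=
  mem_mir_act h e X.val s.val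

/-- the chamber is a space with mirrors -/
def mirs : Mir (SS h) (cm h) (CH h) where
  mir := mirS h
  nhds X := by
    have h1 := CD.mir_nhds (D := D) (X : D.Ch)
    filter_upwards [h1] with X' hX' s hs
    exact hX' hs
  clique X s hs s' hs' hne := ⟨hne, CD.mir_chain X.mem hs hs'⟩
  finite X := by
    have h1 := CD.mir_finite X.mem
    exact Set.Finite.preimage (f := SS.val) (fun s _ s' _ hss => SS.ext hss) h1

/-- the unfolded space -/
abbrev UU : Type := Unf (mirs h)

/-- the Coxeter group -/
abbrev WW : Type := Racg (cm h)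

/-- the big group -/
abbrev GG : Type := Racg (cm h) ⋊[racgAct (cm_smul h)] E

lemma racgAct_mem_closure (e : E) {g : WW h} {X : CH h}
    (hg : g ∈ Subgroup.closure (gen (cm h) '' mirS h X)) :
    racgAct (cm_smul h) e g ∈ Subgroup.closure (gen (cm h) '' mirS h (e • X)) := by
  have h1 : racgAct (cm_smul h) e g ∈ (Subgroup.closure (gen (cm h) '' mirS h X)).map
      (racgMap (cm_smul h) e) := ⟨g, hg, rfl⟩
  rw [MonoidHom.map_closure] at h1
  refine Subgroup.closure_mono ?_ h1
  rintro _ ⟨_, ⟨s, hs, rfl⟩, rfl⟩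
  exact ⟨e • s, (smul_mem_mirS h e s X).2 hs, (racgMap_gen _ _ _).symm⟩

noncomputable instance : MulAction (GG h) (UU h) where
  smul g := Unf.lift (fun v X => Unf.mk (mirs h) (g.left * racgAct (cm_smul h) g.right v)
      (g.right • X)) (by
    intro w w' X hw
    refine Unf.mk_eq_mk.2 ⟨rfl, ?_⟩
    have := racgAct_mem_closure h g.right hw
    rw [mul_inv_rev, mul_assoc, inv_mul_cancel_left, ← map_inv, ← map_mul]
    exact this)
  one_smul u := by
    obtain ⟨v, X, rfl⟩ := Unf.exists_rep u
    show Unf.mk (mirs h) (_ * racgAct (cm_smul h) _ v) (_ • X) = _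
    simp
  mul_smul g g' u := by
    obtain ⟨v, X, rfl⟩ := Unf.exists_rep u
    show Unf.mk (mirs h) ((g * g').left * racgAct (cm_smul h) (g * g').right v) ((g * g').right • X)
      = Unf.mk (mirs h) (g.left * racgAct (cm_smul h) g.right
        (g'.left * racgAct (cm_smul h) g'.right v)) (g.right • g'.right • X)
    rw [SemidirectProduct.mul_left, SemidirectProduct.mul_right, mul_smul, map_mul, map_mul,
      MulAut.mul_apply, mul_assoc]

lemma smul_mk (g : GG h) (v : WW h) (X : CH h) :
    g • Unf.mk (mirs h) v X = Unf.mk (mirs h) (g.left * racgAct (cm_smul h) g.right v)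
      (g.right • X) := rfl

instance : ContinuousConstSMul (GG h) (UU h) where
  continuous_const_smul g := by
    refine Unf.continuous_lift fun w => ?_
    exact (Unf.continuous_mk_right _).comp (continuous_const_smul g.right)

end Pool.Agent.Helper82.Circ
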