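import Mathlib

/-!
Linear algebra for the orientation: reflections at the mass, and radial dilations.
-/

open Topology Set Function

namespace Pool.Agent.Helper82.Circ

namespace Lin

set_option linter.unusedSectionVars false

variable {V ι : Type} [NormedAddCommGroup V] [NormedSpace ℝ V] [FiniteDimensional ℝ V]
  [Fintype ι] [DecidableEq ι] (b : Module.Basis ι ℝ V) (K : Finset ι)

/-- the mass functional -/
noncomputable def m : V →ₗ[ℝ] ℝ := ∑ k ∈ K, b.coord k

/-- weighted sum of the mass coordinates -/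
noncomputable def wl (c : ι → ℝ) : V →ₗ[ℝ] ℝ := ∑ k ∈ K, c k • b.coord k

/-- the functional of a reflection -/
noncomputable def f (s : ι) : V →ₗ[ℝ] ℝ := (2 : ℝ) • m b K - (2 : ℝ) • b.coord s

/-- the product of the reflections in `G` -/
noncomputable def A (G : Finset ι) : V →ₗ[ℝ] V :=
  LinearMap.id + ∑ s ∈ G, (f b K s).smulRight (b s)

lemma A_apply (G : Finset ι) (y : V) : A b K G y = y + ∑ s ∈ G, f b K s y • b s := by
  simp [A, LinearMap.sum_apply]

variable {K}

lemma m_basis {s : ι} (hs : s ∉ K) : m b K (b s) = 0 := by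
  simp only [m, LinearMap.sum_apply, Module.Basis.coord_apply, Module.Basis.repr_self]
  refine Finset.sum_eq_zero fun k hk => ?_
  rw [Finsupp.single_eq_of_ne]
  rintro rfl
  exact hs hk

lemma f_basis {s t : ι} (ht : t ∉ K) : f b K s (b t) = if s = t then -2 else 0 := by
  simp only [f, LinearMap.sub_apply, LinearMap.smul_apply, m_basis b ht, Module.Basis.coord_apply,
    Module.Basis.repr_self]
  split_ifs with h
  · subst h
    simp
  · rw [Finsupp.single_eq_of_ne h]
    simp

lemma f_A {G : Finset ι} (hG : Disjoint G K) (s : ι) (y : V) :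
    f b K s (A b K G y) = f b K s y + if s ∈ G then -2 * f b K s y else 0 := by
  rw [A_apply, map_add, map_sum]
  congr 1
  have h1 : ∀ t ∈ G, f b K s (f b K t y • b t) = if s = t then -2 * f b K s y else 0 := by
    intro t ht
    rw [map_smul, f_basis b (Finset.disjoint_left.1 hG ht)]
    split_ifs with h
    · subst h
      simp [mul_comm]
    · simp
  rw [Finset.sum_congr rfl h1, Finset.sum_ite_eq]

lemma A_A {G : Finset ι} (hG : Disjoint G K) (y : V) : A b K G (A b K G y) = y := by
  rw [A_apply b K G (A b K G y)]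
  have h1 : ∀ s ∈ G, f b K s (A b K G y) • b s = - (f b K s y • b s) := by
    intro s hs
    rw [f_A b hG, if_pos hs, ← neg_smul]
    congr 1
    ring
  rw [Finset.sum_congr rfl h1, A_apply, Finset.sum_neg_distrib]
  abel

lemma det_A {G : Finset ι} (hG : Disjoint G K) : LinearMap.det (A b K G) = (-1) ^ G.card := by
  induction G using Finset.induction_on with
  | empty => simp [A]
  | insert s G hs ih =>
    have hG' : Disjoint G K := Finset.disjoint_of_subset_left (Finset.subset_insert _ _) hG
    have hsK : s ∉ K := Finset.disjoint_left.1 hG (Finset.mem_insert_self _ _)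
    have h1 : A b K (insert s G) = (LinearMap.transvection (f b K s) (b s)) ∘ₗ A b K G := by
      ext y
      rw [LinearMap.comp_apply, LinearMap.transvection.apply, f_A b hG', if_neg hs, A_apply,
        A_apply, Finset.sum_insert hs, add_zero]
      abel
    rw [h1, LinearMap.det_comp, ih hG', LinearMap.transvection.det, f_basis b hsK, if_pos rfl,
      Finset.card_insert_of_notMem hs, pow_succ]
    norm_num

/-- the radial dilation -/
noncomputable def F (c : ι → ℝ) (y : V) : V := Real.exp (wl b K c y / m b K y) • y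

lemma hasFDerivAt_F (c : ι → ℝ) {y : V} (hy : m b K y ≠ 0) :
    ∃ L : V →L[ℝ] V, HasFDerivAt (F b (K := K) c) L y ∧ 0 < LinearMap.det (L : V →ₗ[ℝ] V) := by
  let ml : V →L[ℝ] ℝ := LinearMap.toContinuousLinearMap (m b K)
  let wc : V →L[ℝ] ℝ := LinearMap.toContinuousLinearMap (wl b K c)
  have h1 : HasFDerivAt (fun y => m b K y) ml y := ml.hasFDerivAt
  have h2 : HasFDerivAt (fun y => wl b K c y) wc y := wc.hasFDerivAt
  have hinv : HasFDerivAt (fun y => (m b K y)⁻¹) (-(m b K y ^ 2)⁻¹ • ml) y :=
    (hasDerivAt_inv hy).comp_hasFDerivAt y h1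
  have h3 : HasFDerivAt (fun y => wl b K c y / m b K y)
      (wl b K c y • (-(m b K y ^ 2)⁻¹ • ml) + (m b K y)⁻¹ • wc) y := by
    simp only [div_eq_mul_inv]
    exact h2.mul hinv
  have h4 := h3.exp
  have h5 := h4.smul (hasFDerivAt_id y)
  refine ⟨_, h5, ?_⟩
  set φ := Real.exp (wl b K c y / m b K y) with hφ
  have hφ0 : 0 < φ := Real.exp_pos _
  have h6 : ∀ (L : V →L[ℝ] V) (g : V →ₗ[ℝ] ℝ), (∀ v, L v = φ • (v + g v • y)) → g y = 0 →
      0 < LinearMap.det (L : V →ₗ[ℝ] V) := by
    intro L g hL hg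
    have h7 : (L : V →ₗ[ℝ] V) = φ • LinearMap.transvection g y := by
      ext v
      simp only [ContinuousLinearMap.coe_coe, LinearMap.smul_apply, LinearMap.transvection.apply,
        hL]
    rw [h7, LinearMap.det_smul, LinearMap.transvection.det, hg]
    simp only [add_zero, mul_one]
    exact pow_pos hφ0 _
  refine h6 _ ((m b K y ^ 2)⁻¹ • (m b K y • wl b K c - wl b K c y • m b K)) (fun v => ?_) ?_
  · simp only [_root_.add_apply, _root_.smul_apply,
      ContinuousLinearMap.smulRight_apply, LinearMap.smul_apply, LinearMap.sub_apply,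
      LinearMap.coe_toContinuousLinearMap', smul_eq_mul, id, ml, wc, ContinuousLinearMap.id_apply]
    rw [smul_add, smul_smul]
    congr 2
    field_simp
    ring
  · simp [mul_comm]

/-- The local form of a coordinate change: reflection, dilation, reflection. -/
theorem hasFDerivAt_total (c : ι → ℝ) {G G' : Finset ι} (hG : Disjoint G K)
    (hG' : Disjoint G' K) {y : V} (hy : m b K (A b K G y) ≠ 0) :
    ∃ L : V →L[ℝ] V, HasFDerivAt (fun y => A b K G' (F b (K := K) c (A b K G y))) L y ∧
      0 < (-1 : ℝ) ^ (G.card + G'.card) * LinearMap.det (L : V →ₗ[ℝ] V) := by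
  obtain ⟨L, hL, hdet⟩ := hasFDerivAt_F b c hy
  let a : V →L[ℝ] V := LinearMap.toContinuousLinearMap (A b K G)
  let a' : V →L[ℝ] V := LinearMap.toContinuousLinearMap (A b K G')
  refine ⟨a'.comp (L.comp a), a'.hasFDerivAt.comp y (HasFDerivAt.comp y hL a.hasFDerivAt), ?_⟩
  have h1 : ((a'.comp (L.comp a) : V →L[ℝ] V) : V →ₗ[ℝ] V) =
      (A b K G') ∘ₗ (L : V →ₗ[ℝ] V) ∘ₗ (A b K G) := rfl
  rw [h1, LinearMap.det_comp, LinearMap.det_comp, det_A b hG, det_A b hG']
  have h2 : (-1 : ℝ) ^ (G.card + G'.card) * ((-1) ^ G'.card *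
      (LinearMap.det (L : V →ₗ[ℝ] V) * (-1) ^ G.card)) =
      ((-1) ^ (G.card + G'.card)) * ((-1) ^ (G.card + G'.card)) *
        LinearMap.det (L : V →ₗ[ℝ] V) := by
    rw [pow_add]
    ring
  rw [h2, ← pow_add, ← two_mul, pow_mul]
  simpa using hdet

end Lin

end Pool.Agent.Helper82.Circ
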