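import Pool.Agent.Helper82.Circ.Gam

/-!
Parities in the right-angled Coxeter group.
-/

open Topology Set Function

namespace Pool.Agent.Helper82.Circ

set_option linter.unusedSectionVars false

variable {E R B T : Type} [Group E] [PartialOrder R] [MulAction E R] [Fintype B]
  {D : CD R} {d : R → B → ℝ} {τ : R → T} {z : E} (h : MDz E R B T D d τ z)

/-- parity of the word length -/
noncomputable def tot : WW h →* Multiplicative (ZMod 2) :=
  Racg.lift (fun _ => Multiplicative.ofAdd 1) (fun _ => by decide) (fun _ _ _ => rfl)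

@[simp] lemma tot_gen (s : SS h) : tot h (gen (cm h) s) = Multiplicative.ofAdd 1 := by
  simp [tot]

lemma tot_act (e : E) (w : WW h) : tot h (racgAct (cm_smul h) e w) = tot h w := by
  have : (tot h).comp (racgMap (cm_smul h) e) = tot h := Racg.hom_ext fun s => by simp
  exact DFunLike.congr_fun this w

/-- sum of the values as a homomorphism -/
noncomputable def sumHom (S : Type) : (S →₀ ZMod 2) →+ ZMod 2 :=
  Finsupp.liftAddHom fun _ => AddMonoidHom.id _

lemma sumHom_apply {S : Type} (p : S →₀ ZMod 2) : sumHom S p = p.sum fun _ a => a := rfl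

lemma tot_eq_par (w : WW h) : tot h w = Multiplicative.ofAdd (sumHom _ (par w)) := by
  have : tot h = (AddMonoidHom.toMultiplicative (sumHom (SS h))).comp parHom :=
    Racg.hom_ext fun s => by simp [parHom, sumHom_apply]
  rw [this]
  rfl

lemma tot_eq_chi (w : WW h) : tot h w = Multiplicative.ofAdd (sumHom _ (chiW h w).toAdd) := by
  have : tot h = (AddMonoidHom.toMultiplicative (sumHom T)).comp (chiW h) :=
    Racg.hom_ext fun s => by simp [sumHom_apply]
  rw [this]
  rfl

lemma tot_of_mem_Gam {g : GG h} (hg : g ∈ Gam h) : tot h g.left = 1 := by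
  have h1 : chiW h g.left = 1 := hg
  rw [tot_eq_chi, h1]
  simp

lemma sumHom_eq_card {S : Type} (p : S →₀ ZMod 2) (G : Finset S) (hG : ∀ s, s ∈ G ↔ p s = 1) :
    sumHom S p = (G.card : ZMod 2) := by
  classical
  have h1 : p.support = G := by
    ext s
    rw [Finsupp.mem_support_iff, hG]
    generalize p s = a
    revert a
    decide
  rw [sumHom_apply, Finsupp.sum, h1, Finset.sum_congr rfl fun s hs => (hG s).1 hs]
  simp

open Classical in
/-- the sign of an element -/
noncomputable def sg (w : WW h) : ℝ := if tot h w = 1 then 1 else -1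

lemma sg_ne (w : WW h) : sg h w = 1 ∨ sg h w = -1 := by
  unfold sg
  split_ifs
  · exact Or.inl rfl
  · exact Or.inr rfl

lemma neg_one_pow_eq (n : ℕ) : ((-1 : ℝ) ^ n) = if (n : ZMod 2) = 0 then 1 else -1 := by
  rcases Nat.even_or_odd n with h1 | h1
  · have h2 : (n : ZMod 2) = 0 := (ZMod.natCast_eq_zero_iff_even).2 h1
    rw [h1.neg_one_pow, if_pos h2]
  · have h2 : (n : ZMod 2) ≠ 0 := fun h3 =>
      Nat.not_even_iff_odd.2 h1 ((ZMod.natCast_eq_zero_iff_even).1 h3)
    rw [h1.neg_one_pow, if_neg h2]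

/-- the signs of the coordinate change -/
lemma sign_eq {w w' v : WW h} {g : GG h} (hg : g ∈ Gam h) {n n' : ℕ}
    (hn : sumHom _ (par (w⁻¹ * v)) = (n : ZMod 2))
    (hn' : sumHom _ (par (w'⁻¹ * (g.left * racgAct (cm_smul h) g.right v))) = (n' : ZMod 2)) :
    (-1 : ℝ) ^ (n + n') = sg h w * sg h w' := by
  have h1 : tot h (w⁻¹ * v) = Multiplicative.ofAdd (n : ZMod 2) := by rw [tot_eq_par, hn]
  have h2 : tot h (w'⁻¹ * (g.left * racgAct (cm_smul h) g.right v)) =
      Multiplicative.ofAdd (n' : ZMod 2) := by rw [tot_eq_par, hn']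
  rw [map_mul, map_inv] at h1
  rw [map_mul, map_inv, map_mul, tot_act, tot_of_mem_Gam h hg, one_mul] at h2
  rw [neg_one_pow_eq]
  have h3 : ((n + n' : ℕ) : ZMod 2) = 0 ↔ ((tot h w)⁻¹ * tot h v) * ((tot h w')⁻¹ * tot h v) = 1 := by
    rw [h1, h2, ← ofAdd_add]
    push_cast
    exact Iff.rfl
  unfold sg
  have h4 : ∀ a b c : Multiplicative (ZMod 2), (a⁻¹ * b) * (c⁻¹ * b) = 1 ↔ (a = 1 ↔ c = 1) := by
    decide
  rw [h4] at h3
  by_cases ha : tot h w = 1 <;> by_cases hc : tot h w' = 1
  · rw [if_pos ha, if_pos hc, if_pos (h3.2 (by simp [ha, hc]))]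
    norm_num
  · rw [if_pos ha, if_neg hc, if_neg (fun h5 => hc ((h3.1 h5).1 ha))]
    norm_num
  · rw [if_neg ha, if_pos hc, if_neg (fun h5 => ha ((h3.1 h5).2 hc))]
    norm_num
  · rw [if_neg ha, if_neg hc, if_pos (h3.2 (by simp [ha, hc]))]
    norm_num

end Pool.Agent.Helper82.Circ
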