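import Pool.Agent.Helper82.Circ.Gen
import Pool.Agent.Helper82.Circ.Lin
import Pool.Agent.Helper82.Circ.Sgn

/-!
Local linear coordinates near a generic point.
-/

open Topology Set Function

namespace Pool.Agent.Helper82.Circ

set_option linter.unusedSectionVars false

variable {E R B T : Type} [Group E] [PartialOrder R] [MulAction E R] [Fintype B]
  {D : CD R} {d : R → B → ℝ} {τ : R → T} {z : E} (h : MDz E R B T D d τ z)

section

variable (C : Finset R) (b : Module.Basis C ℝ (B → ℝ)) (hb : ∀ r : C, b r = d r)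

open Classical in
/-- the coordinates counting for the mass -/
noncomputable def KC (D : CD R) (C : Finset R) : Finset C :=
  Finset.univ.filter fun r => (r : R) ∈ D.Kp

lemma mem_KC (r : C) : r ∈ KC D C ↔ (r : R) ∈ D.Kp := by
  classical
  simp [KC]

variable (d) in
/-- the developing map -/
noncomputable def dev (Z : R → ℝ) : B → ℝ := ∑ᶠ r, Z r • d r

variable {C}

include hb in
lemma dev_eq {Z : R → ℝ} (hZ : ∀ r ∉ C, Z r = 0) : dev d Z = ∑ r : C, Z r • b r := by
  unfold dev
  rw [dev_eq_sum hZ, ← Finset.sum_coe_sort]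
  exact Finset.sum_congr rfl fun r _ => by rw [hb]

include hb in
lemma coord_dev {Z : R → ℝ} (hZ : ∀ r ∉ C, Z r = 0) (r : C) : b.coord r (dev d Z) = Z r := by
  classical
  rw [dev_eq b hb hZ, Module.Basis.coord_apply, Module.Basis.repr_sum_self]

include hb in
lemma wl_dev {Z : R → ℝ} (hZ : ∀ r ∉ C, Z r = 0) (c : R → ℝ) :
    Lin.wl b (KC D C) (fun r => c r) (dev d Z) = D.mass fun r => Z r * c r := by
  classical
  unfold Lin.wl CD.mass
  rw [finsum_eq_sum_of_support_subset (s := C) _ (fun r hr => by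
    by_contra h1
    apply hr
    by_cases h2 : r ∈ D.Kp
    · rw [indicator_of_mem h2, hZ r h1, zero_mul]
    · rw [indicator_of_notMem h2])]
  rw [LinearMap.sum_apply, ← Finset.sum_coe_sort C, KC, Finset.sum_filter]
  refine Finset.sum_congr rfl fun r _ => ?_
  split_ifs with h2
  · rw [LinearMap.smul_apply, coord_dev b hb hZ, indicator_of_mem h2, smul_eq_mul, mul_comm]
  · rw [indicator_of_notMem h2]

include hb in
lemma m_dev {Z : R → ℝ} (hZ : ∀ r ∉ C, Z r = 0) :
    Lin.m b (KC D C) (dev d Z) = D.mass Z := by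
  have h1 := wl_dev (D := D) b hb hZ (fun _ => 1)
  simp only [mul_one] at h1
  rw [← h1]
  unfold Lin.m Lin.wl
  simp

include hb in
open Classical in
lemma A_dev {Z : R → ℝ} (hZ : ∀ r ∉ C, Z r = 0) (G : Finset C) :
    Lin.A b (KC D C) G (dev d Z) =
      ∑ r : C, (if r ∈ G then 2 * D.mass Z - Z r else Z r) • b r := by
  rw [Lin.A_apply]
  have h1 : ∀ s : C, Lin.f b (KC D C) s (dev d Z) = 2 * D.mass Z - 2 * Z s := by
    intro s
    unfold Lin.f
    rw [LinearMap.sub_apply, LinearMap.smul_apply, LinearMap.smul_apply, m_dev b hb hZ,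
      coord_dev b hb hZ, smul_eq_mul, smul_eq_mul]
  have h2 : ∑ s ∈ G, Lin.f b (KC D C) s (dev d Z) • b s =
      ∑ s : C, if s ∈ G then (2 * D.mass Z - 2 * Z s) • b s else 0 := by
    rw [Finset.sum_ite_mem, Finset.univ_inter]
    exact Finset.sum_congr rfl fun s _ => by rw [h1]
  rw [h2, dev_eq b hb hZ, ← Finset.sum_add_distrib]
  refine Finset.sum_congr rfl fun r _ => ?_
  split_ifs with h2
  · rw [← add_smul]
    congr 1
    ring
  · rw [add_zero]

open Classical in
/-- the function with given linear coordinates -/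
noncomputable def Xf (D : CD R) (b : Module.Basis C ℝ (B → ℝ)) (G : Finset C) (y : B → ℝ) :
    R → ℝ :=
  fun r => if hr : r ∈ C then b.coord ⟨r, hr⟩ (Lin.A b (KC D C) G y) else 0

lemma Xf_notMem (G : Finset C) (y : B → ℝ) : ∀ r ∉ C, Xf D b G y r = 0 := by
  intro r hr
  simp [Xf, hr]

include hb in
lemma dev_Xf (G : Finset C) (y : B → ℝ) : dev d (Xf D b G y) = Lin.A b (KC D C) G y := by
  rw [dev_eq b hb (Xf_notMem b G y)]
  have h1 : ∀ r : C, Xf D b G y r = b.repr (Lin.A b (KC D C) G y) r := by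
    intro r
    simp [Xf]
  simp only [h1]
  exact b.sum_repr _

include hb in
lemma Xf_dev {Z : R → ℝ} (hZ : ∀ r ∉ C, Z r = 0) {G : Finset C} {y : B → ℝ}
    (hy : Lin.A b (KC D C) G y = dev d Z) : Xf D b G y = Z := by
  funext r
  by_cases hr : r ∈ C
  · unfold Xf
    rw [dif_pos hr, hy, coord_dev b hb hZ]
  · rw [Xf_notMem b G y r hr, hZ r hr]

lemma continuous_Xf (G : Finset C) : Continuous (Xf D b G) := by
  refine continuous_pi fun r => ?_
  by_cases hr : r ∈ C
  · have : (fun y => Xf D b G y r) = fun y => b.coord ⟨r, hr⟩ (Lin.A b (KC D C) G y) := by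
      funext y
      simp [Xf, hr]
    rw [this]
    exact (LinearMap.continuous_of_finiteDimensional _).comp
      (LinearMap.continuous_of_finiteDimensional _)
  · have : (fun y => Xf D b G y r) = fun _ => 0 := by
      funext y
      simp [Xf, hr]
    rw [this]
    exact continuous_const

/-- near a point with `X` in the open chamber over `C` the function `Xf` is in the chamber -/
lemma Xf_mem_Ch {X : R → ℝ} (hX : X ∈ D.Ch) (hC : ∀ r, r ∈ C ↔ X r ≠ 0)
    (hlt : ∀ r ∉ D.Kp, X r < D.mass X) {G : Finset C} {y0 : B → ℝ} (hy0 : Xf D b G y0 = X) :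
    ∀ᶠ y in 𝓝 y0, Xf D b G y ∈ D.Ch := by
  have hc := continuous_Xf (D := D) b G
  have hcr : ∀ r, Continuous fun y => Xf D b G y r := fun r => (continuous_apply r).comp hc
  have hmass : ∀ y, D.mass (Xf D b G y) = ∑ r ∈ C, D.Kp.indicator (Xf D b G y) r := by
    intro y
    unfold CD.mass
    refine finsum_eq_sum_of_support_subset _ fun r hr => ?_
    by_contra h1
    apply hr
    by_cases h2 : r ∈ D.Kp
    · rw [indicator_of_mem h2]
      exact Xf_notMem b G y r h1
    · rw [indicator_of_notMem h2]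
  have hcm : Continuous fun y => D.mass (Xf D b G y) := by
    simp only [hmass]
    refine continuous_finsetSum _ fun r _ => ?_
    by_cases h2 : r ∈ D.Kp
    · simp only [indicator_of_mem h2]
      exact hcr r
    · simp only [indicator_of_notMem h2]
      exact continuous_const
  have h1 : ∀ᶠ y in 𝓝 y0, ∀ r ∈ C, 0 < Xf D b G y r := by
    rw [Finset.eventually_all]
    intro r hr
    refine (isOpen_lt continuous_const (hcr r)).mem_nhds ?_
    show 0 < Xf D b G y0 r
    rw [hy0]
    exact lt_of_le_of_ne (hX.1.1 r) (Ne.symm ((hC r).1 hr))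
  have h2 : ∀ᶠ y in 𝓝 y0, ∀ r ∈ C, r ∉ D.Kp → Xf D b G y r < D.mass (Xf D b G y) := by
    rw [Finset.eventually_all]
    intro r _
    by_cases h3 : r ∈ D.Kp
    · exact Filter.Eventually.of_forall fun _ h4 => absurd h3 h4
    · have : ∀ᶠ y in 𝓝 y0, Xf D b G y r < D.mass (Xf D b G y) := by
        refine (isOpen_lt (hcr r) hcm).mem_nhds ?_
        show Xf D b G y0 r < D.mass (Xf D b G y0)
        rw [hy0]
        exact hlt r h3
      filter_upwards [this] with y hy _ using hy
  filter_upwards [h1, h2] with y hy1 hy2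
  have hne : ∀ r, Xf D b G y r ≠ 0 → X r ≠ 0 := by
    intro r hr
    rw [← hC]
    by_contra h3
    exact hr (Xf_notMem b G y r h3)
  obtain ⟨k, hk, hk0⟩ := hX.1.2.2
  have hkC := (hC k).2 hk0
  have hY : Xf D b G y ∈ D.Y := by
    refine ⟨fun r => ?_, fun r r' hr hr' => hX.1.2.1 r r' (hne r hr) (hne r' hr'), k, hk,
      (hy1 k hkC).ne'⟩
    by_cases hr : r ∈ C
    · exact (hy1 r hr).le
    · exact (Xf_notMem b G y r hr).ge
  refine ⟨hY, fun r hr => ?_⟩
  by_cases hrC : r ∈ C
  · exact (hy2 r hrC hr).le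
  · rw [Xf_notMem b G y r hrC]
    exact (CD.mass_pos hY).le

end

end Pool.Agent.Helper82.Circ
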