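import Mathlib

/-!
In a group with `x y = y x z`, `t x = x² t`, `z` central, every finite index subgroup
containing `z²` contains `z`.
-/

namespace Pool.Agent.Helper82.Circ

lemma comm_pow {Q : Type} [Group Q] {z x y : Q} (hz : z ∈ Subgroup.center Q)
    (h1 : x * y = y * x * z) (n : ℕ) : x ^ n * y = y * x ^ n * z ^ n := by
  have hc : ∀ g : Q, g * z = z * g := fun g => Subgroup.mem_center_iff.1 hz g
  induction n with
  | zero => simp
  | succ n ih =>
    have h2 : x * z ^ n = z ^ n * x := (Commute.pow_right (hc x : Commute x z) n)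
    calc x ^ (n + 1) * y = x * (x ^ n * y) := by rw [pow_succ', mul_assoc]
      _ = x * (y * x ^ n * z ^ n) := by rw [ih]
      _ = (x * y) * x ^ n * z ^ n := by group
      _ = y * x * z * x ^ n * z ^ n := by rw [h1]
      _ = y * x * (z * x ^ n) * z ^ n := by group
      _ = y * x * (x ^ n * z) * z ^ n := by
        rw [((hc (x ^ n)).symm : z * x ^ n = x ^ n * z)]
      _ = y * x ^ (n + 1) * z ^ (n + 1) := by rw [pow_succ', pow_succ']; group

theorem mem_of_sq_mem {G : Type} [Group G] {z x y t : G} (hz : z ∈ Subgroup.center G)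
    (h1 : x * y = y * x * z) (h2 : t * x = x ^ 2 * t) (H : Subgroup G) (hH : H.FiniteIndex)
    (h : z ^ 2 ∈ H) : z ∈ H := by
  have hN : z ^ 2 ∈ H.normalCore := by
    intro g
    have hc : g * z ^ 2 = z ^ 2 * g :=
      Subgroup.mem_center_iff.1 (Subgroup.pow_mem _ hz 2) g
    show g * z ^ 2 * g⁻¹ ∈ H
    rw [hc, mul_inv_cancel_right]
    exact h
  refine H.normalCore_le ?_
  have hfin : Finite (G ⧸ H.normalCore) := inferInstance
  let π : G →* G ⧸ H.normalCore := QuotientGroup.mk' _
  have hz' : π z ∈ Subgroup.center (G ⧸ H.normalCore) := by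
    rw [Subgroup.mem_center_iff]
    intro q
    obtain ⟨g, rfl⟩ := QuotientGroup.mk'_surjective _ q
    show π g * π z = π z * π g
    rw [← map_mul, ← map_mul, Subgroup.mem_center_iff.1 hz g]
  set m := orderOf (π x) with hm
  have hmpos : 0 < m := orderOf_pos _
  have hodd : Odd m := by
    rw [← Nat.not_even_iff_odd]
    intro heven
    have h3 : π t * π x * (π t)⁻¹ = π x ^ 2 := by
      rw [← map_mul, h2, map_mul, map_pow, mul_inv_cancel_right]
    have h4 : orderOf (π x ^ 2) = m := by
      rw [← h3]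
      have : SemiconjBy (π t) (π x) (π t * π x * (π t)⁻¹) := by
        show π t * π x = π t * π x * (π t)⁻¹ * π t
        rw [inv_mul_cancel_right]
      exact this.orderOf_eq.symm
    rw [orderOf_pow, ← hm] at h4
    have h5 : Nat.gcd m 2 = 2 := Nat.gcd_eq_right heven.two_dvd
    rw [h5] at h4
    omega
  have h6 : (π z) ^ m = 1 := by
    have h7 := comm_pow hz' (x := π x) (y := π y) (by rw [← map_mul, h1, map_mul, map_mul]) m
    rw [hm, pow_orderOf_eq_one, one_mul, mul_one] at h7
    exact (mul_eq_left.1 h7.symm)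
  have h7 : (π z) ^ 2 = 1 := by
    rw [← map_pow]
    exact (QuotientGroup.eq_one_iff _).2 hN
  have h8 : π z = 1 := by
    obtain ⟨k, hk⟩ := hodd
    rw [hk, pow_succ, pow_mul, h7, one_pow, one_mul] at h6
    exact h6
  exact (QuotientGroup.eq_one_iff _).1 h8

end Pool.Agent.Helper82.Circ
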