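import Pool.Agent.Helper82.Circ.Atlas
import Pool.Agent.Helper82.Circ.Odd
import Pool.Agent.Helper55.CircA

/-!
The quotient manifold and its central element.
-/

open Topology Set Function Manifold

namespace Pool.Agent.Helper82.Circ

set_option linter.unusedSectionVars false

variable {E R B T : Type} [Group E] [PartialOrder R] [MulAction E R] [Fintype B]
  {D : CD R} {d : R → B → ℝ} {τ : R → T} {z : E} (h : MDz E R B T D d τ z)

theorem locallyPathConnected_UU : LocallyPathConnectedSpace (UU h) := by
  let _ : ChartedSpace (B → ℝ) (UU h) := {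
    atlas := range (chU h)
    chartAt := chU h
    mem_chart_source := mem_chU h
    chart_mem_atlas := fun u => ⟨u, rfl⟩ }
  exact ChartedSpace.locallyPathConnectedSpace (B → ℝ) (UU h)

/-- elements of `E` in the group of the manifold -/
noncomputable def toGam : E →* Gam h where
  toFun e := ⟨SemidirectProduct.inr e, by
    show chiW h (SemidirectProduct.inr e : GG h).left = 1
    rw [SemidirectProduct.left_inr, map_one]⟩
  map_one' := Subtype.ext (map_one _)
  map_mul' e e' := Subtype.ext (map_mul _ _ _)

lemma toGam_injective : Injective (toGam h) := by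
  intro e e' hee
  exact SemidirectProduct.inr_injective (congrArg Subtype.val hee)

lemma racgAct_z (w : WW h) : racgAct (cm_smul h) z w = w := by
  have : racgMap (cm_smul h) z = MonoidHom.id _ := Racg.hom_ext fun s => by
    rw [racgMap_gen, MonoidHom.id_apply]
    congr 1
    exact SS.ext (h.triv s.val)
  exact DFunLike.congr_fun this w

lemma toGam_central : toGam h z ∈ Subgroup.center (Gam h) := by
  rw [Subgroup.mem_center_iff]
  intro g
  refine Subtype.ext ?_
  show g.1 * SemidirectProduct.inr z = SemidirectProduct.inr z * g.1
  refine SemidirectProduct.ext ?_ ?_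
  · rw [SemidirectProduct.mul_left, SemidirectProduct.mul_left, SemidirectProduct.left_inr,
      SemidirectProduct.right_inr, map_one, mul_one, one_mul, racgAct_z]
  · rw [SemidirectProduct.mul_right, SemidirectProduct.mul_right, SemidirectProduct.right_inr]
    exact Subgroup.mem_center_iff.1 h.central _

theorem exists_manifold [Finite T] (hU : ContractibleSpace (UU h)) {x y t : E}
    (h1 : x * y = y * x * z) (h2 : t * x = x ^ 2 * t) :
    ∃ (n : ℕ) (M : Type) (_ : TopologicalSpace M)
      (_ : ChartedSpace (EuclideanSpace ℝ (Fin n)) M), T2Space M ∧ CompactSpace M ∧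
      ConnectedSpace M ∧ OrientedAtlas n M ∧ Aspherical M ∧
      ∃ (m : M) (g : FundamentalGroup M m), g ∈ Subgroup.center (FundamentalGroup M m) ∧
        g ≠ 1 ∧ NotRealised M m g := by
  have hl := locallyPathConnected_UU h
  have hc : CompactSpace (MM h) := compactSpace_MM h
  have hp := isQuotientCoveringMap_pr h
  have hne : Nonempty (UU h) := inferInstance
  obtain ⟨u⟩ := hne
  have hz2 : toGam h z ^ 2 ≠ 1 := by
    intro h3
    rw [← map_pow, ← map_one (toGam h)] at h3
    have h4 := toGam_injective h h3
    have h5 := h.inf 2 (by exact_mod_cast h4)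
    omega
  obtain ⟨g, hg1, hg2, hg3⟩ := Helper55.notRealised_of_group (pr h) hp (toGam h z)
    (toGam_central h) hz2 (fun H hH hH2 => mem_of_sq_mem (toGam_central h)
      (x := toGam h x) (y := toGam h y) (t := toGam h t)
      (by rw [← map_mul, h1, map_mul, map_mul]) (by rw [← map_mul, h2, map_mul, map_pow])
      H hH hH2) u
  refine ⟨Fintype.card B, MM h, inferInstance, inferInstance, inferInstance, hc, ?_,
    orientedAtlas h, ⟨UU h, inferInstance, pr h, hU, hp.isCoveringMap, hp.surjective⟩,
    pr h u, g, hg1, hg2, hg3⟩
  have : ConnectedSpace (UU h) := inferInstance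
  exact hp.surjective.connectedSpace hp.continuous

end Pool.Agent.Helper82.Circ
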