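import Pool.Agent.Helper82.Circ.Local

/-!
Coordinate changes: the sign of the Jacobian determinant at generic points.
-/

open Topology Set Function

namespace Pool.Agent.Helper82.Circ

set_option linter.unusedSectionVars false

variable {E R B T : Type} [Group E] [PartialOrder R] [MulAction E R] [Fintype B]
  {D : CD R} {d : R → B → ℝ} {τ : R → T} {z : E} (h : MDz E R B T D d τ z)

/-- the properties of a chart that are used -/
def IsCh (e : OpenPartialHomeomorph (UU h) (B → ℝ)) (w : WW h) (k : R) : Prop :=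
  k ∈ D.Kp ∧ ∀ (v : WW h) (X : CH h), Unf.mk (mirs h) v X ∈ e.source →
      X.val k ≠ 0 ∧ (∀ s, par (w⁻¹ * v) s = 1 → X.val s.val ≠ 0) ∧
      e (Unf.mk (mirs h) v X) = dev d (refl h (par (w⁻¹ * v)) X.val)

variable {h}

lemma mass_refl (p : SS h →₀ ZMod 2) (X : R → ℝ) : D.mass (refl h p X) = D.mass X := by
  refine mass_congr fun k hk => ?_
  unfold refl
  rw [if_neg]
  rintro ⟨s, hs, _⟩
  exact s.prop (hs ▸ hk)

lemma refl_Kp (p : SS h →₀ ZMod 2) (X : R → ℝ) {k : R} (hk : k ∈ D.Kp) :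
    refl h p X k = X k := by
  unfold refl
  rw [if_neg]
  rintro ⟨s, hs, _⟩
  exact s.prop (hs ▸ hk)

lemma refl_ne {p : SS h →₀ ZMod 2} {X : R → ℝ} (hX : X ∈ D.Ch)
    (hp : ∀ s, p s = 1 → X s.val ≠ 0) (r : R) : refl h p X r ≠ 0 ↔ X r ≠ 0 := by
  unfold refl
  split_ifs with h1
  · obtain ⟨s, rfl, hs⟩ := h1
    have h2 := hX.2 s.val s.prop
    have h3 := CD.mass_pos hX.1
    refine ⟨fun _ => hp s hs, fun _ => ne_of_gt ?_⟩
    linarith
  · exact Iff.rfl

lemma refl_mem_Y {p : SS h →₀ ZMod 2} {X : R → ℝ} (hX : X ∈ D.Ch)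
    (hp : ∀ s, p s = 1 → X s.val ≠ 0) : refl h p X ∈ D.Y := by
  obtain ⟨k, hk, hk0⟩ := hX.1.2.2
  refine ⟨fun r => ?_, fun r r' hr hr' => hX.1.2.1 r r' ((refl_ne hX hp r).1 hr)
    ((refl_ne hX hp r').1 hr'), k, hk, (refl_ne hX hp k).2 hk0⟩
  unfold refl
  split_ifs with h1
  · obtain ⟨s, rfl, hs⟩ := h1
    have h2 := hX.2 s.val s.prop
    have h3 := CD.mass_pos hX.1
    linarith
  · exact hX.1.1 r

open Classical in
lemma A_dev_refl {C : Finset R} (b : Module.Basis C ℝ (B → ℝ)) (hb : ∀ r : C, b r = d r)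
    {Z : R → ℝ} (hZ : ∀ r ∉ C, Z r = 0) {p : SS h →₀ ZMod 2} (hp : ∀ s, p s = 1 → s.val ∈ C) :
    Lin.A b (KC D C) (Finset.univ.filter fun r : C => ∃ s : SS h, s.val = r ∧ p s = 1) (dev d Z) =
      dev d (refl h p Z) := by
  rw [A_dev b hb hZ, dev_eq b hb (C := C)]
  · refine Finset.sum_congr rfl fun r _ => ?_
    simp only [refl, Finset.mem_filter, Finset.mem_univ, true_and]
  · intro r hr
    unfold refl
    rw [if_neg, hZ r hr]
    rintro ⟨s, rfl, hs⟩
    exact hr (hp s hs)

theorem transition {e e' : OpenPartialHomeomorph (UU h) (B → ℝ)} {w w' : WW h} {k k' : R}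
    (he : IsCh h e w k) (he' : IsCh h e' w' k') {g : GG h} (hg : g ∈ Gam h) {V : Set (B → ℝ)}
    (hV : IsOpen V) (hne : V.Nonempty)
    (hsub : ∀ y ∈ V, y ∈ e.target ∧ g • e.symm y ∈ e'.source) :
    ∃ y ∈ V, ∃ L : (B → ℝ) →L[ℝ] (B → ℝ), HasFDerivAt (fun y => e' (g • e.symm y)) L y ∧
      0 < sg h w * sg h w' * LinearMap.det (L : (B → ℝ) →ₗ[ℝ] (B → ℝ)) := by
  classical
  obtain ⟨y0, hy0, hgen⟩ := exists_generic h he.1 hV hne
  obtain ⟨v, X, hvX⟩ := Unf.exists_rep (e.symm y0)
  have hsrc : Unf.mk (mirs h) v X ∈ e.source := by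
    rw [hvX]
    exact e.map_target (hsub y0 hy0).1
  obtain ⟨hXk, hp, hey⟩ := he.2 v X hsrc
  set p := par (w⁻¹ * v) with hpdef
  have hey' : dev d (refl h p X.val) = y0 := by
    rw [← hey, hvX, e.right_inv (hsub y0 hy0).1]
  obtain ⟨hcard, hmne⟩ := hgen (refl h p X.val) (refl_mem_Y X.mem hp)
    ((refl_ne X.mem hp k).2 hXk) hey'
  -- the support
  set C := (CD.supp_finite X.mem.1).toFinset with hCdef
  have hC : ∀ r, r ∈ C ↔ X.val r ≠ 0 := fun r => by rw [hCdef, Set.Finite.mem_toFinset]; rfl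
  have hZ : ∀ r ∉ C, X.val r = 0 := fun r hr => by
    by_contra h2
    exact hr ((hC r).2 h2)
  have hlt : ∀ r ∉ D.Kp, X.val r < D.mass X.val := by
    intro r hr
    refine lt_of_le_of_ne (X.mem.2 r hr) fun h1 => hmne r hr ?_
    rw [mass_refl]
    unfold refl
    split_ifs with h2
    · rw [h1]
      ring
    · exact h1
  have hsupp : support (refl h p X.val) = (C : Set R) := by
    ext r
    rw [mem_support, refl_ne X.mem hp, Finset.mem_coe, hC]
  have hli : LinearIndependent ℝ (fun r : C => d r) :=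
    linearIndependent_supp h he.1 X.mem.1 hXk hC
  have hCcard : Fintype.card C = Module.finrank ℝ (B → ℝ) := by
    rw [Fintype.card_coe, Module.finrank_fintype_fun_eq_card, ← hcard, hsupp,
      Set.ncard_coe_finset]
  have hCne : Nonempty C := ⟨⟨k, (hC k).2 hXk⟩⟩
  let b : Module.Basis C ℝ (B → ℝ) := basisOfLinearIndependentOfCardEqFinrank hli hCcard
  have hb : ∀ r : C, b r = d r := fun r => by
    simp [b, coe_basisOfLinearIndependentOfCardEqFinrank]
  let G : Finset C := Finset.univ.filter fun r : C => ∃ s : SS h, s.val = r ∧ p s = 1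
  have hGK : Disjoint G (KC D C) := by
    rw [Finset.disjoint_left]
    intro r hr hr'
    obtain ⟨s, hs, _⟩ := (Finset.mem_filter.1 hr).2
    rw [mem_KC, ← hs] at hr'
    exact s.prop hr'
  have hpC : ∀ s, p s = 1 → s.val ∈ C := fun s hs => (hC _).2 (hp s hs)
  have hA0 : Lin.A b (KC D C) G y0 = dev d X.val := by
    rw [← hey', ← A_dev_refl b hb hZ hpC]
    exact Lin.A_A b hGK _
  have hX0 : Xf D b G y0 = X.val := Xf_dev b hb hZ hA0
  have hcont := continuous_Xf (D := D) b G
  -- the local inverse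
  let N : Set (B → ℝ) := {y | Xf D b G y ∈ D.Ch}
  have hN : ∀ᶠ y in 𝓝 y0, y ∈ N := Xf_mem_Ch b X.mem hC hlt hX0
  let j : N → CH h := fun y => CH.mk h (Xf D b G y) y.2
  have hj : Continuous j := CH.continuous_mk h (hcont.comp continuous_subtype_val) fun y => y.2
  have hjX : ∀ hy : y0 ∈ N, j ⟨y0, hy⟩ = X := fun hy => CH.ext hX0
  have hev1 : ∀ᶠ y in 𝓝 y0, ∃ hy : y ∈ N, Unf.mk (mirs h) v (j ⟨y, hy⟩) ∈ e.source ∧
      g • Unf.mk (mirs h) v (j ⟨y, hy⟩) ∈ e'.source := by
    have hy0N : y0 ∈ N := mem_of_mem_nhds hN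
    have hcj : Continuous fun y : N => Unf.mk (mirs h) v (j y) :=
      (Unf.continuous_mk_right v).comp hj
    have ho : IsOpen {y : N | Unf.mk (mirs h) v (j y) ∈ e.source ∧
        g • Unf.mk (mirs h) v (j y) ∈ e'.source} :=
      (e.open_source.preimage hcj).inter
        (e'.open_source.preimage ((continuous_const_smul g).comp hcj))
    have hmem : (⟨y0, hy0N⟩ : N) ∈ {y : N | Unf.mk (mirs h) v (j y) ∈ e.source ∧
        g • Unf.mk (mirs h) v (j y) ∈ e'.source} := by
      show Unf.mk (mirs h) v (j ⟨y0, hy0N⟩) ∈ e.source ∧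
        g • Unf.mk (mirs h) v (j ⟨y0, hy0N⟩) ∈ e'.source
      rw [hjX hy0N]
      refine ⟨hsrc, ?_⟩
      rw [hvX]
      exact (hsub y0 hy0).2
    obtain ⟨O, hO, hOeq⟩ := isOpen_induced_iff.1 ho
    have hyO : y0 ∈ O := by
      have : (⟨y0, hy0N⟩ : N) ∈ Subtype.val ⁻¹' O := by rw [hOeq]; exact hmem
      exact this
    filter_upwards [hN, hO.mem_nhds hyO] with y hy hyO'
    refine ⟨hy, ?_⟩
    have : (⟨y, hy⟩ : N) ∈ {y : N | Unf.mk (mirs h) v (j y) ∈ e.source ∧
        g • Unf.mk (mirs h) v (j y) ∈ e'.source} := by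
      rw [← hOeq]
      exact hyO'
    exact this
  -- the data of the second chart
  set ε := g.right with hε
  set v' := g.left * racgAct (cm_smul h) ε v with hv'
  set p' := par (w'⁻¹ * v') with hp'def
  obtain ⟨-, hp', -⟩ := he'.2 v' (ε • X) (by
    rw [hv', hε, ← smul_mk, hvX]
    exact (hsub y0 hy0).2)
  have hp'C : ∀ s, p' s = 1 → ∃ r ∈ C, s.val = ε • r := by
    intro s hs
    have h1 := hp' s hs
    rw [CH.smul_val] at h1
    refine ⟨ε⁻¹ • s.val, (hC _).2 ?_, by rw [smul_inv_smul]⟩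
    exact right_ne_zero_of_mul h1
  let G' : Finset C := Finset.univ.filter fun r : C => ∃ s : SS h, s.val = ε • (r : R) ∧ p' s = 1
  have hGK' : Disjoint G' (KC D C) := by
    rw [Finset.disjoint_left]
    intro r hr hr'
    obtain ⟨s, hs, _⟩ := (Finset.mem_filter.1 hr).2
    rw [mem_KC] at hr'
    exact s.prop (hs ▸ h.smul_mem ε _ hr')
  -- the formula
  have hform : ∀ᶠ y in 𝓝 y0, e' (g • e.symm y) =
      Lin.A b (KC D C) G' (Lin.F b (K := KC D C) (fun r : C => (cc z ε (r : R) : ℝ)) (Lin.A b (KC D C) G y)) := by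
    filter_upwards [hev1] with y hy
    obtain ⟨hyN, hy1, hy2⟩ := hy
    set X' := j ⟨y, hyN⟩ with hX'
    have hX'val : X'.val = Xf D b G y := rfl
    have hZ' : ∀ r ∉ C, X'.val r = 0 := Xf_notMem b G y
    have h1 : e (Unf.mk (mirs h) v X') = y := by
      rw [(he.2 v X' hy1).2.2, ← A_dev_refl b hb hZ' hpC]
      have h2 : dev d X'.val = Lin.A b (KC D C) G y := dev_Xf b hb G y
      rw [h2]
      exact Lin.A_A b hGK y
    have h2 : e.symm y = Unf.mk (mirs h) v X' := by
      rw [← h1, e.left_inv hy1]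
    rw [h2, smul_mk, (he'.2 v' (ε • X') (by
      rw [hv', hε, ← smul_mk]
      exact hy2)).2.2]
    have h3 : dev d X'.val = Lin.A b (KC D C) G y := dev_Xf b hb G y
    rw [← h3]
    set c : ℝ := Real.exp (shift D z ε X'.val) with hc
    have h4 : Lin.F b (K := KC D C) (fun r : C => (cc z ε (r : R) : ℝ)) (dev d X'.val) =
        dev d (fun r => c * X'.val r) := by
      unfold Lin.F
      rw [wl_dev b hb hZ' (fun r => (cc z ε r : ℝ)), m_dev b hb hZ', dev_eq b hb hZ',
        dev_eq b hb (Z := fun r => c * X'.val r) (fun r hr => by rw [hZ' r hr, mul_zero]),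
        Finset.smul_sum]
      refine Finset.sum_congr rfl fun r _ => ?_
      rw [smul_smul]
      rfl
    rw [h4, A_dev b hb (Z := fun r => c * X'.val r) (fun r hr => by rw [hZ' r hr, mul_zero]),
      mass_const_mul]
    -- reindex the left side
    have h5 : dev d (refl h p' (ε • X').val) =
        ∑ r : C, refl h p' (ε • X').val (ε • (r : R)) • b r := by
      unfold dev
      rw [← finsum_comp_equiv (MulAction.toPerm ε)]
      rw [finsum_eq_sum_of_support_subset (s := C)]
      · rw [← Finset.sum_coe_sort]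
        refine Finset.sum_congr rfl fun r _ => ?_
        rw [hb, MulAction.toPerm_apply, h.d_smul]
      · intro r hr
        by_contra h6
        apply hr
        show refl h p' (ε • X').val (ε • r) • d (ε • r) = 0
        have h7 : (ε • X').val (ε • r) = 0 := by
          rw [CH.smul_val]
          unfold act
          rw [tr_smul, hZ' r h6, mul_zero]
        unfold refl
        rw [if_neg, h7, zero_smul]
        rintro ⟨s, hs, hs1⟩
        obtain ⟨r', hr', hsr⟩ := hp'C s hs1
        rw [hs] at hsr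
        exact h6 ((MulAction.injective ε hsr) ▸ hr')
    rw [h5]
    refine Finset.sum_congr rfl fun r _ => ?_
    congr 1
    have h8 : (ε • X').val (ε • (r : R)) = c * X'.val r := by
      rw [CH.smul_val]
      unfold act
      rw [tr_smul]
    have h9 : D.mass (ε • X').val = c * D.mass X'.val := by
      rw [CH.smul_val, mass_act h]
    unfold refl
    rw [h8, h9]
    simp only [G', Finset.mem_filter, Finset.mem_univ, true_and]
  have hm0 : Lin.m b (KC D C) (Lin.A b (KC D C) G y0) ≠ 0 := by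
    rw [hA0, m_dev b hb hZ]
    exact (CD.mass_pos X.mem.1).ne'
  obtain ⟨L, hL, hdet⟩ := Lin.hasFDerivAt_total b (fun r : C => (cc z ε (r : R) : ℝ)) hGK hGK' hm0
  refine ⟨y0, hy0, L, hL.congr_of_eventuallyEq hform, ?_⟩
  -- the sign
  have hn : sumHom _ p = (G.card : ZMod 2) := by
    let G1 : Finset (SS h) := p.support
    have h1 : ∀ s, s ∈ G1 ↔ p s = 1 := by
      intro s
      rw [Finsupp.mem_support_iff]
      generalize p s = a
      revert a
      decide
    rw [sumHom_eq_card p G1 h1]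
    congr 1
    refine Finset.card_bij (fun s hs => (⟨s.val, hpC s ((h1 s).1 hs)⟩ : C)) ?_ ?_ ?_
    · intro s hs
      exact Finset.mem_filter.2 ⟨Finset.mem_univ _, s, rfl, (h1 s).1 hs⟩
    · intro s hs t ht hst
      have h3 : s.val = t.val := congrArg (fun r : C => (r : R)) hst
      exact SS.ext h3
    · intro r hr
      obtain ⟨s, hs, hs1⟩ := (Finset.mem_filter.1 hr).2
      exact ⟨s, (h1 s).2 hs1, Subtype.ext hs⟩
  have hn' : sumHom _ p' = (G'.card : ZMod 2) := by
    let G1 : Finset (SS h) := p'.support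
    have h1 : ∀ s, s ∈ G1 ↔ p' s = 1 := by
      intro s
      rw [Finsupp.mem_support_iff]
      generalize p' s = a
      revert a
      decide
    rw [sumHom_eq_card p' G1 h1]
    congr 1
    have h2 : ∀ s, p' s = 1 → ε⁻¹ • s.val ∈ C := by
      intro s hs
      obtain ⟨r, hr, hsr⟩ := hp'C s hs
      rw [hsr, inv_smul_smul]
      exact hr
    refine Finset.card_bij (fun s hs => (⟨ε⁻¹ • s.val, h2 s ((h1 s).1 hs)⟩ : C)) ?_ ?_ ?_
    · intro s hs
      exact Finset.mem_filter.2 ⟨Finset.mem_univ _, s, by simp, (h1 s).1 hs⟩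
    · intro s hs t ht hst
      have h3 : ε⁻¹ • s.val = ε⁻¹ • t.val := congrArg (fun r : C => (r : R)) hst
      exact SS.ext (MulAction.injective ε⁻¹ h3)
    · intro r hr
      obtain ⟨s, hs, hs1⟩ := (Finset.mem_filter.1 hr).2
      refine ⟨s, (h1 s).2 hs1, Subtype.ext ?_⟩
      show ε⁻¹ • s.val = r
      rw [hs, inv_smul_smul]
  rw [← sign_eq h hg hn hn']
  exact hdet

end Pool.Agent.Helper82.Circ
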