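import Mathlib

/-!
Right-angled Coxeter groups: descents form cliques.
-/

open Set

namespace Pool.Agent.Helper82.Circ

variable {S : Type*} (comm : S → S → Prop)

/-- relators of a right-angled Coxeter group -/
def racgRels : Set (FreeGroup S) :=
  {r | (∃ s, r = FreeGroup.of s * FreeGroup.of s) ∨
    ∃ s t, comm s t ∧ r = FreeGroup.of s * FreeGroup.of t * (FreeGroup.of t * FreeGroup.of s)⁻¹}

/-- right-angled Coxeter group with generators `S`, where `s`, `t` commute if `comm s t` -/
abbrev Racg := PresentedGroup (racgRels comm)

/-- generator -/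
def gen (s : S) : Racg comm := PresentedGroup.of s

variable {comm}

lemma gen_mul_self (s : S) : gen comm s * gen comm s = 1 := by
  have h : FreeGroup.of s * FreeGroup.of s ∈ racgRels comm := Or.inl ⟨s, rfl⟩
  have := PresentedGroup.one_of_mem h
  simpa [gen, PresentedGroup.of] using this

lemma gen_inv (s : S) : (gen comm s)⁻¹ = gen comm s :=
  inv_eq_of_mul_eq_one_left (gen_mul_self s)

lemma gen_mul_cancel (s : S) (w : Racg comm) : gen comm s * (gen comm s * w) = w := by
  rw [← mul_assoc, gen_mul_self, one_mul]

lemma mul_gen_cancel (s : S) (w : Racg comm) : w * gen comm s * gen comm s = w := by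
  rw [mul_assoc, gen_mul_self, mul_one]

lemma gen_comm {s t : S} (h : comm s t) : gen comm s * gen comm t = gen comm t * gen comm s := by
  have h : FreeGroup.of s * FreeGroup.of t * (FreeGroup.of t * FreeGroup.of s)⁻¹
      ∈ racgRels comm := Or.inr ⟨s, t, h, rfl⟩
  have := PresentedGroup.one_of_mem h
  rw [← mul_inv_eq_one]
  simpa [gen, PresentedGroup.of] using this

/-- universal property -/
def Racg.lift {G : Type*} [Group G] (f : S → G) (h1 : ∀ s, f s * f s = 1)
    (h2 : ∀ s t, comm s t → f s * f t = f t * f s) : Racg comm →* G :=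
  PresentedGroup.toGroup (f := f) (by
    rintro r (⟨s, rfl⟩ | ⟨s, t, h, rfl⟩)
    · simp [h1]
    · simp only [map_mul, FreeGroup.lift_apply_of, map_inv]
      rw [mul_inv_eq_one]
      exact h2 s t h)

@[simp] lemma Racg.lift_gen {G : Type*} [Group G] (f : S → G) (h1 : ∀ s, f s * f s = 1)
    (h2 : ∀ s t, comm s t → f s * f t = f t * f s) (s : S) :
    Racg.lift f h1 h2 (gen comm s) = f s := by
  unfold Racg.lift gen
  exact PresentedGroup.toGroup.of _

lemma Racg.hom_ext {G : Type*} [Group G] {f g : Racg comm →* G}
    (h : ∀ s, f (gen comm s) = g (gen comm s)) : f = g :=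
  PresentedGroup.ext h

lemma closure_gen : Subgroup.closure (Set.range (gen comm)) = ⊤ :=
  PresentedGroup.closure_range_of _

/-- words -/
lemma exists_word (w : Racg comm) : ∃ l : List S, (l.map (gen comm)).prod = w := by
  have hw : w ∈ Subgroup.closure (Set.range (gen comm)) := by
    rw [closure_gen]
    trivial
  induction hw using Subgroup.closure_induction with
  | mem x hx =>
    obtain ⟨s, rfl⟩ := hx
    exact ⟨[s], by simp⟩
  | one => exact ⟨[], by simp⟩
  | mul x y _ _ hx hy =>
    obtain ⟨l, rfl⟩ := hx
    obtain ⟨l', rfl⟩ := hy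
    exact ⟨l ++ l', by simp⟩
  | inv x _ hx =>
    obtain ⟨l, rfl⟩ := hx
    refine ⟨l.reverse, ?_⟩
    rw [List.prod_inv_reverse, List.map_reverse, List.map_map]
    congr 2
    refine List.map_congr_left fun s _ => ?_
    simp [gen_inv]

open Classical in
/-- the involution of `W × ℤ/2` attached to a generator -/
noncomputable def stepPerm (s : S) : Equiv.Perm (Racg comm × ZMod 2) :=
  Function.Involutive.toPerm
    (fun p => (gen comm s * p.1 * gen comm s, p.2 + if p.1 = gen comm s then 1 else 0)) (by
      rintro ⟨u, ε⟩
      have h1 : gen comm s * (gen comm s * u * gen comm s) * gen comm s = u := by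
        rw [← mul_assoc, ← mul_assoc, gen_mul_self, one_mul, mul_gen_cancel]
      have h2 : (gen comm s * u * gen comm s = gen comm s) ↔ u = gen comm s := by
        constructor
        · intro h
          rw [← h1, h, mul_assoc, gen_mul_self, mul_one]
        · rintro rfl
          rw [gen_mul_self, one_mul]
      refine Prod.ext h1 ?_
      simp only [h2]
      have h3 : ∀ a : ZMod 2, a + a = 0 := by decide
      rw [add_assoc, h3, add_zero])

open Classical in
lemma stepPerm_apply (s : S) (p : Racg comm × ZMod 2) :
    stepPerm s p = (gen comm s * p.1 * gen comm s, p.2 + if p.1 = gen comm s then 1 else 0) := rfl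

/-- the reflection cocycle as a homomorphism -/
noncomputable def cocHom : Racg comm →* Equiv.Perm (Racg comm × ZMod 2) :=
  Racg.lift stepPerm (by
    intro s
    ext p : 1
    exact Function.Involutive.toPerm_involutive _ p) (by
    classical
    intro s t hst
    ext p : 1
    rcases p with ⟨u, ε⟩
    have hc := gen_comm hst
    simp only [Equiv.Perm.mul_apply, stepPerm_apply]
    have h1 : gen comm s * (gen comm t * u * gen comm t) * gen comm s =
        gen comm t * (gen comm s * u * gen comm s) * gen comm t := by
      calc _ = (gen comm s * gen comm t) * u * (gen comm t * gen comm s) := by group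
        _ = _ := by rw [hc]; nth_rewrite 2 [← hc]; group
    have h2 : (gen comm t * u * gen comm t = gen comm s) ↔ u = gen comm s := by
      constructor
      · intro h
        have : u = gen comm t * gen comm s * gen comm t := by
          rw [← h]
          rw [← mul_assoc, ← mul_assoc, gen_mul_self, one_mul, mul_gen_cancel]
        rw [this, ← hc, mul_gen_cancel]
      · rintro rfl
        rw [← hc, mul_gen_cancel]
    have h3 : (gen comm s * u * gen comm s = gen comm t) ↔ u = gen comm t := by
      constructor
      · intro h
        have : u = gen comm s * gen comm t * gen comm s := by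
          rw [← h]
          rw [← mul_assoc, ← mul_assoc, gen_mul_self, one_mul, mul_gen_cancel]
        rw [this, hc, mul_gen_cancel]
      · rintro rfl
        rw [hc, mul_gen_cancel]
    refine Prod.ext h1 ?_
    simp only [h2, h3]
    ring)

/-- the value of the cocycle -/
noncomputable def eta (w u : Racg comm) : ZMod 2 := (cocHom w (u, 0)).2

lemma cocHom_apply (w u : Racg comm) (ε : ZMod 2) :
    cocHom w (u, ε) = (w * u * w⁻¹, ε + eta w u) := by
  classical
  obtain ⟨l, rfl⟩ := exists_word w
  induction l generalizing u ε with
  | nil => simp [eta]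
  | cons s l ih =>
    have h1 : ∀ (ε : ZMod 2), cocHom (((s :: l).map (gen comm)).prod) (u, ε) =
        stepPerm s (cocHom ((l.map (gen comm)).prod) (u, ε)) := by
      intro ε
      rw [List.map_cons, List.prod_cons, map_mul, Equiv.Perm.mul_apply]
      congr 1
    unfold eta
    rw [h1, h1, ih, ih]
    simp only [stepPerm_apply, List.map_cons, List.prod_cons, mul_inv_rev, gen_inv]
    refine Prod.ext (by group) ?_
    simp only
    rw [zero_add, add_assoc]

lemma eta_mul (w w' u : Racg comm) : eta (w * w') u = eta w' u + eta w (w' * u * w'⁻¹) := by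
  unfold eta
  rw [map_mul, Equiv.Perm.mul_apply, cocHom_apply w' u 0, zero_add, cocHom_apply w]
  simp [eta]

lemma eta_one (u : Racg comm) : eta 1 u = 0 := by simp [eta]

open Classical in
lemma eta_gen (s : S) (u : Racg comm) : eta (gen comm s) u = if u = gen comm s then 1 else 0 := by
  simp [eta, cocHom, stepPerm_apply]

lemma zmod2_cases (a : ZMod 2) : a = 0 ∨ a = 1 := by
  revert a
  decide

/-- exchange property -/
lemma exchange (l : List S) (u : Racg comm) (h : eta ((l.map (gen comm)).prod) u = 1) :
    ∃ l' : List S, l'.length < l.length ∧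
      (l.map (gen comm)).prod * u = (l'.map (gen comm)).prod := by
  classical
  induction l with
  | nil => simp [eta_one] at h
  | cons s l ih =>
    rw [List.map_cons, List.prod_cons, eta_mul] at h
    rcases zmod2_cases (eta ((l.map (gen comm)).prod) u) with h0 | h0
    · rw [h0, zero_add, eta_gen] at h
      split_ifs at h with h1
      · refine ⟨l, by simp, ?_⟩
        rw [List.map_cons, List.prod_cons, mul_assoc]
        have h2 : (l.map (gen comm)).prod * u = gen comm s * (l.map (gen comm)).prod := by
          rw [← h1]
          group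
        rw [h2, gen_mul_cancel]
      · exact absurd h (by decide)
    · obtain ⟨l', hl', hp⟩ := ih h0
      refine ⟨s :: l', by simpa using hl', ?_⟩
      rw [List.map_cons, List.prod_cons, mul_assoc, hp, List.map_cons, List.prod_cons]

/-- inversion set -/
def inv' (w : Racg comm) : Set (Racg comm) := {u | eta w u = 1}

lemma inv'_finite (w : Racg comm) : (inv' w).Finite := by
  classical
  obtain ⟨l, rfl⟩ := exists_word w
  induction l with
  | nil =>
    have : inv' ((([] : List S).map (gen comm)).prod) = ∅ := by
      ext u
      simp [inv', eta_one]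
    rw [this]
    exact Set.finite_empty
  | cons s l ih =>
    refine (ih.union (Set.finite_singleton
      (((l.map (gen comm)).prod)⁻¹ * gen comm s * (l.map (gen comm)).prod))).subset ?_
    intro u hu
    have hu' : eta (((s :: l).map (gen comm)).prod) u = 1 := hu
    rw [List.map_cons, List.prod_cons, eta_mul, eta_gen] at hu'
    split_ifs at hu' with h1
    · right
      rw [Set.mem_singleton_iff, ← h1]
      group
    · left
      show eta _ u = 1
      simpa using hu'

/-- length -/
noncomputable def len (w : Racg comm) : ℕ := (inv' w).ncard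

lemma mem_inv'_mul_gen (w : Racg comm) (s : S) (u : Racg comm) :
    u ∈ inv' (w * gen comm s) ↔
      (u = gen comm s ∧ gen comm s ∉ inv' w) ∨
      (u ≠ gen comm s ∧ gen comm s * u * gen comm s ∈ inv' w) := by
  classical
  unfold inv'
  simp only [Set.mem_ofPred_eq]
  rw [eta_mul, eta_gen, gen_inv]
  by_cases h : u = gen comm s
  · subst h
    rw [if_pos rfl, gen_mul_self, one_mul]
    simp only [true_and, ne_eq, not_true_eq_false, false_and, or_false]
    rcases zmod2_cases (eta w (gen comm s)) with h | h <;> rw [h] <;> decide
  · rw [if_neg h, zero_add]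
    simp [h]

lemma inv'_mul_gen_of_notMem {w : Racg comm} {s : S} (h : gen comm s ∉ inv' w) :
    len (w * gen comm s) = len w + 1 := by
  classical
  have h1 : inv' (w * gen comm s) =
      insert (gen comm s) ((fun u => gen comm s * u * gen comm s) '' inv' w) := by
    ext u
    rw [mem_inv'_mul_gen, Set.mem_insert_iff, Set.mem_image]
    constructor
    · rintro (⟨h1, _⟩ | ⟨h1, h2⟩)
      · exact Or.inl h1
      · refine Or.inr ⟨_, h2, ?_⟩
        rw [← mul_assoc, ← mul_assoc, gen_mul_self, one_mul, mul_gen_cancel]
    · rintro (h1 | ⟨v, hv, rfl⟩)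
      · exact Or.inl ⟨h1, h⟩
      · have h3 : gen comm s * (gen comm s * v * gen comm s) * gen comm s = v := by
          rw [← mul_assoc, ← mul_assoc, gen_mul_self, one_mul, mul_gen_cancel]
        refine Or.inr ⟨fun h2 => h ?_, by rw [h3]; exact hv⟩
        rw [h2, gen_mul_self, one_mul] at h3
        rw [h3]
        exact hv
  unfold len
  rw [h1, Set.ncard_insert_of_notMem _ ((inv'_finite w).image _), Set.ncard_image_of_injective]
  · intro a b hab
    simpa using hab
  · rintro ⟨v, hv, hv2⟩
    apply h
    have h4 : gen comm s * (gen comm s * v * gen comm s) * gen comm s = v := by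
      rw [← mul_assoc, ← mul_assoc, gen_mul_self, one_mul, mul_gen_cancel]
    simp only at hv2
    rw [hv2, gen_mul_self, one_mul] at h4
    rw [h4]
    exact hv

lemma gen_mem_inv'_mul_gen {w : Racg comm} {s : S} :
    gen comm s ∈ inv' (w * gen comm s) ↔ gen comm s ∉ inv' w := by
  rw [mem_inv'_mul_gen]
  simp

lemma inv'_mul_gen_of_mem {w : Racg comm} {s : S} (h : gen comm s ∈ inv' w) :
    len (w * gen comm s) + 1 = len w := by
  have h1 : gen comm s ∉ inv' (w * gen comm s) := by
    rw [gen_mem_inv'_mul_gen]
    exact not_not.2 h
  have h2 := inv'_mul_gen_of_notMem h1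
  rw [mul_gen_cancel] at h2
  exact h2.symm

/-- descents -/
def desc (w : Racg comm) : Set S := {s | gen comm s ∈ inv' w}

lemma exists_desc {w : Racg comm} (hw : w ≠ 1) : (desc w).Nonempty := by
  classical
  -- a shortest word
  have hex : ∃ n, ∃ l : List S, l.length = n ∧ (l.map (gen comm)).prod = w := by
    obtain ⟨l, hl⟩ := exists_word w
    exact ⟨_, l, rfl, hl⟩
  obtain ⟨l, hlen, hl⟩ := Nat.find_spec hex
  have hmin : ∀ l' : List S, (l'.map (gen comm)).prod = w → l.length ≤ l'.length := by
    intro l' hl'
    rw [hlen]
    exact Nat.find_min' hex ⟨l', rfl, hl'⟩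
  rcases List.eq_nil_or_concat l with rfl | ⟨l0, s, rfl⟩
  · exact absurd (by simpa using hl.symm) hw
  · refine ⟨s, ?_⟩
    have h1 : w = (l0.map (gen comm)).prod * gen comm s := by
      rw [← hl]
      simp
    show gen comm s ∈ inv' w
    rw [h1, gen_mem_inv'_mul_gen]
    intro h2
    obtain ⟨l', hl', hp⟩ := exchange l0 (gen comm s) h2
    rw [← h1] at hp
    have := hmin l' hp.symm
    simp only [List.concat_eq_append, List.length_append, List.length_singleton] at this
    omega

lemma len_eq_zero {w : Racg comm} (h : len w = 0) : w = 1 := by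
  by_contra hw
  obtain ⟨s, hs⟩ := exists_desc hw
  have := inv'_mul_gen_of_mem hs
  omega

lemma len_one : len (1 : Racg comm) = 0 := by
  unfold len
  have : inv' (1 : Racg comm) = ∅ := by
    ext u
    simp [inv', eta_one]
  rw [this, Set.ncard_empty]

/-- parity homomorphism -/
noncomputable def parHom : Racg comm →* Multiplicative (S →₀ ZMod 2) :=
  Racg.lift (fun s => Multiplicative.ofAdd (Finsupp.single s 1)) (by
    intro s
    rw [← ofAdd_add, ← Finsupp.single_add]
    have : (1 : ZMod 2) + 1 = 0 := by decide
    rw [this, Finsupp.single_zero, ofAdd_zero]) (by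
    intro s t _
    exact mul_comm _ _)

/-- parity of the number of occurrences of a generator -/
noncomputable def par (w : Racg comm) : S →₀ ZMod 2 := (parHom w).toAdd

lemma par_mul (w w' : Racg comm) : par (w * w') = par w + par w' := by
  simp [par]

lemma par_one : par (1 : Racg comm) = 0 := by simp [par]

lemma par_gen (s : S) : par (gen comm s) = Finsupp.single s 1 := by
  simp [par, parHom]

lemma par_inv (w : Racg comm) : par w⁻¹ = par w := by
  have h : par w⁻¹ + par w = 0 := by rw [← par_mul, inv_mul_cancel, par_one]
  have h2 : par w + par w = 0 := by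
    ext s
    have : ∀ a : ZMod 2, a + a = 0 := by decide
    exact this _
  exact add_right_cancel (h.trans h2.symm)

lemma gen_injective : Function.Injective (gen comm) := by
  classical
  intro s t h
  have h1 := congrArg par h
  rw [par_gen, par_gen] at h1
  exact (Finsupp.single_left_inj (by decide)).1 h1

lemma desc_finite (w : Racg comm) : (desc w).Finite :=
  (inv'_finite w).preimage (gen_injective.injOn)

section Infinite

variable {s t : S} (hst : s ≠ t) (h1 : ¬ comm s t) (h2 : ¬ comm t s)

include hst h1 h2 in
open Classical in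
lemma pow_ne_one {n : ℕ} (hn : n ≠ 0) : (gen comm s * gen comm t) ^ n ≠ 1 := by
  intro h
  let f : S → DihedralGroup 0 := fun x => if x = s then DihedralGroup.sr 0
    else if x = t then DihedralGroup.sr 1 else 1
  let F : Racg comm →* DihedralGroup 0 := Racg.lift f (by
    intro x
    simp only [f]
    split_ifs <;> simp) (by
    intro x y hxy
    simp only [f]
    split_ifs with ha hb hc hd he <;> first | rfl | simp
    · subst ha; subst hc; exact absurd hxy h1
    · subst hd; subst he; exact absurd hxy h2)
  have h3 := congrArg F h
  rw [map_pow, map_mul, map_one] at h3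
  simp only [F, Racg.lift_gen, f, if_true, if_neg hst.symm] at h3
  rw [DihedralGroup.sr_mul_sr, sub_zero, DihedralGroup.r_one_pow, DihedralGroup.one_def] at h3
  have h4 : ((n : ℕ) : ZMod 0) = 0 := by
    injection h3
  have h5 : ((n : ℕ) : ℤ) = 0 := h4
  exact hn (by exact_mod_cast h5)

include hst h1 h2 in
open Classical in
/-- `η((st)^k; (st)^n s) = 0` for `k, n ≥ 0` -/
lemma eta_pow (k n : ℕ) :
    eta ((gen comm s * gen comm t) ^ k) ((gen comm s * gen comm t) ^ n * gen comm s) = 0 := by
  set a := gen comm s * gen comm t with ha
  have hsa : gen comm s * a = gen comm t := by rw [ha, gen_mul_cancel]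
  have hinv : a⁻¹ = gen comm t * gen comm s := by rw [ha, mul_inv_rev, gen_inv, gen_inv]
  have hsas : gen comm s * a * gen comm s = a⁻¹ := by rw [hsa, hinv]
  have htat : gen comm t * a * gen comm t = a⁻¹ := by
    rw [ha, hinv]
    calc gen comm t * (gen comm s * gen comm t) * gen comm t
        = gen comm t * gen comm s * (gen comm t * gen comm t) := by group
      _ = _ := by rw [gen_mul_self, mul_one]
  have hne : ∀ m : ℕ, m ≠ 0 → a ^ m ≠ 1 := fun m hm => pow_ne_one hst h1 h2 hm
  have hstep : ∀ n : ℕ, eta a (a ^ n * gen comm s) = 0 := by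
    intro n
    rw [ha, eta_mul, eta_gen, eta_gen, gen_inv, ← ha]
    have h3 : a ^ n * gen comm s ≠ gen comm t := by
      intro h
      rw [← hsa] at h
      have h4 : a ^ (n + 1) = 1 := by
        have h5 : a ^ n * gen comm s * gen comm s = gen comm s * a * gen comm s := by rw [h]
        rw [mul_gen_cancel, hsas] at h5
        rw [pow_succ, h5]
        group
      exact hne _ (by omega) h4
    have h4 : gen comm t * (a ^ n * gen comm s) * gen comm t ≠ gen comm s := by
      intro h
      have h5 : a ^ (n + 2) = 1 := by
        have h6 : a ^ n * gen comm s = gen comm t * gen comm s * gen comm t := by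
          calc a ^ n * gen comm s = (gen comm t * gen comm t) * (a ^ n * gen comm s) *
              (gen comm t * gen comm t) := by rw [gen_mul_self, one_mul, mul_one]
            _ = gen comm t * (gen comm t * (a ^ n * gen comm s) * gen comm t) * gen comm t := by
                group
            _ = _ := by rw [h]
        have h7 : a ^ n = a⁻¹ * a⁻¹ := by
          calc a ^ n = a ^ n * gen comm s * gen comm s := by rw [mul_gen_cancel]
            _ = gen comm t * gen comm s * gen comm t * gen comm s := by rw [h6]
            _ = _ := by rw [hinv]; group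
        rw [pow_add, h7]
        group
      exact hne _ (by omega) h5
    rw [if_neg h3, if_neg h4, add_zero]
  induction k generalizing n with
  | zero => rw [pow_zero, eta_one]
  | succ k ih =>
    rw [pow_succ, eta_mul, hstep, zero_add]
    have h3 : a * (a ^ n * gen comm s) * a⁻¹ = a ^ (n + 2) * gen comm s := by
      have h4 : gen comm s * a⁻¹ = a * gen comm s := by
        rw [← hsas]
        calc gen comm s * (gen comm s * a * gen comm s)
            = (gen comm s * gen comm s) * a * gen comm s := by group
          _ = _ := by rw [gen_mul_self, one_mul]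
      calc a * (a ^ n * gen comm s) * a⁻¹ = a * a ^ n * (gen comm s * a⁻¹) := by group
        _ = a * a ^ n * (a * gen comm s) := by rw [h4]
        _ = _ := by rw [pow_add, pow_two]; group
    rw [h3]
    exact ih (n + 2)

include hst h1 h2 in
open Classical in
lemma not_both (v : Racg comm)
    (hv : v ∈ Subgroup.closure ({gen comm s, gen comm t} : Set (Racg comm))) :
    eta v (gen comm s) = 0 ∨ eta v (gen comm t) = 0 := by
  -- classification of the elements
  have hclass : ∃ k : ℕ, v = (gen comm s * gen comm t) ^ k ∨ v = (gen comm t * gen comm s) ^ k ∨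
      v = (gen comm s * gen comm t) ^ k * gen comm s ∨
      v = (gen comm t * gen comm s) ^ k * gen comm t := by
    have hkey : ∀ (x y : S) (k : ℕ), ∃ k' : ℕ,
        gen comm x * (gen comm x * gen comm y) ^ k = (gen comm y * gen comm x) ^ k' * gen comm x ∨
        gen comm x * (gen comm x * gen comm y) ^ k = (gen comm y * gen comm x) ^ k' * gen comm y := by
      intro x y k
      rcases k with _ | k
      · exact ⟨0, Or.inl (by simp)⟩
      · refine ⟨k, Or.inr ?_⟩
        induction k with
        | zero => simp [gen_mul_cancel]
        | succ k ih =>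
          rw [pow_succ, ← mul_assoc, ih, pow_succ]
          group
    have hkey2 : ∀ (x y : S) (k : ℕ),
        gen comm x * (gen comm y * gen comm x) ^ k = (gen comm x * gen comm y) ^ k * gen comm x := by
      intro x y k
      induction k with
      | zero => simp
      | succ k ih =>
        rw [pow_succ, ← mul_assoc, ih, pow_succ]
        group
    induction hv using Subgroup.closure_induction_left with
    | one => exact ⟨0, Or.inl (by simp)⟩
    | mul_left x hx y hy ih =>
      obtain ⟨k, hk⟩ := ih
      rcases hx with rfl | hx
      · rcases hk with rfl | rfl | rfl | rfl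
        · rcases k with _ | k
          · exact ⟨0, Or.inr (Or.inr (Or.inl (by simp)))⟩
          · refine ⟨k, Or.inr (Or.inr (Or.inr ?_))⟩
            rw [pow_succ', ← mul_assoc, ← mul_assoc, gen_mul_self, one_mul, hkey2]
        · exact ⟨k, Or.inr (Or.inr (Or.inl (hkey2 s t k)))⟩
        · rcases k with _ | k
          · exact ⟨0, Or.inl (by simp [gen_mul_self])⟩
          · refine ⟨k + 1, Or.inr (Or.inl ?_)⟩
            rw [pow_succ', ← mul_assoc, ← mul_assoc, ← mul_assoc, gen_mul_self, one_mul, hkey2,
              pow_succ]
            group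
        · refine ⟨k + 1, Or.inl ?_⟩
          rw [← mul_assoc, hkey2, pow_succ]
          group
      · rw [Set.mem_singleton_iff] at hx
        subst hx
        rcases hk with rfl | rfl | rfl | rfl
        · exact ⟨k, Or.inr (Or.inr (Or.inr (hkey2 t s k)))⟩
        · rcases k with _ | k
          · exact ⟨0, Or.inr (Or.inr (Or.inr (by simp)))⟩
          · refine ⟨k, Or.inr (Or.inr (Or.inl ?_))⟩
            rw [pow_succ', ← mul_assoc, ← mul_assoc, gen_mul_self, one_mul, hkey2]
        · refine ⟨k + 1, Or.inr (Or.inl ?_)⟩
          rw [← mul_assoc, hkey2, pow_succ]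
          group
        · rcases k with _ | k
          · exact ⟨0, Or.inl (by simp [gen_mul_self])⟩
          · refine ⟨k + 1, Or.inl ?_⟩
            rw [pow_succ', ← mul_assoc, ← mul_assoc, ← mul_assoc, gen_mul_self, one_mul, hkey2,
              pow_succ]
            group
    | inv_mul_cancel x hx y hy ih =>
      have hx' : x⁻¹ = x := by
        rcases hx with rfl | hx
        · exact gen_inv s
        · rw [Set.mem_singleton_iff] at hx
          rw [hx, gen_inv]
      rw [hx']
      obtain ⟨k, hk⟩ := ih
      rcases hx with rfl | hx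
      · rcases hk with rfl | rfl | rfl | rfl
        · rcases k with _ | k
          · exact ⟨0, Or.inr (Or.inr (Or.inl (by simp)))⟩
          · refine ⟨k, Or.inr (Or.inr (Or.inr ?_))⟩
            rw [pow_succ', ← mul_assoc, ← mul_assoc, gen_mul_self, one_mul, hkey2]
        · exact ⟨k, Or.inr (Or.inr (Or.inl (hkey2 s t k)))⟩
        · rcases k with _ | k
          · exact ⟨0, Or.inl (by simp [gen_mul_self])⟩
          · refine ⟨k + 1, Or.inr (Or.inl ?_)⟩
            rw [pow_succ', ← mul_assoc, ← mul_assoc, ← mul_assoc, gen_mul_self, one_mul, hkey2,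
              pow_succ]
            group
        · refine ⟨k + 1, Or.inl ?_⟩
          rw [← mul_assoc, hkey2, pow_succ]
          group
      · rw [Set.mem_singleton_iff] at hx
        subst hx
        rcases hk with rfl | rfl | rfl | rfl
        · exact ⟨k, Or.inr (Or.inr (Or.inr (hkey2 t s k)))⟩
        · rcases k with _ | k
          · exact ⟨0, Or.inr (Or.inr (Or.inr (by simp)))⟩
          · refine ⟨k, Or.inr (Or.inr (Or.inl ?_))⟩
            rw [pow_succ', ← mul_assoc, ← mul_assoc, gen_mul_self, one_mul, hkey2]
        · refine ⟨k + 1, Or.inr (Or.inl ?_)⟩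
          rw [← mul_assoc, hkey2, pow_succ]
          group
        · rcases k with _ | k
          · exact ⟨0, Or.inl (by simp [gen_mul_self])⟩
          · refine ⟨k + 1, Or.inl ?_⟩
            rw [pow_succ', ← mul_assoc, ← mul_assoc, ← mul_assoc, gen_mul_self, one_mul, hkey2,
              pow_succ]
            group
  have hts : t ≠ s := hst.symm
  have hz1 : ∀ k, eta ((gen comm s * gen comm t) ^ k) (gen comm s) = 0 := by
    intro k
    simpa using eta_pow hst h1 h2 k 0
  have hz2 : ∀ k, eta ((gen comm t * gen comm s) ^ k) (gen comm t) = 0 := by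
    intro k
    simpa using eta_pow hts h2 h1 k 0
  have hz3 : ∀ k, eta ((gen comm s * gen comm t) ^ k * gen comm s) (gen comm t) = 0 := by
    intro k
    rw [eta_mul, eta_gen, if_neg (fun h => hts (gen_injective h)), zero_add, gen_inv]
    simpa using eta_pow hst h1 h2 k 1
  have hz4 : ∀ k, eta ((gen comm t * gen comm s) ^ k * gen comm t) (gen comm s) = 0 := by
    intro k
    rw [eta_mul, eta_gen, if_neg (fun h => hst (gen_injective h)), zero_add, gen_inv]
    simpa using eta_pow hts h2 h1 k 1
  obtain ⟨k, rfl | rfl | rfl | rfl⟩ := hclass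
  · exact Or.inl (hz1 k)
  · exact Or.inr (hz2 k)
  · exact Or.inr (hz3 k)
  · exact Or.inl (hz4 k)

end Infinite

/-- two different descents commute -/
theorem desc_comm (hsymm : ∀ s t, comm s t → comm t s) {w : Racg comm} {s t : S}
    (hs : s ∈ desc w) (ht : t ∈ desc w) (hst : s ≠ t) : comm s t := by
  classical
  by_contra hc
  have hc' : ¬ comm t s := fun h => hc (hsymm _ _ h)
  -- shortest element of the coset
  let P : ℕ → Prop := fun n => ∃ l : List S, l.length = n ∧
    ((l.map (gen comm)).prod)⁻¹ * w ∈ Subgroup.closure ({gen comm s, gen comm t} : Set (Racg comm))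
  have hex : ∃ n, P n := by
    obtain ⟨l, hl⟩ := exists_word w
    exact ⟨_, l, rfl, by rw [hl, inv_mul_cancel]; exact Subgroup.one_mem _⟩
  obtain ⟨l, hlen, hl⟩ := Nat.find_spec hex
  set u := (l.map (gen comm)).prod with hu
  set v := u⁻¹ * w with hv
  have hwuv : w = u * v := by rw [hv]; group
  have hzero : ∀ r ∈ Subgroup.closure ({gen comm s, gen comm t} : Set (Racg comm)),
      eta u r = 0 := by
    intro r hr
    rcases zmod2_cases (eta u r) with h | h
    · exact h
    · exfalso
      obtain ⟨l', hl', hp⟩ := exchange l r h
      have : P l'.length := by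
        refine ⟨l', rfl, ?_⟩
        rw [← hp, ← hu, mul_inv_rev, mul_assoc, ← hv]
        exact Subgroup.mul_mem _ (Subgroup.inv_mem _ hr) hl
      have h3 := Nat.find_min' hex this
      omega
  have hsm : gen comm s ∈ Subgroup.closure ({gen comm s, gen comm t} : Set (Racg comm)) :=
    Subgroup.subset_closure (by simp)
  have htm : gen comm t ∈ Subgroup.closure ({gen comm s, gen comm t} : Set (Racg comm)) :=
    Subgroup.subset_closure (by simp)
  have e1 : eta w (gen comm s) = eta v (gen comm s) := by
    rw [hwuv, eta_mul, hzero _ (Subgroup.mul_mem _ (Subgroup.mul_mem _ hl hsm)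
      (Subgroup.inv_mem _ hl)), add_zero]
  have e2 : eta w (gen comm t) = eta v (gen comm t) := by
    rw [hwuv, eta_mul, hzero _ (Subgroup.mul_mem _ (Subgroup.mul_mem _ hl htm)
      (Subgroup.inv_mem _ hl)), add_zero]
  have hs' : eta w (gen comm s) = 1 := hs
  have ht' : eta w (gen comm t) = 1 := ht
  rcases not_both hst hc hc' v hl with h | h
  · rw [e1, h] at hs'
    exact absurd hs' (by decide)
  · rw [e2, h] at ht'
    exact absurd ht' (by decide)

lemma desc_mul_gen {w : Racg comm} {s t : S} (hst : comm s t) (hne : s ≠ t)
    (ht : t ∈ desc w) : t ∈ desc (w * gen comm s) := by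
  show gen comm t ∈ inv' (w * gen comm s)
  rw [mem_inv'_mul_gen]
  refine Or.inr ⟨fun h => hne (gen_injective h).symm, ?_⟩
  rw [gen_comm hst, mul_gen_cancel]
  exact ht


/-! ### cliques -/

section Clique

variable {M : Set S}

lemma exists_nodup (hM : ∀ s ∈ M, ∀ t ∈ M, s ≠ t → comm s t) {g : Racg comm}
    (hg : g ∈ Subgroup.closure (gen comm '' M)) :
    ∃ l : List S, (∀ s ∈ l, s ∈ M) ∧ l.Nodup ∧ (l.map (gen comm)).prod = g := by
  classical
  have hstep : ∀ s ∈ M, ∀ g : Racg comm, (∃ l : List S, (∀ s ∈ l, s ∈ M) ∧ l.Nodup ∧
      (l.map (gen comm)).prod = g) → ∃ l : List S, (∀ s ∈ l, s ∈ M) ∧ l.Nodup ∧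
      (l.map (gen comm)).prod = gen comm s * g := by
    rintro s hs g ⟨l, hl, hnd, rfl⟩
    by_cases hsl : s ∈ l
    · obtain ⟨l₁, l₂, rfl⟩ := List.append_of_mem hsl
      have hcomm : gen comm s * (l₁.map (gen comm)).prod = (l₁.map (gen comm)).prod * gen comm s := by
        have h1 : ∀ t ∈ l₁, s ≠ t := by
          rintro t ht rfl
          rw [List.nodup_append] at hnd
          exact hnd.2.2 s ht s (by simp) rfl
        have h2 : ∀ t ∈ l₁, t ∈ M := fun t ht => hl t (by simp [ht])
        clear hnd hl hsl
        induction l₁ with
        | nil => simp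
        | cons t l₁ ih =>
          rw [List.map_cons, List.prod_cons, ← mul_assoc,
            gen_comm (hM s hs t (h2 t (by simp)) (h1 t (by simp))), mul_assoc,
            ih (fun t ht => h1 t (by simp [ht])) (fun t ht => h2 t (by simp [ht])), mul_assoc]
      refine ⟨l₁ ++ l₂, fun t ht => hl t ?_, ?_, ?_⟩
      · rw [List.mem_append] at ht ⊢
        rcases ht with ht | ht
        · exact Or.inl ht
        · exact Or.inr (by simp [ht])
      · exact hnd.sublist (List.Sublist.append_left (List.sublist_cons_self s l₂) l₁)
      · simp only [List.map_append, List.prod_append, List.map_cons, List.prod_cons]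
        rw [← mul_assoc, hcomm, mul_assoc, gen_mul_cancel]
    · exact ⟨s :: l, by simpa [hs] using hl, List.nodup_cons.2 ⟨hsl, hnd⟩, by simp⟩
  induction hg using Subgroup.closure_induction_left with
  | one => exact ⟨[], by simp, List.nodup_nil, by simp⟩
  | mul_left x hx y hy ih =>
    obtain ⟨s, hs, rfl⟩ := hx
    exact hstep s hs y ih
  | inv_mul_cancel x hx y hy ih =>
    obtain ⟨s, hs, rfl⟩ := hx
    rw [gen_inv]
    exact hstep s hs y ih

/-- a homomorphism which is injective on the generators in a clique and takes values in a
vector space over `ZMod 2` in a linearly independent way kills no nontrivial element -/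
lemma clique_eq_one {N : Type*} (rk : S → N) (hM : ∀ s ∈ M, ∀ t ∈ M, s ≠ t → comm s t)
    (hrk : Set.InjOn rk M) (F : Racg comm →* Multiplicative (N →₀ ZMod 2))
    (hF : ∀ s, F (gen comm s) = Multiplicative.ofAdd (Finsupp.single (rk s) 1)) {g : Racg comm}
    (hg : g ∈ Subgroup.closure (gen comm '' M)) (h1 : F g = 1) : g = 1 := by
  classical
  obtain ⟨l, hl, hnd, rfl⟩ := exists_nodup hM hg
  rcases l with _ | ⟨s, l⟩
  · simp
  · exfalso
    have h2 : ∀ l : List S, (∀ t ∈ l, t ∈ M) → s ∈ M → s ∉ l →
        ((F ((l.map (gen comm)).prod)).toAdd) (rk s) = 0 := by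
      intro l hl hs hsl
      induction l with
      | nil => simp
      | cons t l ih =>
        rw [List.map_cons, List.prod_cons, map_mul, toAdd_mul, Finsupp.add_apply,
          ih (fun t ht => hl t (by simp [ht])) (fun h => hsl (by simp [h])), hF]
        have : rk t ≠ rk s := fun h => hsl (by
          rw [hrk (hl t (by simp)) hs h]
          simp)
        simp [Finsupp.single_eq_of_ne' this]
    have h3 : ((F (((s :: l).map (gen comm)).prod)).toAdd) (rk s) = 0 := by
      rw [h1]
      simp
    rw [List.map_cons, List.prod_cons, map_mul, toAdd_mul, Finsupp.add_apply,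
      h2 l (fun t ht => hl t (by simp [ht])) (hl s (by simp)) (List.nodup_cons.1 hnd).1, hF] at h3
    simp at h3

lemma clique_ext (hM : ∀ s ∈ M, ∀ t ∈ M, s ≠ t → comm s t) {g g' : Racg comm}
    (hg : g ∈ Subgroup.closure (gen comm '' M)) (hg' : g' ∈ Subgroup.closure (gen comm '' M))
    (h : par g = par g') : g = g' := by
  have h1 : g⁻¹ * g' = 1 := by
    refine clique_eq_one (M := M) id hM Function.injective_id.injOn parHom (fun s => ?_)
      (Subgroup.mul_mem _ (Subgroup.inv_mem _ hg) hg') ?_
    · simp [parHom]
    · have : par (g⁻¹ * g') = 0 := by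
        rw [par_mul, par_inv, h]
        ext s
        have : ∀ a : ZMod 2, a + a = 0 := by decide
        exact this _
      exact this
  rw [inv_mul_eq_one] at h1
  exact h1

lemma par_of_mem_closure {g : Racg comm} (hg : g ∈ Subgroup.closure (gen comm '' M)) {s : S}
    (hs : par g s ≠ 0) : s ∈ M := by
  classical
  by_contra hsM
  apply hs
  clear hs
  induction hg using Subgroup.closure_induction with
  | mem x hx =>
    obtain ⟨t, ht, rfl⟩ := hx
    rw [par_gen]
    exact Finsupp.single_eq_of_ne' (fun h => hsM (h ▸ ht))
  | one => simp [par_one]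
  | mul x y _ _ hx hy => rw [par_mul, Finsupp.add_apply, hx, hy, add_zero]
  | inv x _ hx => rw [par_inv, hx]

/-- an element of the standard subgroup with prescribed parity -/
lemma exists_par (T : Finset S) (hT : (T : Set S) ⊆ M) :
    ∃ g ∈ Subgroup.closure (gen comm '' M), ∀ s, par g s = 1 ↔ s ∈ T := by
  classical
  induction T using Finset.induction_on with
  | empty => exact ⟨1, Subgroup.one_mem _, fun s => by simp [par_one]⟩
  | insert a T ha ih =>
    obtain ⟨g, hg, hp⟩ := ih (fun s hs => hT (by simp only [Finset.coe_insert]; exact Or.inr hs))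
    have haM : a ∈ M := hT (by simp)
    refine ⟨gen comm a * g, Subgroup.mul_mem _ (Subgroup.subset_closure ⟨a, haM, rfl⟩) hg,
      fun s => ?_⟩
    rw [par_mul, par_gen, Finsupp.add_apply, Finset.mem_insert]
    by_cases h : s = a
    · subst h
      have h0 : par g s = 0 := by
        rcases zmod2_cases (par g s) with h | h
        · exact h
        · exact absurd ((hp s).1 h) ha
      simp [h0]
    · rw [Finsupp.single_eq_of_ne h, zero_add, hp s]
      simp [h]

lemma closure_clique_finite (hM : ∀ s ∈ M, ∀ t ∈ M, s ≠ t → comm s t) (hfin : M.Finite) :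
    (Subgroup.closure (gen comm '' M) : Set (Racg comm)).Finite := by
  classical
  have h1 : ((fun T : Finset S => (T : Set S)) ⁻¹' {A | A ⊆ M}).Finite := by
    refine Set.Finite.preimage (Finset.coe_injective.injOn) hfin.finite_subsets
  refine Set.Finite.of_finite_image (f := fun g => (par g).support) ?_ ?_
  · refine h1.subset ?_
    rintro _ ⟨g, hg, rfl⟩ s hs
    exact par_of_mem_closure hg (by simpa using hs)
  · intro g hg g' hg' h
    refine clique_ext hM hg hg' ?_
    ext s
    have h2 : (par g).support = (par g').support := h
    have h3 := Finset.ext_iff.1 h2 s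
    rw [Finsupp.mem_support_iff, Finsupp.mem_support_iff] at h3
    rcases zmod2_cases (par g s) with ha | ha <;> rcases zmod2_cases (par g' s) with hb | hb
    · rw [ha, hb]
    · exact absurd ha (h3.2 (by rw [hb]; decide))
    · exact absurd hb (h3.1 (by rw [ha]; decide))
    · rw [ha, hb]

end Clique

/-! ### automorphisms -/

section Action

variable {E : Type*} [Group E] [MulAction E S] (hE : ∀ (e : E) (s t : S), comm s t → comm (e • s) (e • t))

/-- the endomorphism induced by `e` -/
def racgMap (e : E) : Racg comm →* Racg comm :=
  Racg.lift (fun s => gen comm (e • s)) (fun s => gen_mul_self _)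
    (fun s t h => gen_comm (hE e s t h))

@[simp] lemma racgMap_gen (e : E) (s : S) : racgMap hE e (gen comm s) = gen comm (e • s) := by
  simp [racgMap]

/-- the action on the group -/
def racgAct : E →* MulAut (Racg comm) where
  toFun e := {
    toFun := racgMap hE e
    invFun := racgMap hE e⁻¹
    left_inv := fun w => by
      have : (racgMap hE e⁻¹).comp (racgMap hE e) = MonoidHom.id _ :=
        Racg.hom_ext fun s => by simp
      exact DFunLike.congr_fun this w
    right_inv := fun w => by
      have : (racgMap hE e).comp (racgMap hE e⁻¹) = MonoidHom.id _ :=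
        Racg.hom_ext fun s => by simp
      exact DFunLike.congr_fun this w
    map_mul' := map_mul _ }
  map_one' := by
    ext w
    have : racgMap hE (1 : E) = MonoidHom.id _ := Racg.hom_ext fun s => by simp
    exact DFunLike.congr_fun this w
  map_mul' e e' := by
    ext w
    have : racgMap hE (e * e') = (racgMap hE e).comp (racgMap hE e') :=
      Racg.hom_ext fun s => by simp [mul_smul]
    exact DFunLike.congr_fun this w

lemma racgAct_apply (e : E) (w : Racg comm) : racgAct hE e w = racgMap hE e w := rfl

@[simp] lemma racgAct_gen (e : E) (s : S) : racgAct hE e (gen comm s) = gen comm (e • s) := by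
  rw [racgAct_apply, racgMap_gen]

lemma par_racgAct (e : E) (w : Racg comm) (s : S) :
    par (racgAct hE e w) (e • s) = par w s := by
  classical
  obtain ⟨l, rfl⟩ := exists_word w
  induction l with
  | nil => simp [par_one]
  | cons t l ih =>
    rw [List.map_cons, List.prod_cons, map_mul, par_mul, par_mul, Finsupp.add_apply,
      Finsupp.add_apply, ih, racgAct_gen, par_gen, par_gen]
    congr 1
    by_cases h : s = t
    · subst h
      simp
    · rw [Finsupp.single_eq_of_ne h, Finsupp.single_eq_of_ne (fun h2 => h (by simpa using h2))]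

end Action

end Pool.Agent.Helper82.Circ
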