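import Pool.Agent.Helper82.Circ.Grp

/-!
Reflected coordinates.
-/

open Topology Set Function

namespace Pool.Agent.Helper82.Circ

set_option linter.unusedSectionVars false

variable {E R B T : Type} [Group E] [PartialOrder R] [MulAction E R] [Fintype B]
  {D : CD R} {d : R → B → ℝ} {τ : R → T} {z : E} (h : MDz E R B T D d τ z)

open Classical in
/-- reflect the coordinates `r` with `p r = 1` at the mass -/
noncomputable def refl (p : SS h →₀ ZMod 2) (X : R → ℝ) : R → ℝ :=
  fun r => if ∃ s : SS h, s.val = r ∧ p s = 1 then 2 * D.mass X - X r else X r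

end Pool.Agent.Helper82.Circ
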